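import Mathlib

-- merged part: Pool.Agent.Work.MP_10b6e9_ag.Cover
section
-- merged part: Pool.Agent.Work.MP_10b6e9_ag.Filtration
section
set_option autoImplicit false

namespace Pool.Agent.Work.MP_10b6e9_ag

open Module

section Filtration

variable (K : Type*) {R : Type*} [Field K] [CommRing R] [Algebra K R]

/-- The span of the monomials `x^i y^j` of weight `q i + (q+1) j < N`. -/
def wfil (q : ℕ) (x y : R) (N : ℕ) : Submodule K R :=
  Submodule.span K {r | ∃ i j : ℕ, q * i + (q + 1) * j < N ∧ r = x ^ i * y ^ j}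

variable {K}

lemma mon_mem_wfil {q : ℕ} {x y : R} {N : ℕ} (i j : ℕ) (h : q * i + (q + 1) * j < N) :
    x ^ i * y ^ j ∈ wfil K q x y N :=
  Submodule.subset_span ⟨i, j, h, rfl⟩

lemma wfil_mono {q : ℕ} {x y : R} {M N : ℕ} (h : M ≤ N) : wfil K q x y M ≤ wfil K q x y N := by
  apply Submodule.span_mono
  rintro r ⟨i, j, hij, rfl⟩
  exact ⟨i, j, lt_of_lt_of_le hij h, rfl⟩

lemma wfil_mul {q : ℕ} {x y : R} {M N : ℕ} {a b : R} (ha : a ∈ wfil K q x y (M + 1))
    (hb : b ∈ wfil K q x y N) : a * b ∈ wfil K q x y (M + N) := by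
  induction ha using Submodule.span_induction with
  | mem r hr =>
    obtain ⟨i, j, hij, rfl⟩ := hr
    induction hb using Submodule.span_induction with
    | mem s hs =>
      obtain ⟨i', j', hij', rfl⟩ := hs
      have : x ^ i * y ^ j * (x ^ i' * y ^ j') = x ^ (i + i') * y ^ (j + j') := by ring
      rw [this]
      apply mon_mem_wfil
      linarith only [hij, hij']
    | zero => simp
    | add s t _ _ hs ht => rw [mul_add]; exact add_mem hs ht
    | smul c s _ hs => rw [mul_smul_comm]; exact Submodule.smul_mem _ _ hs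
  | zero => simp
  | add s t _ _ hs ht => rw [add_mul]; exact add_mem hs ht
  | smul c s _ hs => rw [smul_mul_assoc]; exact Submodule.smul_mem _ _ hs

lemma wfil_finite {q : ℕ} (hq : 1 ≤ q) (x y : R) (N : ℕ) :
    Module.Finite K (wfil K q x y N) := by
  apply Module.Finite.span_of_finite
  apply Set.Finite.subset
    (((Finset.range N) ×ˢ (Finset.range N)).finite_toSet.image (fun p => x ^ p.1 * y ^ p.2))
  rintro r ⟨i, j, hij, rfl⟩
  refine ⟨(i, j), ?_, rfl⟩
  simp only [Finset.coe_product, Finset.coe_range, Set.mem_prod, Set.mem_Iio]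
  constructor <;> nlinarith only [hij, hq]

lemma wfil_step {q : ℕ} (hq : 2 ≤ q) {x y : R} (hxy : x ^ (q + 1) + y ^ q + y = 0) (N : ℕ) :
    finrank K (wfil K q x y (N + 1)) ≤ finrank K (wfil K q x y N) + 1 := by
  classical
  have := wfil_finite (K := K) (by omega : 1 ≤ q) x y N
  obtain ⟨m0, hm0⟩ : ∃ m0 : R, ∀ i j : ℕ, i ≤ q → q * i + (q + 1) * j = N →
      x ^ i * y ^ j = m0 := by
    by_cases h : ∃ i j : ℕ, i ≤ q ∧ q * i + (q + 1) * j = N
    · obtain ⟨i0, j0, hi0, h0⟩ := h
      refine ⟨x ^ i0 * y ^ j0, fun i j hi hij => ?_⟩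
      have h1 : (q + 1) * (i + j) + i0 = (q + 1) * (i0 + j0) + i := by nlinarith
      have h2 : i0 = i := by
        have := congrArg (· % (q + 1)) h1
        simp only [Nat.mul_add_mod] at this
        rwa [Nat.mod_eq_of_lt (by omega), Nat.mod_eq_of_lt (by omega)] at this
      subst h2
      have h3 : j = j0 := by
        have : (q + 1) * j = (q + 1) * j0 := by omega
        exact Nat.eq_of_mul_eq_mul_left (by omega) this
      rw [h3]
    · exact ⟨0, fun i j hi hij => (h ⟨i, j, hi, hij⟩).elim⟩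
  have key : ∀ i j : ℕ, q * i + (q + 1) * j = N →
      x ^ i * y ^ j ∈ wfil K q x y N ⊔ Submodule.span K {m0} := by
    intro i
    induction i using Nat.strong_induction_on with
    | _ i ih =>
      intro j hij
      by_cases hi : i ≤ q
      · rw [hm0 i j hi hij]
        exact Submodule.mem_sup_right (Submodule.subset_span rfl)
      · obtain ⟨k, rfl⟩ : ∃ k, i = k + (q + 1) := ⟨i - (q + 1), by omega⟩
        have e : x ^ (k + (q + 1)) * y ^ j = -(x ^ k * y ^ (j + q)) - x ^ k * y ^ (j + 1) := by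
          have : x ^ (q + 1) = -y ^ q - y := by linear_combination hxy
          rw [pow_add, this]; ring
        rw [e]
        refine sub_mem (neg_mem (ih k (by omega) _ (by nlinarith))) ?_
        apply Submodule.mem_sup_left
        apply mon_mem_wfil
        nlinarith only [hq, hij]
  have hle : wfil K q x y (N + 1) ≤ wfil K q x y N ⊔ Submodule.span K {m0} := by
    apply Submodule.span_le.2
    rintro r ⟨i, j, hij, rfl⟩
    rcases Nat.lt_succ_iff_lt_or_eq.1 hij with h | h
    · exact Submodule.mem_sup_left (mon_mem_wfil i j h)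
    · exact key i j h
  calc finrank K (wfil K q x y (N + 1))
      ≤ finrank K (wfil K q x y N ⊔ Submodule.span K {m0} : Submodule K R) :=
        Submodule.finrank_mono hle
    _ ≤ finrank K (wfil K q x y N) + finrank K (Submodule.span K {m0} : Submodule K R) :=
        Submodule.finrank_add_le_finrank_add_finrank _ _
    _ ≤ _ := by
        have := finrank_span_le_card (R := K) ({m0} : Set R)
        simp only [Set.toFinset_singleton, Finset.card_singleton] at this
        omega

lemma wfil_steps {q : ℕ} (hq : 2 ≤ q) {x y : R} (hxy : x ^ (q + 1) + y ^ q + y = 0) (ρ N : ℕ) :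
    finrank K (wfil K q x y (ρ + N)) ≤ finrank K (wfil K q x y N) + ρ := by
  induction ρ with
  | zero => rw [Nat.zero_add]; omega
  | succ ρ ih =>
    have := wfil_step (K := K) hq hxy (ρ + N)
    rw [show ρ + 1 + N = ρ + N + 1 by ring]
    omega

/-- The key dimension bound. -/
lemma finrank_le_of_wfil [IsDomain R] {q : ℕ} (hq : 2 ≤ q) {x y : R}
    (hxy : x ^ (q + 1) + y ^ q + y = 0) (hgen : ∀ r : R, ∃ N, r ∈ wfil K q x y N)
    {ρ : ℕ} {g : R} (hg : g ∈ wfil K q x y (ρ + 1)) (hg0 : g ≠ 0)
    {W : Type*} [AddCommGroup W] [Module K W] [Module.Finite K W]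
    (E : R →ₗ[K] W) (hE : Function.Surjective E) (hEg : ∀ r, E (g * r) = 0) :
    finrank K W ≤ ρ := by
  classical
  -- choose a level mapping onto `W`
  obtain ⟨N, hN⟩ : ∃ N, ∀ w : W, ∃ r ∈ wfil K q x y N, E r = w := by
    let b := Module.finBasis K W
    choose r hr using fun i => hE (b i)
    choose n hn using fun i => hgen (r i)
    refine ⟨Finset.univ.sup n, fun w => ?_⟩
    refine ⟨∑ i, b.repr w i • r i, ?_, ?_⟩
    · apply Submodule.sum_mem
      intro i _
      apply Submodule.smul_mem
      exact wfil_mono (Finset.le_sup (Finset.mem_univ i)) (hn i)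
    · simp only [map_sum, map_smul, hr]
      exact b.sum_repr w
  have := wfil_finite (K := K) (by omega : 1 ≤ q) x y N
  have := wfil_finite (K := K) (by omega : 1 ≤ q) x y (ρ + N)
  let E' := E.domRestrict (wfil K q x y (ρ + N))
  have hrange : LinearMap.range E' = ⊤ := by
    rw [LinearMap.range_eq_top]
    intro w
    obtain ⟨r, hr, rfl⟩ := hN w
    exact ⟨⟨r, wfil_mono (by omega) hr⟩, rfl⟩
  have h1 := LinearMap.finrank_range_add_finrank_ker E'
  rw [hrange, finrank_top] at h1
  let m : wfil K q x y N →ₗ[K] LinearMap.ker E' :=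
    { toFun := fun r => ⟨⟨g * r.1, wfil_mul hg r.2⟩, by
        rw [LinearMap.mem_ker]; exact hEg _⟩
      map_add' := fun a b => by ext; simp [mul_add]
      map_smul' := fun c a => by ext; simp }
  have hm : Function.Injective m := by
    intro a b hab
    have : g * a.1 = g * b.1 := congrArg (fun z : LinearMap.ker E' => (z.1.1 : R)) hab
    exact Subtype.ext (mul_left_cancel₀ hg0 this)
  have h2 := LinearMap.finrank_le_finrank_of_injective hm
  have h3 := wfil_steps (K := K) hq hxy ρ N
  omega

end Filtration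

end Pool.Agent.Work.MP_10b6e9_ag
end

-- merged part: Pool.Agent.Work.MP_10b6e9_ag.Bezout
section
set_option autoImplicit false

namespace Pool.Agent.Work.MP_10b6e9_ag

open Module Polynomial

section Curve

variable (K : Type*) [Field K]

/-- The affine Hermitian curve `x^(q+1) + y^q + y`, as a polynomial in `x` over `K[y]`. -/
noncomputable def hphi (q : ℕ) : K[X][X] := X ^ (q + 1) + C (X ^ q + X)

lemma hphi_monic (q : ℕ) : (hphi K q).Monic := monic_X_pow_add_C _ (by omega)

lemma hphi_natDegree (q : ℕ) : (hphi K q).natDegree = q + 1 := natDegree_X_pow_add_C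

lemma hphi_irreducible {q : ℕ} (hq : 2 ≤ q) : Irreducible (hphi K q) := by
  have hP : (Ideal.span {(X : K[X])}).IsPrime :=
    (Ideal.span_singleton_prime X_ne_zero).2 prime_X
  apply irreducible_of_eisenstein_criterion hP
  · rw [(hphi_monic K q).leadingCoeff]
    exact (Ideal.ne_top_iff_one _).1 hP.ne_top
  · intro n hn
    rw [degree_eq_natDegree (hphi_monic K q).ne_zero, hphi_natDegree] at hn
    have hn' : n < q + 1 := by exact_mod_cast hn
    rw [hphi, coeff_add, coeff_X_pow, if_neg (by omega), zero_add, coeff_C]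
    split_ifs
    · rw [Ideal.mem_span_singleton]
      exact dvd_add (dvd_pow_self _ (by omega)) dvd_rfl
    · exact zero_mem _
  · rw [degree_eq_natDegree (hphi_monic K q).ne_zero, hphi_natDegree]
    exact_mod_cast Nat.succ_pos q
  · rw [hphi, coeff_add, coeff_X_pow, if_neg (by omega), zero_add, coeff_C, if_pos rfl,
      Ideal.span_singleton_pow, Ideal.mem_span_singleton, X_pow_dvd_iff]
    intro h
    have := h 1 (by norm_num)
    rw [coeff_add, coeff_X_pow, if_neg (by omega), coeff_X_one] at this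
    simp at this
  · exact (hphi_monic K q).isPrimitive

/-- The coordinate ring of the affine Hermitian curve. -/
abbrev HR (q : ℕ) := AdjoinRoot (hphi K q)

noncomputable def hx (q : ℕ) : HR K q := AdjoinRoot.root _

noncomputable def hy (q : ℕ) : HR K q := AdjoinRoot.of _ X

lemma HR_isDomain {q : ℕ} (hq : 2 ≤ q) : IsDomain (HR K q) :=
  AdjoinRoot.isDomain_of_prime (hphi_irreducible K hq).prime

lemma hx_hy (q : ℕ) : hx K q ^ (q + 1) + hy K q ^ q + hy K q = 0 := by
  have := AdjoinRoot.mk_self (f := hphi K q)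
  have e : AdjoinRoot.mk (hphi K q) (X ^ (q + 1) + C (X ^ q + X)) =
      hx K q ^ (q + 1) + hy K q ^ q + hy K q := by
    rw [map_add, map_pow, AdjoinRoot.mk_C, AdjoinRoot.mk_X, map_add, map_pow, add_assoc, hx, hy]
  rw [← e]
  exact this

lemma HR_gen (q : ℕ) (r : HR K q) : ∃ N, r ∈ wfil K q (hx K q) (hy K q) N := by
  have hadd : ∀ a b : HR K q, (∃ N, a ∈ wfil K q (hx K q) (hy K q) N) →
      (∃ N, b ∈ wfil K q (hx K q) (hy K q) N) → ∃ N, a + b ∈ wfil K q (hx K q) (hy K q) N := by
    rintro a b ⟨M, hM⟩ ⟨N, hN⟩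
    exact ⟨M + N, add_mem (wfil_mono (by omega) hM) (wfil_mono (by omega) hN)⟩
  induction r using AdjoinRoot.induction_on with
  | ih p =>
    induction p using Polynomial.induction_on' with
    | add p p' hp hp' => rw [map_add]; exact hadd _ _ hp hp'
    | monomial i c =>
      induction c using Polynomial.induction_on' with
      | add c c' hc hc' => rw [map_add, map_add]; exact hadd _ _ hc hc'
      | monomial j s =>
        refine ⟨q * i + (q + 1) * j + 1, ?_⟩
        have : AdjoinRoot.mk (hphi K q) (monomial i (monomial j s)) =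
            s • (hx K q ^ i * hy K q ^ j) := by
          rw [← C_mul_X_pow_eq_monomial, ← C_mul_X_pow_eq_monomial, map_mul, map_pow,
            AdjoinRoot.mk_C, AdjoinRoot.mk_X, map_mul, map_pow, Algebra.smul_def,
            AdjoinRoot.algebraMap_eq', hx, hy]
          simp only [RingHom.coe_comp, Function.comp_apply, algebraMap_eq]
          ring
        rw [this]
        exact Submodule.smul_mem _ _ (mon_mem_wfil i j (by omega))

variable {K}

/-- Evaluation at a point of the curve with values in a `K`-algebra. -/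
noncomputable def hev {A : Type*} [CommRing A] [Algebra K A] {q : ℕ} (a b : A)
    (h : a ^ (q + 1) + b ^ q + b = 0) : HR K q →ₐ[K] A :=
  AdjoinRoot.liftAlgHom (hphi K q) (aeval b) a (by
    rw [hphi, eval₂_add, eval₂_X_pow, eval₂_C]
    simp only [RingHom.coe_coe, map_add, map_pow, aeval_X]
    rw [← add_assoc]; exact h)

lemma hev_hx {A : Type*} [CommRing A] [Algebra K A] {q : ℕ} (a b : A)
    (h : a ^ (q + 1) + b ^ q + b = 0) : hev (K := K) a b h (hx K q) = a := by
  simp [hev, hx]

lemma hev_hy {A : Type*} [CommRing A] [Algebra K A] {q : ℕ} (a b : A)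
    (h : a ^ (q + 1) + b ^ q + b = 0) : hev (K := K) a b h (hy K q) = b := by
  simp [hev, hy]

lemma hev_aeval {A : Type*} [CommRing A] [Algebra K A] {q : ℕ} (a b : A)
    (h : a ^ (q + 1) + b ^ q + b = 0) (H : MvPolynomial (Fin 3) K) :
    hev (K := K) a b h (MvPolynomial.aeval ![hy K q, hx K q, 1] H) =
      MvPolynomial.aeval ![b, a, 1] H := by
  rw [← AlgHom.comp_apply, MvPolynomial.comp_aeval]
  congr 2
  ext i
  fin_cases i <;> simp [hev_hx, hev_hy]

lemma isUnit_sq_of_nil {A : Type*} [CommRing A] [Algebra K A] {α : A} {a c : K}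
    (h : (α - algebraMap K A a) ^ 2 = 0) (hac : a ≠ c) : IsUnit ((α - algebraMap K A c) ^ 2) := by
  apply IsUnit.pow
  have hu : IsUnit (algebraMap K A ((a - c) ^ 2)) :=
    (IsUnit.mk0 _ (pow_ne_zero 2 (sub_ne_zero.2 hac))).map _
  have : (α - algebraMap K A c) * (algebraMap K A (a - c) - (α - algebraMap K A a)) =
      algebraMap K A ((a - c) ^ 2) := by
    simp only [map_sub, map_pow]
    linear_combination (-1 : A) * h
  rw [← this] at hu
  exact isUnit_of_mul_isUnit_left hu

lemma points_bound {q : ℕ} (hq : 2 ≤ q) {A : Type*} [CommRing A] [Algebra K A]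
    [Module.Finite K A] (Z : Finset (K × K)) (α β : K × K → A)
    (hα : ∀ z ∈ Z, (α z - algebraMap K A z.1) ^ 2 = 0)
    (hβ : ∀ z ∈ Z, (β z - algebraMap K A z.2) ^ 2 = 0)
    (hrel : ∀ z ∈ Z, α z ^ (q + 1) + β z ^ q + β z = 0)
    (hsurj : ∀ z ∈ Z, ∀ w : A, ∃ s t : K, w = algebraMap K A s + t • α z)
    (H : MvPolynomial (Fin 3) K) (hH : ∀ z ∈ Z, MvPolynomial.aeval ![β z, α z, 1] H = 0)
    {ρ : ℕ} (hg : MvPolynomial.aeval ![hy K q, hx K q, 1] H ∈ wfil K q (hx K q) (hy K q) (ρ + 1))
    (hg0 : MvPolynomial.aeval ![hy K q, hx K q, 1] H ≠ 0) :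
    Z.card * finrank K A ≤ ρ := by
  classical
  have := HR_isDomain K hq
  let ev : Z → (HR K q →ₐ[K] A) := fun z => hev (α z) (β z) (hrel z z.2)
  have hevs : ∀ z : Z, Function.Surjective (ev z) := by
    intro z w
    obtain ⟨s, t, rfl⟩ := hsurj z z.2 w
    exact ⟨algebraMap K _ s + t • hx K q, by simp [ev, hev_hx]⟩
  have hcop : Pairwise (Function.onFun IsCoprime fun z : Z => RingHom.ker (ev z)) := by
    intro z z' hzz
    obtain ⟨r, hr1, hr2⟩ : ∃ r : HR K q, IsUnit (ev z r) ∧ ev z' r = 0 := by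
      by_cases h1 : z.1.1 = z'.1.1
      · have h2 : z.1.2 ≠ z'.1.2 := fun h2 => hzz (Subtype.ext (Prod.ext h1 h2))
        refine ⟨(hy K q - algebraMap K _ z'.1.2) ^ 2, ?_, ?_⟩
        · simp only [ev, map_pow, map_sub, hev_hy, AlgHom.commutes]
          exact isUnit_sq_of_nil (hβ z z.2) h2
        · simp only [ev, map_pow, map_sub, hev_hy, AlgHom.commutes]
          exact hβ z' z'.2
      · refine ⟨(hx K q - algebraMap K _ z'.1.1) ^ 2, ?_, ?_⟩
        · simp only [ev, map_pow, map_sub, hev_hx, AlgHom.commutes]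
          exact isUnit_sq_of_nil (hα z z.2) h1
        · simp only [ev, map_pow, map_sub, hev_hx, AlgHom.commutes]
          exact hα z' z'.2
    obtain ⟨u, hu⟩ := hr1
    obtain ⟨r', hr'⟩ := hevs z (↑u⁻¹)
    rw [Function.onFun, Ideal.isCoprime_iff_exists]
    refine ⟨1 - r * r', ?_, r * r', ?_, by ring⟩
    · rw [RingHom.mem_ker, map_sub, map_one, map_mul, hr', ← hu]; simp
    · rw [RingHom.mem_ker, map_mul, hr2, zero_mul]
  let E : HR K q →ₗ[K] (Z → A) := LinearMap.pi fun z => (ev z).toLinearMap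
  have hE : Function.Surjective E := by
    intro w
    choose r hr using fun z => hevs z (w z)
    obtain ⟨s, hs⟩ := Ideal.exists_forall_sub_mem_ideal hcop r
    refine ⟨s, funext fun z => ?_⟩
    have := hs z
    rw [RingHom.mem_ker, map_sub, sub_eq_zero, hr] at this
    exact this
  have key := finrank_le_of_wfil hq (hx_hy K q) (HR_gen K q) hg hg0 E hE (by
    intro r
    funext z
    simp only [E, LinearMap.pi_apply, AlgHom.toLinearMap_apply, map_mul, Pi.zero_apply, ev]
    rw [hev_aeval, hH z z.2, zero_mul])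
  rw [Module.finrank_pi_fintype] at key
  simpa using key

end Curve

end Pool.Agent.Work.MP_10b6e9_ag
end

-- merged part: Pool.Agent.Work.MP_10b6e9_ag.BezoutCor
section
set_option autoImplicit false

namespace Pool.Agent.Work.MP_10b6e9_ag

open Module MvPolynomial

section Hom

variable {K : Type*} [Field K]

lemma hom_sum_eq {σ : Type*} [Fintype σ] {F : MvPolynomial σ K} {n : ℕ} (hF : F.IsHomogeneous n)
    {s : σ →₀ ℕ} (hs : s ∈ F.support) : ∑ i, s i = n := by
  rw [hF.degree_eq_sum_deg_support hs]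
  symm
  apply Finset.sum_subset (Finset.subset_univ _)
  intro i _ hi
  simpa using hi

lemma hom_eval_smul {σ : Type*} [Fintype σ] {F : MvPolynomial σ K} {n : ℕ}
    (hF : F.IsHomogeneous n) (c : K) (v : σ → K) : eval (c • v) F = c ^ n * eval v F := by
  rw [eval_eq', eval_eq', Finset.mul_sum]
  apply Finset.sum_congr rfl
  intro s hs
  simp only [Pi.smul_apply, smul_eq_mul, mul_pow, Finset.prod_mul_distrib,
    Finset.prod_pow_eq_pow_sum, hom_sum_eq hF hs]
  ring

lemma hom_eq_zero [Fintype K] {σ : Type*} {F : MvPolynomial σ K} {n : ℕ}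
    (hF : F.IsHomogeneous n) (h : ∀ r : σ → K, eval r F = 0) (hn : n ≤ Fintype.card K) :
    F = 0 := by
  apply hF.eq_zero_of_forall_eval_eq_zero_of_le_card h
  rw [Cardinal.mk_fintype]
  exact_mod_cast hn

lemma aeval_hr_ne_zero [Fintype K] {q m : ℕ} (hm : m ≤ q) (hc : m + 1 ≤ Fintype.card K)
    {H : MvPolynomial (Fin 3) K} (hH : H.IsHomogeneous m) (h0 : H ≠ 0) :
    aeval ![hy K q, hx K q, 1] H ≠ 0 := by
  let p : Polynomial (Polynomial K) := aeval ![Polynomial.C Polynomial.X, Polynomial.X, 1] H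
  have e : aeval ![hy K q, hx K q, 1] H = AdjoinRoot.mk (hphi K q) p := by
    let φ : Polynomial (Polynomial K) →ₐ[K] HR K q :=
      (AdjoinRoot.mkₐ (hphi K q)).restrictScalars K
    change _ = φ p
    simp only [p]
    rw [← AlgHom.comp_apply, MvPolynomial.comp_aeval]
    congr 2
    ext i
    fin_cases i <;> simp [φ, hx, hy]
  rw [e]
  apply AdjoinRoot.mk_ne_zero_of_natDegree_lt (hphi_monic K q)
  · intro hp
    apply h0
    have h1 : ∀ a b : K, eval ![b, a, 1] H = 0 := by
      intro a b
      let φ : Polynomial (Polynomial K) →ₐ[K] K :=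
        Polynomial.eval₂AlgHom (Polynomial.aeval b) a (fun _ => Commute.all _ _)
      have : φ p = eval ![b, a, 1] H := by
        simp only [p]
        rw [← AlgHom.comp_apply, MvPolynomial.comp_aeval, ← coe_aeval_eq_eval]
        simp only [RingHom.coe_coe]
        congr 2
        ext i
        fin_cases i <;> simp [φ]
      rw [← this, hp, map_zero]
    have h2 : X 2 * H = 0 := by
      apply hom_eq_zero ((isHomogeneous_X K 2).mul hH) _ (by omega)
      intro r
      rw [map_mul, eval_X]
      by_cases hr : r 2 = 0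
      · rw [hr, zero_mul]
      · have : r = r 2 • ![r 0 / r 2, r 1 / r 2, 1] := by
          ext i
          fin_cases i <;> simp <;> field_simp
        rw [this, hom_eval_smul hH, h1]
        simp
    exact (mul_eq_zero.1 h2).resolve_left (X_ne_zero _)
  · rw [hphi_natDegree]
    apply Nat.lt_succ_of_le
    simp only [p]
    rw [aeval_def, eval₂_eq']
    apply Polynomial.natDegree_sum_le_of_forall_le
    intro s hs
    have := hom_sum_eq hH hs
    rw [Fin.sum_univ_three] at this
    rw [Fin.prod_univ_three]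
    simp only [Matrix.cons_val_zero, Matrix.cons_val_one, Matrix.cons_val, one_pow, mul_one]
    rw [Polynomial.algebraMap_apply, ← Polynomial.C_pow, ← mul_assoc, ← Polynomial.C_mul]
    exact (Polynomial.natDegree_C_mul_X_pow_le _ _).trans (by omega)

lemma aeval_hr_mem {R : Type*} [CommRing R] [Algebra K R] (x y : R) {q m : ℕ}
    {H : MvPolynomial (Fin 3) K} (hH : H.IsHomogeneous m) :
    aeval ![y, x, 1] H ∈ wfil K q x y (m * (q + 1) + 1) := by
  rw [aeval_def, eval₂_eq']
  apply Submodule.sum_mem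
  intro s hs
  have := hom_sum_eq hH hs
  rw [Fin.sum_univ_three] at this
  rw [Fin.prod_univ_three, ← Algebra.smul_def]
  apply Submodule.smul_mem
  simp only [Matrix.cons_val_zero, Matrix.cons_val_one, Matrix.cons_val, one_pow, mul_one]
  rw [mul_comm (y ^ _)]
  apply mon_mem_wfil
  nlinarith only [this]

lemma aeval_hr_mem' {R : Type*} [CommRing R] [Algebra K R] (x y : R) {q m : ℕ}
    {H : MvPolynomial (Fin 3) K} (hH : H.IsHomogeneous m)
    (h1 : eval ![1, 0, 0] H = 0) :
    aeval ![y, x, 1] H ∈ wfil K q x y (m * (q + 1)) := by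
  classical
  have hc : coeff (Finsupp.single 0 m) H = 0 := by
    rw [eval_eq', Finset.sum_eq_single (Finsupp.single 0 m)] at h1
    · simpa [Fin.prod_univ_three] using h1
    · intro s hs hne
      have := hom_sum_eq hH hs
      rw [Fin.sum_univ_three] at this
      rw [Fin.prod_univ_three]
      simp only [Matrix.cons_val_zero, Matrix.cons_val_one, Matrix.cons_val, one_pow, one_mul]
      by_cases h2 : s 1 = 0
      · by_cases h3 : s 2 = 0
        · exfalso
          apply hne
          ext i
          fin_cases i <;> simp <;> omega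
        · simp [h3]
      · simp [h2]
    · intro h
      rw [notMem_support_iff.1 h, zero_mul]
  rw [aeval_def, eval₂_eq']
  apply Submodule.sum_mem
  intro s hs
  have := hom_sum_eq hH hs
  rw [Fin.sum_univ_three] at this
  have hne : s 0 < m := by
    by_contra hlt
    have : s = Finsupp.single 0 m := by
      ext i
      fin_cases i <;> simp <;> omega
    rw [this, MvPolynomial.mem_support_iff] at hs
    exact hs hc
  rw [Fin.prod_univ_three, ← Algebra.smul_def]
  apply Submodule.smul_mem
  simp only [Matrix.cons_val_zero, Matrix.cons_val_one, Matrix.cons_val, one_pow, mul_one]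
  rw [mul_comm (y ^ _)]
  apply mon_mem_wfil
  nlinarith only [hne, this]

/-- Bezout bound for the affine points of the Hermitian curve, when the point at infinity is
also a zero. -/
lemma bezout_one [Fintype K] {q m : ℕ} (hq : 2 ≤ q) (hm : m ≤ q) (hc : m + 1 ≤ Fintype.card K)
    {H : MvPolynomial (Fin 3) K} (hH : H.IsHomogeneous m) (h0 : H ≠ 0)
    (h1 : eval ![1, 0, 0] H = 0) (Z : Finset (K × K))
    (hZ : ∀ z ∈ Z, z.1 ^ (q + 1) + z.2 ^ q + z.2 = 0)
    (hZH : ∀ z ∈ Z, eval ![z.2, z.1, 1] H = 0) : Z.card + 1 ≤ m * (q + 1) := by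
  have hmem := aeval_hr_mem' (hx K q) (hy K q) (q := q) hH h1
  have hne := aeval_hr_ne_zero hm hc hH h0
  obtain ⟨ρ, hρ⟩ : ∃ ρ, m * (q + 1) = ρ + 1 := by
    rcases Nat.eq_zero_or_pos (m * (q + 1)) with h | h
    · exfalso
      rw [h] at hmem
      apply hne
      simpa [wfil] using hmem
    · exact ⟨m * (q + 1) - 1, by omega⟩
  rw [hρ] at hmem ⊢
  have := points_bound hq (A := K) Z (fun z => z.1) (fun z => z.2) (by simp) (by simp) hZ
    (fun z _ w => ⟨w, 0, by simp⟩) H (fun z hz => hZH z hz) hmem hne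
  simpa using this

lemma aeval_dual {σ : Type*} [Fintype σ] (a v : σ → K) (H : MvPolynomial σ K) :
    aeval (fun i => (TrivSqZeroExt.inl (a i) + TrivSqZeroExt.inr (v i) : DualNumber K)) H =
      TrivSqZeroExt.inl (eval a H) + TrivSqZeroExt.inr (∑ i, v i * eval a (pderiv i H)) := by
  classical
  induction H using MvPolynomial.induction_on with
  | C c => ext <;> simp [TrivSqZeroExt.algebraMap_eq_inl]
  | add p p' hp hp' =>
    rw [map_add, hp, hp']
    ext <;> simp [mul_add, Finset.sum_add_distrib]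
  | mul_X p j hp =>
    rw [map_mul, hp, aeval_X]
    ext
    · simp
    · have : ∀ i, v i * eval a (pderiv i (p * X j)) =
          v i * eval a (pderiv i p) * a j + (if i = j then eval a p * v j else 0) := by
        intro i
        rw [pderiv_mul, map_add, map_mul, map_mul, eval_X]
        split_ifs with h
        · subst h; simp; ring
        · rw [pderiv_X_of_ne (Ne.symm h)]; simp; ring
      simp only [this, Finset.sum_add_distrib, Finset.sum_ite_eq', Finset.mem_univ, if_true,
        ← Finset.sum_mul]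
      simp
      ring

/-- Bezout bound for the points where the curve `H = 0` is tangent to the Hermitian curve. -/
lemma bezout_two [Fintype K] {q m : ℕ} (hq : 2 ≤ q) (hqK : (q : K) = 0) (hm : m ≤ q)
    (hc : m + 1 ≤ Fintype.card K)
    {H : MvPolynomial (Fin 3) K} (hH : H.IsHomogeneous m) (h0 : H ≠ 0) (Z : Finset (K × K))
    (hZ : ∀ z ∈ Z, z.1 ^ (q + 1) + z.2 ^ q + z.2 = 0)
    (hZH : ∀ z ∈ Z, eval ![z.2, z.1, 1] H = 0)
    (hZD : ∀ z ∈ Z, eval ![z.2, z.1, 1] (pderiv 1 H) - z.1 ^ q * eval ![z.2, z.1, 1] (pderiv 0 H)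
      = 0) : Z.card * 2 ≤ m * (q + 1) := by
  have hmem := aeval_hr_mem (hx K q) (hy K q) (q := q) hH
  have hne := aeval_hr_ne_zero hm hc hH h0
  have hfin : Module.Finite K (DualNumber K) := inferInstanceAs (Module.Finite K (K × K))
  have hrank : finrank K (DualNumber K) = 2 := by
    change finrank K (K × K) = 2
    simp
  have := points_bound hq (A := DualNumber K) Z
    (fun z => TrivSqZeroExt.inl z.1 + TrivSqZeroExt.inr 1)
    (fun z => TrivSqZeroExt.inl z.2 + TrivSqZeroExt.inr (-z.1 ^ q))
    (by intro z _; ext <;> simp [TrivSqZeroExt.algebraMap_eq_inl, pow_two])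
    (by intro z _; ext <;> simp [TrivSqZeroExt.algebraMap_eq_inl, pow_two])
    (by
      intro z hz
      ext
      · simpa using hZ z hz
      · simp [TrivSqZeroExt.snd_pow, hqK])
    (fun z _ w => ⟨w.fst - w.snd * z.1, w.snd, by
      ext <;> simp [TrivSqZeroExt.algebraMap_eq_inl]⟩) H
    (by
      intro z hz
      have e : ![(TrivSqZeroExt.inl z.2 + TrivSqZeroExt.inr (-z.1 ^ q) : DualNumber K),
          TrivSqZeroExt.inl z.1 + TrivSqZeroExt.inr 1, 1] =
          fun i => (TrivSqZeroExt.inl (![z.2, z.1, 1] i) +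
            TrivSqZeroExt.inr (![-z.1 ^ q, 1, 0] i) : DualNumber K) := by
        ext1 i
        fin_cases i <;> simp
      rw [e, aeval_dual, hZH z hz, Fin.sum_univ_three]
      have := hZD z hz
      ext
      · simp
      · simp only [Matrix.cons_val_zero, Matrix.cons_val_one, Matrix.cons_val,
          TrivSqZeroExt.snd_add, TrivSqZeroExt.snd_inl, TrivSqZeroExt.snd_inr,
          TrivSqZeroExt.snd_zero]
        linear_combination this) hmem hne
  rwa [hrank] at this

end Hom

end Pool.Agent.Work.MP_10b6e9_ag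
end

-- merged part: Pool.Agent.Work.MP_10b6e9_ag.Local
section
set_option autoImplicit false

namespace Pool.Agent.Work.MP_10b6e9_ag

open MvPolynomial

section Local

variable {K : Type*} [Field K]

lemma coeff_finSuccEquiv_pderiv {n : ℕ} (G : MvPolynomial (Fin (n + 1)) K) (i : Fin n) (k : ℕ) :
    (finSuccEquiv K n (pderiv i.succ G)).coeff k = pderiv i ((finSuccEquiv K n G).coeff k) := by
  classical
  ext m
  rw [finSuccEquiv_coeff_coeff, coeff_pderiv, coeff_pderiv, finSuccEquiv_coeff_coeff]
  have : Finsupp.cons k m + Finsupp.single i.succ 1 = Finsupp.cons k (m + Finsupp.single i 1) := by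
    ext j
    refine Fin.cases ?_ (fun j => ?_) j
    · simp [Finsupp.single_apply]
    · simp [Finsupp.single_apply]
  rw [this]
  simp

open Classical in
/-- The affine points of the Hermitian curve. -/
noncomputable def hpts (K : Type*) [Field K] [Fintype K] (q : ℕ) : Finset (K × K) :=
  Finset.univ.filter fun z => z.1 ^ (q + 1) + z.2 ^ q + z.2 = 0

lemma mem_hpts [Fintype K] {q : ℕ} {z : K × K} :
    z ∈ hpts K q ↔ z.1 ^ (q + 1) + z.2 ^ q + z.2 = 0 := by
  simp [hpts]

lemma card_filter_eval_le [Fintype K] [DecidableEq K] (p : Polynomial K) (hp : p ≠ 0) :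
    (Finset.univ.filter fun t => p.eval t = 0).card ≤ p.natDegree := by
  refine le_trans ?_ ((Multiset.toFinset_card_le _).trans p.card_roots')
  apply Finset.card_le_card
  intro t ht
  simp only [Finset.mem_filter, Finset.mem_univ, true_and] at ht
  simp [hp, ht]

lemma card_hpts [Fintype K] {q : ℕ} (hq : 2 ≤ q) (hcard : Fintype.card K = q ^ 2) :
    (hpts K q).card ≤ q ^ 3 := by
  classical
  have h := Finset.card_le_mul_card_image_of_maps_to (f := fun z : K × K => z.1)
    (s := hpts K q) (t := Finset.univ) (fun _ _ => Finset.mem_univ _) q (by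
      intro a _
      let p : Polynomial K := Polynomial.X ^ q + (Polynomial.X + Polynomial.C (a ^ (q + 1)))
      have hdeg : (Polynomial.X + Polynomial.C (a ^ (q + 1)) : Polynomial K).natDegree <
          (Polynomial.X ^ q : Polynomial K).natDegree := by
        rw [Polynomial.natDegree_X_add_C, Polynomial.natDegree_X_pow]; omega
      have hpd : p.natDegree = q := by
        simp only [p]
        rw [Polynomial.natDegree_add_eq_left_of_natDegree_lt hdeg, Polynomial.natDegree_X_pow]
      have hp : p ≠ 0 := by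
        intro h; rw [h, Polynomial.natDegree_zero] at hpd; omega
      refine le_trans ?_ ((card_filter_eval_le p hp).trans hpd.le)
      apply Finset.card_le_card_of_injOn (fun z => z.2)
      · intro z hz
        simp only [Finset.coe_filter, Set.mem_ofPred_eq, mem_hpts] at hz
        simp only [Finset.coe_filter, Finset.mem_univ, true_and, Set.mem_ofPred_eq, p,
          Polynomial.eval_add, Polynomial.eval_pow, Polynomial.eval_X, Polynomial.eval_C]
        rw [← hz.2]
        linear_combination hz.1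
      · intro z hz z' hz' h
        simp only [Finset.coe_filter, Set.mem_ofPred_eq] at hz hz'
        exact Prod.ext (hz.2.trans hz'.2.symm) h)
  rw [Finset.card_univ, hcard] at h
  calc _ ≤ q * q ^ 2 := h
    _ = q ^ 3 := by ring

open Classical in
lemma local_G [Fintype K] {q d : ℕ} (hq : 2 ≤ q) (hqK : (q : K) = 0)
    (hcard : Fintype.card K = q ^ 2) (hd : d ≤ q) {G : MvPolynomial (Fin 4) K}
    (hG : G.IsHomogeneous d) (h0 : G ≠ 0) (hl : ∀ t y : K, eval ![t, y, 0, 0] G = 0) :
    ∃ δ k : ℕ, δ + k + 1 = d ∧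
      (∃ Q : Polynomial K, Q.natDegree ≤ δ ∧ ∀ t, Q.eval t = eval ![t, 1, 0, 0] (pderiv 2 G)) ∧
      (∑ z ∈ hpts K q, (Finset.univ.filter fun t : K => eval ![t, z.2, z.1, 1] G = 0).card)
        + (δ + k) * q ≤ d * q ^ 3 + k * (q + 1) * q ∧
      ((∀ z ∈ hpts K q, (∀ t, eval ![t, z.2, z.1, 1] G = 0) → ∀ t,
          eval ![t, z.2, z.1, 1] (pderiv 2 G) - z.1 ^ q * eval ![t, z.2, z.1, 1] (pderiv 1 G) = 0) →
        (∑ z ∈ hpts K q, (Finset.univ.filter fun t : K => eval ![t, z.2, z.1, 1] G = 0).card)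
          + (δ + k) * q ≤ d * q ^ 3) := by
  set P := finSuccEquiv K 3 G with hP
  have hP0 : P ≠ 0 := by simpa [hP] using h0
  set δ := P.natDegree with hδ
  set H := P.coeff δ with hH
  have hH0 : H ≠ 0 := Polynomial.leadingCoeff_ne_zero.2 hP0
  have hqq : q + 1 < q ^ 2 := by nlinarith only [hq]
  have hδd : δ ≤ d := by
    rw [hδ, hP, natDegree_finSuccEquiv]
    exact (degreeOf_le_totalDegree _ _).trans hG.totalDegree_le
  obtain ⟨m, hm⟩ : ∃ m, δ + m = d := ⟨d - δ, by omega⟩
  have hHm : H.IsHomogeneous m := hG.finSuccEquiv_coeff_isHomogeneous δ m hm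
  have hev : ∀ (G' : MvPolynomial (Fin 4) K) (t : K) (s : Fin 3 → K),
      eval (Matrix.vecCons t s) G' =
        Polynomial.eval t (Polynomial.map (eval s) (finSuccEquiv K 3 G')) :=
    fun G' t s => eval_eq_eval_mv_eval' s t G'
  have hdegP : ∀ s : Fin 3 → K, (Polynomial.map (eval s) P).natDegree ≤ δ :=
    fun s => Polynomial.natDegree_map_le
  have hdegD : ∀ (s : Fin 3 → K) (i : Fin 3),
      (Polynomial.map (eval s) (finSuccEquiv K 3 (pderiv i.succ G))).natDegree ≤ δ := by
    intro s i
    apply Polynomial.natDegree_map_le.trans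
    rw [Polynomial.natDegree_le_iff_coeff_eq_zero]
    intro N hN
    rw [coeff_finSuccEquiv_pderiv, ← hP, Polynomial.coeff_eq_zero_of_natDegree_lt hN, map_zero]
  have hzero : ∀ p : Polynomial K, p.natDegree ≤ δ → (∀ t, p.eval t = 0) → p = 0 := by
    intro p hp h
    exact Polynomial.eq_zero_of_natDegree_lt_card_of_eval_eq_zero p Function.injective_id h
      (by omega)
  have hH1 : eval ![1, 0, 0] H = 0 := by
    have := hzero _ (hdegP ![1, 0, 0]) (fun t => by rw [← hev]; exact hl t 1)
    have := congrArg (Polynomial.coeff · δ) this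
    simpa [Polynomial.coeff_map] using this
  have hm1 : 1 ≤ m := by
    by_contra hm0
    have hm0 : m = 0 := by omega
    rw [hm0] at hHm
    apply hH0
    apply hom_eq_zero hHm _ (Nat.zero_le _)
    intro r
    obtain ⟨c, hc⟩ : ∃ c, H = C c := ⟨_, totalDegree_eq_zero_iff_eq_C.1
      (Nat.le_zero.1 hHm.totalDegree_le)⟩
    rw [hc] at hH1 ⊢
    simpa using hH1
  obtain ⟨k, rfl⟩ : ∃ k, m = k + 1 := ⟨m - 1, by omega⟩
  -- the points whose generator lies in the hypersurface
  set Z := (hpts K q).filter (fun z => ∀ t, eval ![t, z.2, z.1, 1] G = 0) with hZ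
  have hZH : ∀ z ∈ Z, eval ![z.2, z.1, 1] H = 0 := by
    intro z hz
    have hz2 := (Finset.mem_filter.1 hz).2
    have := hzero _ (hdegP ![z.2, z.1, 1]) (fun t => by rw [← hev]; exact hz2 t)
    have := congrArg (Polynomial.coeff · δ) this
    simpa [Polynomial.coeff_map] using this
  have hZ1 : ∀ z ∈ Z, z.1 ^ (q + 1) + z.2 ^ q + z.2 = 0 :=
    fun z hz => mem_hpts.1 (Finset.mem_filter.1 hz).1
  have hN : (∑ z ∈ hpts K q, (Finset.univ.filter fun t : K => eval ![t, z.2, z.1, 1] G = 0).card)
      + Z.card * δ ≤ q ^ 3 * δ + Z.card * q ^ 2 := by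
    have h1 : (∑ z ∈ hpts K q, (Finset.univ.filter fun t : K => eval ![t, z.2, z.1, 1] G = 0).card)
        + Z.card * δ = ∑ z ∈ hpts K q,
          ((Finset.univ.filter fun t : K => eval ![t, z.2, z.1, 1] G = 0).card +
            if (∀ t, eval ![t, z.2, z.1, 1] G = 0) then δ else 0) := by
      rw [Finset.sum_add_distrib, ← Finset.sum_filter, Finset.sum_const, smul_eq_mul]
    have h2 : (hpts K q).card * δ + Z.card * q ^ 2 = ∑ z ∈ hpts K q,
          (δ + if (∀ t, eval ![t, z.2, z.1, 1] G = 0) then q ^ 2 else 0) := by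
      rw [Finset.sum_add_distrib, ← Finset.sum_filter, Finset.sum_const, Finset.sum_const,
        smul_eq_mul, smul_eq_mul]
    have h3 := Nat.mul_le_mul_right δ (card_hpts hq hcard)
    rw [h1]
    refine le_trans ?_ (Nat.add_le_add_right h3 _)
    rw [h2]
    apply Finset.sum_le_sum
    intro z _
    split_ifs with h
    · have := Finset.card_filter_le Finset.univ (fun t : K => eval ![t, z.2, z.1, 1] G = 0)
      rw [Finset.card_univ, hcard] at this
      omega
    · have hne : Polynomial.map (eval ![z.2, z.1, 1]) P ≠ 0 := by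
        intro h'
        apply h
        intro t
        rw [hev, ← hP, h', Polynomial.eval_zero]
      have := (card_filter_eval_le _ hne).trans (hdegP _)
      simp only [hev, ← hP, add_zero]
      convert this
  refine ⟨δ, k, by omega, ⟨_, hdegD ![1, 0, 0] 1, fun t => (hev _ t _).symm⟩, ?_, ?_⟩
  · have hb := bezout_one hq (by omega) (by omega) hHm hH0 hH1 Z hZ1 hZH
    generalize (∑ z ∈ hpts K q,
      (Finset.univ.filter fun t : K => eval ![t, z.2, z.1, 1] G = 0).card) = N at hN ⊢
    generalize Z.card = n at hN hb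
    subst hm
    obtain ⟨e, he⟩ : ∃ e, q ^ 2 = δ + e := ⟨q ^ 2 - δ, by omega⟩
    have h1 : N ≤ q ^ 3 * δ + n * e := by rw [he] at hN; linarith only [hN]
    have h2 : n * e ≤ (k * q + k + q) * e := Nat.mul_le_mul_right e (by linarith only [hb])
    have h3 : (k * q + k + q) * e + (k * q + k + q) * δ = (k * q + k + q) * q ^ 2 := by
      rw [he]; ring
    linarith only [h1, h2, h3, Nat.zero_le (δ * k * q), Nat.zero_le (δ * k)]
  · intro htan
    have hb := bezout_two hq hqK (by omega) (by omega) hHm hH0 Z hZ1 hZH (by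
      intro z hz
      have hz1 := (Finset.mem_filter.1 hz).1
      have hz2 := (Finset.mem_filter.1 hz).2
      have := hzero (Polynomial.map (eval ![z.2, z.1, 1]) (finSuccEquiv K 3 (pderiv 2 G)) -
        Polynomial.C (z.1 ^ q) *
          Polynomial.map (eval ![z.2, z.1, 1]) (finSuccEquiv K 3 (pderiv 1 G)))
        ((Polynomial.natDegree_sub_le _ _).trans (max_le (hdegD _ 1)
          ((Polynomial.natDegree_C_mul_le _ _).trans (hdegD _ 0))))
        (fun t => by
          rw [Polynomial.eval_sub, Polynomial.eval_mul, Polynomial.eval_C, ← hev, ← hev]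
          exact htan z hz1 hz2 t)
      have := congrArg (Polynomial.coeff · δ) this
      simp only [Polynomial.coeff_sub, Polynomial.coeff_C_mul, Polynomial.coeff_map,
        Polynomial.coeff_zero] at this
      rw [← coeff_finSuccEquiv_pderiv G 1 δ, ← coeff_finSuccEquiv_pderiv G 0 δ]
      exact this)
    generalize (∑ z ∈ hpts K q,
      (Finset.univ.filter fun t : K => eval ![t, z.2, z.1, 1] G = 0).card) = N at hN ⊢
    generalize Z.card = n at hN hb
    subst hm
    have h1 : N ≤ q ^ 3 * δ + n * q ^ 2 := by linarith only [hN, Nat.zero_le (n * δ)]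
    have h2 : n * 2 * q ^ 2 ≤ (k + 1) * (q + 1) * q ^ 2 := Nat.mul_le_mul_right _ hb
    obtain ⟨r, rfl⟩ : ∃ r, q = r + 2 := ⟨q - 2, by omega⟩
    have h3 : (δ + k) * (r + 2) ≤ (r + 1) * (r + 2) := Nat.mul_le_mul_right _ (by omega)
    linarith only [h1, h2, h3, Nat.zero_le (k * r), Nat.zero_le (k * r ^ 2), Nat.zero_le (k * r ^ 3),
      Nat.zero_le (r ^ 2), Nat.zero_le (r ^ 3), sq_nonneg ↑r]

end Local

end Pool.Agent.Work.MP_10b6e9_ag
end

-- merged part: Pool.Agent.Work.MP_10b6e9_ag.Restr
section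
set_option autoImplicit false

namespace Pool.Agent.Work.MP_10b6e9_ag

open MvPolynomial

section Restr

variable {K : Type*} [Field K]

/-- Directional derivative of `F` at `p` in the direction `u`. -/
noncomputable def dirD (F : MvPolynomial (Fin 5) K) (u p : Fin 5 → K) : K :=
  ∑ i, u i * eval p (pderiv i F)

lemma dirD_smul {F : MvPolynomial (Fin 5) K} {d : ℕ} (hF : F.IsHomogeneous d) (u p : Fin 5 → K)
    (c : K) : dirD F u (c • p) = c ^ (d - 1) * dirD F u p := by
  simp only [dirD, Finset.mul_sum]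
  refine Finset.sum_congr rfl fun i _ => ?_
  rw [hom_eval_smul hF.pderiv]; ring

lemma dirD_sub_smul (F : MvPolynomial (Fin 5) K) (u u' p : Fin 5 → K) (c : K) :
    dirD F (u - c • u') p = dirD F u p - c * dirD F u' p := by
  simp only [dirD, Finset.mul_sum, ← Finset.sum_sub_distrib]
  refine Finset.sum_congr rfl fun i _ => ?_
  simp only [Pi.sub_apply, Pi.smul_apply, smul_eq_mul]; ring

/-- Restriction of `F` to the span of four vectors. -/
noncomputable def restr (F : MvPolynomial (Fin 5) K) (e : Fin 4 → Fin 5 → K) :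
    MvPolynomial (Fin 4) K :=
  aeval (fun i => ∑ j, C (e j i) * X j) F

lemma restr_hom {F : MvPolynomial (Fin 5) K} {d : ℕ} (hF : F.IsHomogeneous d)
    (e : Fin 4 → Fin 5 → K) : (restr F e).IsHomogeneous d := by
  have := hF.aeval (fun i => ∑ j, C (e j i) * X j : Fin 5 → MvPolynomial (Fin 4) K) (n := 1)
    (fun i => IsHomogeneous.sum _ _ _ fun j _ => isHomogeneous_C_mul_X _ _)
  rwa [one_mul] at this

lemma eval_restr (F : MvPolynomial (Fin 5) K) (e : Fin 4 → Fin 5 → K) (v : Fin 4 → K) :
    eval v (restr F e) = eval (∑ j, v j • e j) F := by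
  induction F using MvPolynomial.induction_on with
  | C c => simp [restr]
  | add p p' hp hp' => simp only [restr, map_add] at hp hp' ⊢; rw [hp, hp']
  | mul_X p i hp =>
    simp only [restr, map_mul, aeval_X, eval_X] at hp ⊢
    rw [hp]
    simp [Finset.sum_apply, mul_comm]

lemma eval_pderiv_restr (F : MvPolynomial (Fin 5) K) (e : Fin 4 → Fin 5 → K) (v : Fin 4 → K)
    (j : Fin 4) : eval v (pderiv j (restr F e)) = dirD F (e j) (∑ j, v j • e j) := by
  classical
  induction F using MvPolynomial.induction_on with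
  | C c => simp [restr, dirD]
  | add p p' hp hp' =>
    simp only [restr, dirD, map_add, mul_add, Finset.sum_add_distrib] at hp hp' ⊢; rw [hp, hp']
  | mul_X p i hp =>
    have h1 : restr (p * X i) e = restr p e * ∑ j, C (e j i) * X j := by simp [restr]
    have h2 : pderiv j (∑ j, C (e j i) * X j : MvPolynomial (Fin 4) K) = C (e j i) := by
      rw [map_sum, Finset.sum_eq_single j]
      · simp
      · intro b _ hb
        rw [pderiv_C_mul, pderiv_X_of_ne hb, mul_zero]
      · simp
    have h3 : eval v (∑ j, C (e j i) * X j : MvPolynomial (Fin 4) K) = (∑ j, v j • e j) i := by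
      simp [Finset.sum_apply, mul_comm]
    rw [h1, pderiv_mul, h2, map_add, map_mul, map_mul, hp, h3, eval_restr, eval_C]
    generalize (∑ j, v j • e j) = w
    have : ∀ k, e j k * eval w (pderiv k (p * X i)) =
        e j k * eval w (pderiv k p) * w i + (if k = i then eval w p * e j i else 0) := by
      intro k
      rw [pderiv_mul, map_add, map_mul, map_mul, eval_X]
      split_ifs with h
      · subst h; simp; ring
      · rw [pderiv_X_of_ne (Ne.symm h)]; simp; ring
    simp only [dirD, this, Finset.sum_add_distrib, Finset.sum_ite_eq', Finset.mem_univ, if_true,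
      ← Finset.sum_mul]

lemma line_poly {F : MvPolynomial (Fin 5) K} {d : ℕ} (hF : F.IsHomogeneous d)
    (p0 p1 : Fin 5 → K) :
    ∃ α : Polynomial K, α.natDegree ≤ d ∧ ∀ t, α.eval t = eval (p0 + t • p1) F := by
  refine ⟨aeval (fun i => Polynomial.C (p1 i) * Polynomial.X + Polynomial.C (p0 i)) F, ?_, ?_⟩
  · have := MvPolynomial.aeval_natDegree_le (n := 1) F hF.totalDegree_le
      (fun i => Polynomial.C (p1 i) * Polynomial.X + Polynomial.C (p0 i))
      (fun i => Polynomial.natDegree_linear_le)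
    rwa [mul_one] at this
  · intro t
    rw [← Polynomial.coe_aeval_eq_eval, ← AlgHom.comp_apply, MvPolynomial.comp_aeval,
      ← coe_aeval_eq_eval]
    simp only [RingHom.coe_coe]
    congr 2
    ext i
    simp; ring

lemma eq_reflect [Fintype K] {α β : Polynomial K} {n : ℕ} (hα : α.natDegree ≤ n)
    (hβ : β.natDegree ≤ n) (hn : n + 1 < Fintype.card K)
    (h : ∀ t : K, t ≠ 0 → α.eval t = t ^ n * β.eval t⁻¹) : α = β.reflect n := by
  classical
  apply Polynomial.eq_of_natDegree_lt_card_of_eval_eq' _ _ (Finset.univ.erase 0)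
  · intro t ht
    have ht0 : t ≠ 0 := Finset.ne_of_mem_erase ht
    rw [h t ht0]
    let _ : Invertible t⁻¹ := invertibleOfNonzero (inv_ne_zero ht0)
    have := Polynomial.eval₂_reflect_mul_pow (RingHom.id K) t⁻¹ n β hβ
    rw [invOf_eq_inv, inv_inv, Polynomial.eval₂_id, Polynomial.eval₂_id] at this
    rw [← this, inv_pow, mul_left_comm, mul_inv_cancel₀ (pow_ne_zero n ht0), mul_one]
  · rw [Finset.card_erase_of_mem (Finset.mem_univ _), Finset.card_univ]
    have := (Polynomial.natDegree_reflect_le (N := n) (p := β)).trans (max_le le_rfl hβ)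
    omega

end Restr

end Pool.Agent.Work.MP_10b6e9_ag
end

-- merged part: Pool.Agent.Work.MP_10b6e9_ag.Geometry
section
set_option autoImplicit false

namespace Pool.Agent.Work.MP_10b6e9_ag

section Geometry

variable {K : Type*} [Field K]

/-- The standard Hermitian form attached to a ring endomorphism `σ`. -/
def herm (σ : K →+* K) (x y : Fin 5 → K) : K := ∑ i, x i * σ (y i)

variable {σ : K →+* K}

lemma herm_add_left (x x' y : Fin 5 → K) : herm σ (x + x') y = herm σ x y + herm σ x' y := by
  simp [herm, add_mul, Finset.sum_add_distrib]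

lemma herm_sub_left (x x' y : Fin 5 → K) : herm σ (x - x') y = herm σ x y - herm σ x' y := by
  simp [herm, sub_mul, Finset.sum_sub_distrib]

lemma herm_smul_left (c : K) (x y : Fin 5 → K) : herm σ (c • x) y = c * herm σ x y := by
  simp [herm, Finset.mul_sum, mul_assoc]

lemma herm_add_right (x y y' : Fin 5 → K) : herm σ x (y + y') = herm σ x y + herm σ x y' := by
  simp [herm, mul_add, Finset.sum_add_distrib]

lemma herm_sub_right (x y y' : Fin 5 → K) : herm σ x (y - y') = herm σ x y - herm σ x y' := by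
  simp [herm, mul_sub, Finset.sum_sub_distrib]

lemma herm_smul_right (c : K) (x y : Fin 5 → K) : herm σ x (c • y) = σ c * herm σ x y := by
  simp only [herm, Finset.mul_sum, Pi.smul_apply, smul_eq_mul, map_mul]
  exact Finset.sum_congr rfl fun i _ => by ring

lemma herm_zero_left (y : Fin 5 → K) : herm σ 0 y = 0 := by simp [herm]

lemma herm_conj (hσ : ∀ x, σ (σ x) = x) (x y : Fin 5 → K) : herm σ y x = σ (herm σ x y) := by
  simp only [herm, map_sum, map_mul, hσ]
  exact Finset.sum_congr rfl fun i _ => by ring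

lemma herm_single (j : Fin 5) (c : K) (y : Fin 5 → K) :
    herm σ (Pi.single j c) y = c * σ (y j) := by
  rw [herm, Finset.sum_eq_single j] <;> simp +contextual

/-- A totally isotropic line spanned by `p0, p1`, with a unit vector `u` orthogonal to it. -/
structure Flag (σ : K →+* K) (p0 p1 u : Fin 5 → K) : Prop where
  h00 : herm σ p0 p0 = 0
  h01 : herm σ p0 p1 = 0
  h10 : herm σ p1 p0 = 0
  h11 : herm σ p1 p1 = 0
  hu0 : herm σ u p0 = 0
  hu1 : herm σ u p1 = 0
  h0u : herm σ p0 u = 0
  h1u : herm σ p1 u = 0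
  huu : herm σ u u = 1
  ind : ∀ s t : K, s • p0 + t • p1 = 0 → s = 0 ∧ t = 0

/-- A flag completed to a basis of the tangent hyperplane at `e0`. -/
structure Frame (σ : K →+* K) (e0 e1 e2 e3 : Fin 5 → K) : Prop where
  flag : Flag σ e0 e1 e2
  h30 : herm σ e3 e0 = 0
  h31 : herm σ e3 e1 = 1
  h32 : herm σ e3 e2 = 0
  h03 : herm σ e0 e3 = 0
  h13 : herm σ e1 e3 = 1
  h23 : herm σ e2 e3 = 0
  h33 : herm σ e3 e3 = 0
  span : ∀ v, herm σ v e0 = 0 → ∃ t y x z : K, v = t • e0 + y • e1 + x • e2 + z • e3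

lemma Flag.swap {p0 p1 u : Fin 5 → K} (h : Flag σ p0 p1 u) : Flag σ p1 p0 u :=
  ⟨h.h11, h.h10, h.h01, h.h00, h.hu1, h.hu0, h.h1u, h.h0u, h.huu, fun s t hst =>
    (h.ind t s (by rw [add_comm]; exact hst)).symm⟩

lemma Flag.shift {p0 p1 u : Fin 5 → K} (h : Flag σ p0 p1 u) (a : K) :
    Flag σ (p0 + a • p1) p1 u := by
  obtain ⟨h00, h01, h10, h11, hu0, hu1, h0u, h1u, huu, ind⟩ := h
  refine ⟨?_, ?_, ?_, h11, ?_, hu1, ?_, h1u, huu, ?_⟩
  all_goals try simp [herm_add_left, herm_add_right, herm_smul_left, herm_smul_right,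
    h00, h01, h10, h11, hu0, hu1, h0u, h1u, huu]
  intro s t hst
  have := ind s (s * a + t) (by rw [← hst, smul_smul]; module)
  refine ⟨this.1, ?_⟩
  have h2 := this.2
  rwa [this.1, zero_mul, zero_add] at h2

lemma Flag.ne_zero {p0 p1 u : Fin 5 → K} (h : Flag σ p0 p1 u) : p0 ≠ 0 := by
  intro h0
  have := (h.ind 1 0 (by simp [h0])).1
  exact one_ne_zero this

lemma exists_dual {p0 p1 : Fin 5 → K} (ind : ∀ s t : K, s • p0 + t • p1 = 0 → s = 0 ∧ t = 0) :
    ∃ w, herm σ w p0 = 0 ∧ herm σ w p1 = 1 := by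
  obtain ⟨i, j, hij⟩ : ∃ i j, p0 i * p1 j - p0 j * p1 i ≠ 0 := by
    by_contra hcon
    push Not at hcon
    have h0 : p0 ≠ 0 := by
      intro h0
      exact one_ne_zero (ind 1 0 (by simp [h0])).1
    obtain ⟨i, hi⟩ := Function.ne_iff.1 h0
    have := (ind (p1 i) (-p0 i) (by
      ext j
      simp only [Pi.add_apply, Pi.smul_apply, smul_eq_mul, Pi.zero_apply]
      linear_combination (-1 : K) * hcon i j)).2
    exact hi (neg_eq_zero.1 this)
  have hne : σ (p0 i * p1 j - p0 j * p1 i) ≠ 0 := (map_ne_zero σ).2 hij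
  refine ⟨(σ (p0 i * p1 j - p0 j * p1 i))⁻¹ • (Pi.single j (σ (p0 i)) - Pi.single i (σ (p0 j))),
    ?_, ?_⟩
  · rw [herm_smul_left, herm_sub_left, herm_single, herm_single]; ring
  · rw [herm_smul_left, herm_sub_left, herm_single, herm_single, ← map_mul, ← map_mul, ← map_sub]
    exact inv_mul_cancel₀ hne

lemma Flag.exists_frame (hσ : ∀ x, σ (σ x) = x) (hθ : ∃ θ : K, θ + σ θ = 1)
    {p0 p1 u : Fin 5 → K} (h : Flag σ p0 p1 u) : ∃ w, Frame σ p0 p1 u w := by
  obtain ⟨θ, hθ⟩ := hθ
  obtain ⟨w1, h10, h11⟩ := exists_dual (σ := σ) h.ind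
  obtain ⟨w0, h01, h00⟩ := exists_dual (σ := σ) h.swap.ind
  set w2 := w1 - herm σ w1 u • u with hw2
  have a0 : herm σ w2 p0 = 0 := by simp [hw2, herm_sub_left, herm_smul_left, h10, h.hu0]
  have a1 : herm σ w2 p1 = 1 := by simp [hw2, herm_sub_left, herm_smul_left, h11, h.hu1]
  have a2 : herm σ w2 u = 0 := by simp [hw2, herm_sub_left, herm_smul_left, h.huu]
  have a1' : herm σ p1 w2 = 1 := by rw [herm_conj hσ, a1, map_one]
  have hc : σ (herm σ w2 w2) = herm σ w2 w2 := (herm_conj hσ w2 w2).symm
  clear_value w2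
  set w := w2 - (θ * herm σ w2 w2) • p1 with hw
  have b0 : herm σ w p0 = 0 := by simp [hw, herm_sub_left, herm_smul_left, a0, h.h10]
  have b1 : herm σ w p1 = 1 := by simp [hw, herm_sub_left, herm_smul_left, a1, h.h11]
  have b2 : herm σ w u = 0 := by simp [hw, herm_sub_left, herm_smul_left, a2, h.h1u]
  have b3 : herm σ w w = 0 := by
    rw [hw, herm_sub_left, herm_smul_left, herm_sub_right, herm_sub_right, herm_smul_right,
      herm_smul_right, a1, a1', h.h11, map_mul, hc]
    linear_combination (-herm σ w2 w2) * hθ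
  refine ⟨w, h, b0, b1, b2, by rw [herm_conj hσ, b0, map_zero], by rw [herm_conj hσ, b1, map_one],
    by rw [herm_conj hσ, b2, map_zero], b3, ?_⟩
  have hli : LinearIndependent K ![p0, p1, u, w, w0] := by
    rw [Fintype.linearIndependent_iff]
    intro c hc
    rw [Fin.sum_univ_five] at hc
    simp only [Matrix.cons_val_zero, Matrix.cons_val_one, Matrix.cons_val] at hc
    have c4 : c 4 = 0 := by
      have := congrArg (herm σ · p0) hc
      simpa [herm_add_left, herm_smul_left, herm_zero_left, h.h00, h.h10, h.hu0, b0, h00]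
        using this
    have c3 : c 3 = 0 := by
      have := congrArg (herm σ · p1) hc
      simpa [herm_add_left, herm_smul_left, herm_zero_left, h.h01, h.h11, h.hu1, b1, h01]
        using this
    have c2 : c 2 = 0 := by
      have := congrArg (herm σ · u) hc
      simpa [herm_add_left, herm_smul_left, herm_zero_left, h.h0u, h.h1u, h.huu, c3, c4]
        using this
    have c01 := h.ind (c 0) (c 1) (by simpa [c2, c3, c4] using hc)
    intro i
    fin_cases i
    exacts [c01.1, c01.2, c2, c3, c4]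
  have hspan := hli.span_eq_top_of_card_eq_finrank (by simp)
  intro v hv
  have hmem : v ∈ Submodule.span K (Set.range ![p0, p1, u, w, w0]) := by rw [hspan]; trivial
  obtain ⟨c, hc⟩ := (Submodule.mem_span_range_iff_exists_fun K).1 hmem
  rw [Fin.sum_univ_five] at hc
  simp only [Matrix.cons_val_zero, Matrix.cons_val_one, Matrix.cons_val] at hc
  have c4 : c 4 = 0 := by
    have := congrArg (herm σ · p0) hc
    simpa [herm_add_left, herm_smul_left, h.h00, h.h10, h.hu0, b0, h00, hv] using this
  exact ⟨c 0, c 1, c 2, c 3, by rw [← hc, c4, zero_smul, add_zero]⟩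

/-- The generators through `e0` other than the line `e0 e1`. -/
lemma Frame.flag_of_point (hσ : ∀ x, σ (σ x) = x) {e0 e1 e2 e3 : Fin 5 → K}
    (h : Frame σ e0 e1 e2 e3) {a b : K} (hab : a * σ a + σ b + b = 0) :
    Flag σ (b • e1 + a • e2 + e3) e0 (e2 - σ a • e1) := by
  obtain ⟨⟨h00, h01, h10, h11, hu0, hu1, h0u, h1u, huu, ind⟩, h30, h31, h32, h03, h13, h23, h33,
    -⟩ := h
  refine ⟨?_, ?_, ?_, h00, ?_, ?_, ?_, ?_, ?_, ?_⟩
  all_goals try simp only [herm_add_left, herm_add_right, herm_sub_left, herm_sub_right,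
    herm_smul_left, herm_smul_right, h00, h01, h10, h11, hu0, hu1, h0u, h1u, huu,
    h30, h31, h32, h03, h13, h23, h33, hσ]
  · linear_combination hab
  all_goals try ring1
  · intro s t hst
    have hs : s = 0 := by
      have := congrArg (herm σ · e1) hst
      simpa [herm_add_left, herm_smul_left, herm_zero_left, h01, h11, hu1, h31] using this
    refine ⟨hs, ?_⟩
    exact (ind t 0 (by simpa [hs] using hst)).1

/-- Isotropic vectors of the tangent hyperplane: on the line, or on another generator. -/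
lemma Frame.isotropic {e0 e1 e2 e3 : Fin 5 → K}
    (h : Frame σ e0 e1 e2 e3) {v : Fin 5 → K} (hv0 : herm σ v e0 = 0) (hv : herm σ v v = 0) :
    (∃ t y : K, v = t • e0 + y • e1) ∨
      ∃ z t a b : K, z ≠ 0 ∧ a * σ a + σ b + b = 0 ∧ v = z • (t • e0 + b • e1 + a • e2 + e3) := by
  obtain ⟨t, y, x, z, rfl⟩ := h.span v hv0
  obtain ⟨⟨h00, h01, h10, h11, hu0, hu1, h0u, h1u, huu, ind⟩, h30, h31, h32, h03, h13, h23, h33,
    -⟩ := h
  have key : x * σ x + z * σ y + y * σ z = 0 := by
    simp only [herm_add_left, herm_add_right, herm_smul_left, herm_smul_right, h00, h01, h10, h11,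
      hu0, hu1, h0u, h1u, huu, h30, h31, h32, h03, h13, h23, h33] at hv
    linear_combination hv
  by_cases hz : z = 0
  · left
    have hx : x = 0 := by
      rw [hz, map_zero, zero_mul, mul_zero, add_zero, add_zero] at key
      rcases mul_eq_zero.1 key with h | h
      · exact h
      · exact (map_eq_zero σ).1 h
    exact ⟨t, y, by simp [hz, hx]⟩
  · right
    have hz' : σ z ≠ 0 := (map_ne_zero σ).2 hz
    refine ⟨z, t / z, x / z, y / z, hz, ?_, ?_⟩
    · rw [map_div₀, map_div₀]
      field_simp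
      linear_combination key
    · simp only [smul_add, smul_smul, mul_div_cancel₀ _ hz]

end Geometry

end Pool.Agent.Work.MP_10b6e9_ag
end

-- merged part: Pool.Agent.Work.MP_10b6e9_ag.Cover
section
set_option autoImplicit false

namespace Pool.Agent.Work.MP_10b6e9_ag

section Cover

variable {K : Type*} [Field K] {σ : K →+* K}

/-- The points of the projective line spanned by `p0, p1`. -/
def pt (p0 p1 : Fin 5 → K) : Option K → Fin 5 → K
  | none => p1
  | some a => p0 + a • p1

/-- A second point of the line. -/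
def cp (p0 p1 : Fin 5 → K) : Option K → Fin 5 → K
  | none => p0
  | some _ => p1

lemma Flag.pt {p0 p1 u : Fin 5 → K} (h : Flag σ p0 p1 u) (o : Option K) :
    Flag σ (pt p0 p1 o) (cp p0 p1 o) u := by
  cases o with
  | none => exact h.swap
  | some a => exact h.shift a

lemma line_pt (p0 p1 : Fin 5 → K) (o : Option K) (t y : K) :
    ∃ s r : K, t • pt p0 p1 o + y • cp p0 p1 o = s • p0 + r • p1 := by
  cases o with
  | none => exact ⟨y, t, by simp only [pt, cp]; rw [add_comm]⟩
  | some a => exact ⟨t, t * a + y, by simp only [pt, cp]; module⟩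

lemma line_eq_smul_pt (p0 p1 : Fin 5 → K) (s r : K) :
    ∃ (c : K) (o : Option K), s • p0 + r • p1 = c • pt p0 p1 o := by
  by_cases hs : s = 0
  · exact ⟨r, none, by simp [pt, hs]⟩
  · exact ⟨s, some (r / s), by simp only [pt, smul_add, smul_smul, mul_div_cancel₀ _ hs]⟩

lemma exists_pt_orth (hσ : ∀ x, σ (σ x) = x) (p0 p1 v : Fin 5 → K) :
    ∃ o, herm σ v (pt p0 p1 o) = 0 := by
  by_cases h : herm σ v p1 = 0
  · exact ⟨none, h⟩
  · refine ⟨some (σ (-herm σ v p0 / herm σ v p1)), ?_⟩
    simp only [pt, herm_add_right, herm_smul_right, hσ]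
    field_simp
    ring

open Classical in
/-- The number of points satisfying `S` in the tangent hyperplane at `e0`, off the line `e0 e1`. -/
noncomputable def locN [Fintype K] (q : ℕ) (S : (Fin 5 → K) → Prop) (e0 e1 e2 e3 : Fin 5 → K) : ℕ :=
  ∑ z ∈ hpts K q, (Finset.univ.filter fun t : K => S (t • e0 + z.2 • e1 + z.1 • e2 + e3)).card

open Classical in
/-- The nonzero isotropic vectors satisfying `S`. -/
noncomputable def iso [Fintype K] (σ : K →+* K) (S : (Fin 5 → K) → Prop) : Finset (Fin 5 → K) :=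
  Finset.univ.filter fun v => v ≠ 0 ∧ S v ∧ herm σ v v = 0

lemma mem_iso [Fintype K] {S : (Fin 5 → K) → Prop} {v : Fin 5 → K} :
    v ∈ iso σ S ↔ v ≠ 0 ∧ S v ∧ herm σ v v = 0 := by
  simp [iso]

open Classical in
lemma cover [Fintype K] {q : ℕ} (hσ : ∀ x, σ (σ x) = x) (hσq : ∀ x, σ x = x ^ q)
    {p0 p1 u : Fin 5 → K} (w : Option K → Fin 5 → K)
    (hw : ∀ o, Frame σ (pt p0 p1 o) (cp p0 p1 o) u (w o)) (S : (Fin 5 → K) → Prop)
    (hS : ∀ (c : K) v, c ≠ 0 → S (c • v) → S v) :
    (iso σ S).card ≤ (Fintype.card K - 1) *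
      ((Finset.univ.filter fun o => S (pt p0 p1 o)).card +
        ∑ o, locN q S (pt p0 p1 o) (cp p0 p1 o) u (w o)) := by
  let T1 : Finset (Fin 5 → K) := (Finset.univ.filter fun o => S (pt p0 p1 o)).image (pt p0 p1)
  let T2 : Finset (Fin 5 → K) := Finset.univ.biUnion fun o => (hpts K q).biUnion fun z =>
    (Finset.univ.filter fun t : K =>
      S (t • pt p0 p1 o + z.2 • cp p0 p1 o + z.1 • u + w o)).image
        fun t => t • pt p0 p1 o + z.2 • cp p0 p1 o + z.1 • u + w o
  have hT1 : T1.card ≤ (Finset.univ.filter fun o => S (pt p0 p1 o)).card := Finset.card_image_le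
  have hT2 : T2.card ≤ ∑ o, locN q S (pt p0 p1 o) (cp p0 p1 o) u (w o) := by
    refine Finset.card_biUnion_le.trans (Finset.sum_le_sum fun o _ => ?_)
    refine Finset.card_biUnion_le.trans (Finset.sum_le_sum fun z _ => ?_)
    exact Finset.card_image_le
  have hsub : iso σ S ⊆ ((Finset.univ.erase (0 : K)) ×ˢ (T1 ∪ T2)).image fun x => x.1 • x.2 := by
    intro v hv
    obtain ⟨hv0, hvS, hvv⟩ := mem_iso.1 hv
    obtain ⟨o, ho⟩ := exists_pt_orth hσ p0 p1 v
    rw [Finset.mem_image]
    rcases (hw o).isotropic ho hvv with ⟨t, y, rfl⟩ | ⟨z, t, a, b, hz, hab, rfl⟩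
    · obtain ⟨s, r, hsr⟩ := line_pt p0 p1 o t y
      obtain ⟨c, o', hc⟩ := line_eq_smul_pt p0 p1 s r
      rw [hsr, hc] at hv0 hvS ⊢
      have hc0 : c ≠ 0 := by rintro rfl; simp at hv0
      refine ⟨(c, pt p0 p1 o'), ?_, rfl⟩
      rw [Finset.mem_product]
      refine ⟨by simp [hc0], Finset.mem_union_left _ ?_⟩
      exact Finset.mem_image.2 ⟨o', by simpa using hS c _ hc0 hvS, rfl⟩
    · refine ⟨(z, _), ?_, rfl⟩
      rw [Finset.mem_product]
      refine ⟨by simp [hz], Finset.mem_union_right _ ?_⟩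
      refine Finset.mem_biUnion.2 ⟨o, Finset.mem_univ _, Finset.mem_biUnion.2 ⟨(a, b), ?_, ?_⟩⟩
      · rw [mem_hpts]
        rw [hσq, hσq] at hab
        rw [← hab]; ring
      · exact Finset.mem_image.2 ⟨t, by simpa using hS z _ hz hvS, rfl⟩
  calc (iso σ S).card ≤ _ := Finset.card_le_card hsub
    _ ≤ ((Finset.univ.erase (0 : K)) ×ˢ (T1 ∪ T2)).card := Finset.card_image_le
    _ = (Fintype.card K - 1) * (T1 ∪ T2).card := by
      rw [Finset.card_product, Finset.card_erase_of_mem (Finset.mem_univ _), Finset.card_univ]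
    _ ≤ _ := Nat.mul_le_mul_left _ ((Finset.card_union_le _ _).trans (Nat.add_le_add hT1 hT2))

end Cover

end Pool.Agent.Work.MP_10b6e9_ag
end
end

-- merged part: Pool.Agent.Work.MP_10b6e9_ag.Cases
section
set_option autoImplicit false

namespace Pool.Agent.Work.MP_10b6e9_ag

open MvPolynomial

section Cases

variable {K : Type*} [Field K] [Fintype K]

/-- Standing hypotheses on the field with `q^2` elements and its involution. -/
structure Setup (σ : K →+* K) (q : ℕ) : Prop where
  hq : 2 ≤ q
  hqK : (q : K) = 0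
  hcard : Fintype.card K = q ^ 2
  hσ : ∀ x, σ (σ x) = x
  hσq : ∀ x, σ x = x ^ q
  hθ : ∃ θ : K, θ + σ θ = 1
  hflag : ∃ p0 p1 u, Flag σ p0 p1 u

variable {σ : K →+* K} {q : ℕ}

/-- `F` vanishes on the line spanned by `p0, p1`. -/
def VanL (F : MvPolynomial (Fin 5) K) (p0 p1 : Fin 5 → K) : Prop :=
  ∀ t y : K, eval (t • p0 + y • p1) F = 0

omit [Fintype K] in
lemma VanL.pt {F : MvPolynomial (Fin 5) K} {p0 p1 : Fin 5 → K} (h : VanL F p0 p1) (o : Option K) :
    VanL F (pt p0 p1 o) (cp p0 p1 o) := by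
  intro t y
  obtain ⟨s, r, hsr⟩ := line_pt p0 p1 o t y
  rw [hsr]; exact h s r

omit [Fintype K] in
lemma vanL_of_pt {F : MvPolynomial (Fin 5) K} {d : ℕ} (hF : F.IsHomogeneous d)
    {p0 p1 : Fin 5 → K} (h : ∀ o, eval (pt p0 p1 o) F = 0) : VanL F p0 p1 := by
  intro t y
  obtain ⟨c, o, hc⟩ := line_eq_smul_pt p0 p1 t y
  rw [hc, hom_eval_smul hF, h, mul_zero]

omit [Fintype K] in
lemma hom_scale {F : MvPolynomial (Fin 5) K} {d : ℕ} (hF : F.IsHomogeneous d) (c : K)
    (v : Fin 5 → K) (hc : c ≠ 0) (h : eval (c • v) F = 0) : eval v F = 0 := by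
  rw [hom_eval_smul hF] at h
  exact (mul_eq_zero.1 h).resolve_left (pow_ne_zero _ hc)

lemma Setup.flag_of_point (S : Setup σ q) {e0 e1 e2 e3 : Fin 5 → K} (h : Frame σ e0 e1 e2 e3)
    {z : K × K} (hz : z ∈ hpts K q) :
    Flag σ (z.2 • e1 + z.1 • e2 + e3) e0 (e2 - σ z.1 • e1) := by
  apply h.flag_of_point S.hσ
  rw [S.hσq, S.hσq, ← mem_hpts.1 hz]; ring

open Classical in
lemma local_F (S : Setup σ q) {d : ℕ} (hd : d ≤ q) {F : MvPolynomial (Fin 5) K}
    (hF : F.IsHomogeneous d) {e0 e1 e2 e3 : Fin 5 → K} (h : Frame σ e0 e1 e2 e3)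
    (hne : ∃ v, herm σ v e0 = 0 ∧ eval v F ≠ 0) (hl : VanL F e0 e1) :
    ∃ δ k : ℕ, δ + k + 1 = d ∧
      (∃ Q : Polynomial K, Q.natDegree ≤ δ ∧ ∀ t, Q.eval t = dirD F e2 (t • e0 + e1)) ∧
      locN q (fun v => eval v F = 0) e0 e1 e2 e3 + (δ + k) * q ≤ d * q ^ 3 + k * (q + 1) * q ∧
      ((∀ p0 p1 u, Flag σ p0 p1 u → VanL F p0 p1 → ∀ t : K, dirD F u (p0 + t • p1) = 0) →
        locN q (fun v => eval v F = 0) e0 e1 e2 e3 + (δ + k) * q ≤ d * q ^ 3) := by
  have hs : ∀ t y x z : K, ∑ j, ![t, y, x, z] j • ![e0, e1, e2, e3] j =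
      t • e0 + y • e1 + x • e2 + z • e3 := by
    intro t y x z
    simp [Fin.sum_univ_four]
  have hG0 : restr F ![e0, e1, e2, e3] ≠ 0 := by
    obtain ⟨v, hv, hvF⟩ := hne
    obtain ⟨t, y, x, z, rfl⟩ := h.span v hv
    intro h0
    apply hvF
    rw [← hs, ← eval_restr, h0, map_zero]
  obtain ⟨δ, k, hδ, ⟨Q, hQ, hQe⟩, h1, h2⟩ := local_G S.hq S.hqK S.hcard hd
    (restr_hom hF ![e0, e1, e2, e3]) hG0 (by
      intro t y
      rw [eval_restr, hs]
      simpa using hl t y)
  have hN : (∑ z ∈ hpts K q, (Finset.univ.filter fun t : K =>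
      eval ![t, z.2, z.1, 1] (restr F ![e0, e1, e2, e3]) = 0).card) =
      locN q (fun v => eval v F = 0) e0 e1 e2 e3 := by
    rw [locN]
    refine Finset.sum_congr rfl fun z _ => ?_
    congr 1
    ext t
    simp only [Finset.mem_filter, eval_restr, hs, one_smul]
  rw [hN] at h1 h2
  simp only [eval_restr, eval_pderiv_restr, hs, one_smul, zero_smul, add_zero] at hQe h2
  refine ⟨δ, k, hδ, ⟨Q, hQ, hQe⟩, h1, fun htan => h2 ?_⟩
  intro z hz hz0 t
  have hfl := S.flag_of_point h hz
  have hvan : VanL F (z.2 • e1 + z.1 • e2 + e3) e0 := by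
    apply vanL_of_pt hF
    intro o
    cases o with
    | none => simpa [pt] using hl 1 0
    | some a =>
      rw [← hz0 a]
      simp only [pt]
      congr 2
      module
  have := htan _ _ _ hfl hvan t
  rw [dirD_sub_smul, S.hσq] at this
  have e : z.2 • e1 + z.1 • e2 + e3 + t • e0 = t • e0 + z.2 • e1 + z.1 • e2 + e3 := by module
  rw [e] at this
  exact this

open Classical in
lemma card_pt_filter (P : (Fin 5 → K) → Prop) (p0 p1 : Fin 5 → K) :
    (Finset.univ.filter fun o => P (pt p0 p1 o)).card =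
      (if P p1 then 1 else 0) + (Finset.univ.filter fun a : K => P (p0 + a • p1)).card := by
  rw [Finset.card_filter, Finset.card_filter, Fintype.sum_option]
  rfl

open Classical in
lemma card_line_le (S : Setup σ q) {d : ℕ} (hd : d ≤ q) {F : MvPolynomial (Fin 5) K}
    (hF : F.IsHomogeneous d) {p0 p1 : Fin 5 → K} (h : ¬ VanL F p0 p1) :
    (Finset.univ.filter fun o => eval (pt p0 p1 o) F = 0).card ≤ d := by
  have hq := S.hq
  have hqq : q + 1 < q ^ 2 := by nlinarith only [hq]
  obtain ⟨α, hα, hαe⟩ := line_poly hF p0 p1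
  obtain ⟨β, hβ, hβe⟩ := line_poly hF p1 p0
  have hrefl : α = β.reflect d := by
    apply eq_reflect hα hβ (by rw [S.hcard]; omega)
    intro t ht
    rw [hαe, hβe, ← hom_eval_smul hF]
    congr 2
    rw [smul_add, smul_smul, mul_inv_cancel₀ ht, one_smul, add_comm]
  have hcoeff : α.coeff d = eval p1 F := by
    rw [hrefl, Polynomial.coeff_reflect, Polynomial.revAt_le le_rfl, Nat.sub_self,
      Polynomial.coeff_zero_eq_eval_zero, hβe]
    simp
  have hα0 : α ≠ 0 := by
    intro h0
    apply h
    apply vanL_of_pt hF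
    intro o
    cases o with
    | none => simp only [pt]; rw [← hcoeff, h0]; simp
    | some a => simp only [pt]; rw [← hαe, h0]; simp
  rw [card_pt_filter (fun v => eval v F = 0)]
  have h1 := card_filter_eval_le α hα0
  simp only [hαe] at h1
  split_ifs with hp
  · have : α.natDegree < d := by
      rcases hα.lt_or_eq with h2 | h2
      · exact h2
      · exfalso
        rw [← hcoeff, ← h2] at hp
        exact hα0 (Polynomial.leadingCoeff_eq_zero.1 hp)
    omega
  · omega

lemma Setup.frames (S : Setup σ q) {p0 p1 u : Fin 5 → K} (h : Flag σ p0 p1 u) :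
    ∃ w : Option K → Fin 5 → K, ∀ o, Frame σ (pt p0 p1 o) (cp p0 p1 o) u (w o) := by
  choose w hw using fun o => (h.pt o).exists_frame S.hσ S.hθ
  exact ⟨w, hw⟩

open Classical in
/-- No generator lies in the hypersurface. -/
lemma case_noGen (S : Setup σ q) {d : ℕ} (hd : d ≤ q) {F : MvPolynomial (Fin 5) K}
    (hF : F.IsHomogeneous d) (h : ∀ p0 p1 u, Flag σ p0 p1 u → ¬ VanL F p0 p1) :
    (iso σ fun v => eval v F = 0).card ≤ (q ^ 2 - 1) * (d * (q ^ 5 + 1)) := by
  let kk : (Fin 5 → K) → (Fin 5 → K) → ℕ := fun p0 p1 =>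
    (Finset.univ.filter fun o => eval (pt p0 p1 o) F = 0).card
  obtain ⟨⟨p0, p1, u⟩, hx, hmax⟩ := Finset.exists_max_image
    (Finset.univ.filter fun x : (Fin 5 → K) × (Fin 5 → K) × (Fin 5 → K) => Flag σ x.1 x.2.1 x.2.2)
    (fun x => kk x.1 x.2.1) (by
      obtain ⟨p0, p1, u, hf⟩ := S.hflag
      exact ⟨(p0, p1, u), by simpa using hf⟩)
  have hfl : Flag σ p0 p1 u := by simpa using hx
  have hmax' : ∀ a b c, Flag σ a b c → kk a b ≤ kk p0 p1 :=
    fun a b c habc => hmax (a, b, c) (by simpa using habc)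
  have hkd : kk p0 p1 ≤ d := card_line_le S hd hF (h _ _ _ hfl)
  obtain ⟨w, hw⟩ := S.frames hfl
  have hcov := cover S.hσ S.hσq w hw (fun v => eval v F = 0) (hom_scale hF)
  rw [S.hcard] at hcov
  refine hcov.trans (Nat.mul_le_mul_left _ ?_)
  have hloc : ∀ o, locN q (fun v => eval v F = 0) (pt p0 p1 o) (cp p0 p1 o) u (w o) +
      (hpts K q).card * (if eval (pt p0 p1 o) F = 0 then 1 else 0) ≤
        (hpts K q).card * kk p0 p1 := by
    intro o
    rw [locN, ← smul_eq_mul, ← smul_eq_mul, ← Finset.sum_const, ← Finset.sum_const,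
      ← Finset.sum_add_distrib]
    apply Finset.sum_le_sum
    intro z hz
    have := hmax' _ _ _ (S.flag_of_point (hw o) hz)
    simp only [kk] at this ⊢
    rw [card_pt_filter (fun v => eval v F = 0), add_comm] at this
    refine le_trans (le_of_eq ?_) this
    congr 2
    ext t
    have e : z.2 • cp p0 p1 o + z.1 • u + w o + t • pt p0 p1 o =
      t • pt p0 p1 o + z.2 • cp p0 p1 o + z.1 • u + w o := by module
    simp only [Finset.mem_filter, e]
  have hsum := Finset.sum_le_sum fun o (_ : o ∈ Finset.univ) => hloc o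
  rw [Finset.sum_add_distrib, ← Finset.mul_sum, ← Finset.card_filter, Finset.sum_const,
    Finset.card_univ, Fintype.card_option, S.hcard, smul_eq_mul] at hsum
  have hh := card_hpts S.hq S.hcard
  change kk p0 p1 + _ ≤ _
  change _ + (hpts K q).card * kk p0 p1 ≤ _ at hsum
  generalize (∑ o, locN q (fun v => eval v F = 0) (pt p0 p1 o) (cp p0 p1 o) u (w o)) = N
    at hsum ⊢
  generalize kk p0 p1 = k at hsum hkd ⊢
  generalize (hpts K q).card = n at hsum hh
  have h1 : N ≤ q ^ 2 * (n * k) := by linarith only [hsum]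
  have h2 : n * k ≤ q ^ 3 * d := Nat.mul_le_mul hh hkd
  have h3 : q ^ 2 * (n * k) ≤ q ^ 2 * (q ^ 3 * d) := Nat.mul_le_mul_left _ h2
  linarith only [hkd, hsum, h3]

open Classical in
/-- A generator lies in the hypersurface, but no tangent hyperplane does. -/
lemma case_gen (S : Setup σ q) {d : ℕ} (hd : d ≤ q) {F : MvPolynomial (Fin 5) K}
    (hF : F.IsHomogeneous d)
    (hT : ∀ e0 e1 e2 e3, Frame σ e0 e1 e2 e3 → ∃ v, herm σ v e0 = 0 ∧ eval v F ≠ 0)
    (h : ∃ p0 p1 u, Flag σ p0 p1 u ∧ VanL F p0 p1) :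
    (iso σ fun v => eval v F = 0).card ≤ (q ^ 2 - 1) * (d * (q ^ 5 + q ^ 2) + q ^ 3 + 1) := by
  have hq := S.hq
  have hqq : q + 1 < q ^ 2 := by nlinarith only [hq]
  have hk : ∀ p0 p1 : Fin 5 → K,
      (Finset.univ.filter fun o => eval (pt p0 p1 o) F = 0).card ≤ q ^ 2 + 1 := by
    intro p0 p1
    refine (Finset.card_filter_le _ _).trans ?_
    rw [Finset.card_univ, Fintype.card_option, S.hcard]
  by_cases htan : ∀ p0 p1 u, Flag σ p0 p1 u → VanL F p0 p1 → ∀ t : K, dirD F u (p0 + t • p1) = 0
  · obtain ⟨p0, p1, u, hfl, hvan⟩ := h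
    obtain ⟨w, hw⟩ := S.frames hfl
    have hcov := cover S.hσ S.hσq w hw (fun v => eval v F = 0) (hom_scale hF)
    rw [S.hcard] at hcov
    refine hcov.trans (Nat.mul_le_mul_left _ ?_)
    choose δ k hδ hQ h1 h2 using fun o => local_F S hd hF (hw o) (hT _ _ _ _ (hw o)) (hvan.pt o)
    obtain ⟨d', rfl⟩ : ∃ d', d = d' + 1 := ⟨δ none + k none, (hδ none).symm⟩
    have hloc : ∀ o, locN q (fun v => eval v F = 0) (pt p0 p1 o) (cp p0 p1 o) u (w o) + d' * q ≤
        (d' + 1) * q ^ 3 := by
      intro o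
      have := h2 o htan
      rwa [show δ o + k o = d' by have := hδ o; omega] at this
    have hsum := Finset.sum_le_sum fun o (_ : o ∈ Finset.univ) => hloc o
    rw [Finset.sum_add_distrib, Finset.sum_const, Finset.sum_const,
      Finset.card_univ, Fintype.card_option, S.hcard, smul_eq_mul, smul_eq_mul] at hsum
    have := hk p0 p1
    linarith only [hsum, this, Nat.zero_le (d' * q), Nat.zero_le (d' * q ^ 2)]
  · push Not at htan
    obtain ⟨p0, p1, u, hfl, hvan, t0, ht0⟩ := htan
    obtain ⟨w, hw⟩ := S.frames hfl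
    have hcov := cover S.hσ S.hσq w hw (fun v => eval v F = 0) (hom_scale hF)
    rw [S.hcard] at hcov
    refine hcov.trans (Nat.mul_le_mul_left _ ?_)
    choose δ k hδ hQ h1 h2 using fun o => local_F S hd hF (hw o) (hT _ _ _ _ (hw o)) (hvan.pt o)
    choose Q hQ hQe using hQ
    obtain ⟨d', rfl⟩ : ∃ d', d = d' + 1 := ⟨δ none + k none, (hδ none).symm⟩
    have hδ' : ∀ o, δ o + k o = d' := fun o => by have := hδ o; omega
    have hα0 : Q none ≠ 0 := by
      intro h0
      apply ht0
      have := hQe none t0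
      rw [h0, Polynomial.eval_zero] at this
      rw [add_comm]
      exact this.symm
    have hmult : ∀ a : K, k (some a) ≤ (Q none).rootMultiplicity a := by
      intro a
      rw [Polynomial.le_rootMultiplicity_iff hα0, Polynomial.X_sub_C_pow_dvd_iff]
      have hrefl : (Q none).comp (Polynomial.X + Polynomial.C a) = (Q (some a)).reflect d' := by
        apply eq_reflect
        · refine Polynomial.natDegree_comp_le.trans ?_
          rw [Polynomial.natDegree_X_add_C, mul_one]
          have := hQ none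
          have := hδ' none
          omega
        · have := hQ (some a)
          have := hδ' (some a)
          omega
        · rw [S.hcard]; omega
        · intro y hy
          rw [Polynomial.eval_comp, hQe, hQe]
          have := dirD_smul hF u (y⁻¹ • pt p0 p1 (some a) + cp p0 p1 (some a)) y
          rw [Nat.add_sub_cancel] at this
          rw [← this]
          congr 1
          simp only [pt, cp, Polynomial.eval_add, Polynomial.eval_X, Polynomial.eval_C, smul_add,
            smul_smul, mul_inv_cancel₀ hy, mul_inv_cancel_left₀ hy]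
          module
      rw [hrefl, Polynomial.X_pow_dvd_iff]
      intro i hi
      have h3 := hδ' (some a)
      have h4 := hQ (some a)
      rw [Polynomial.coeff_reflect, Polynomial.revAt_le (by omega)]
      apply Polynomial.coeff_eq_zero_of_natDegree_lt
      omega
    have hksum : ∑ o, k o ≤ d' := by
      rw [Fintype.sum_option]
      have h3 : ∑ a : K, k (some a) ≤ ∑ a : K, (Q none).roots.count a :=
        Finset.sum_le_sum fun a _ => by rw [Polynomial.count_roots]; exact hmult a
      rw [Multiset.sum_count_eq_card (fun _ _ => Finset.mem_univ _)] at h3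
      have h4 := (Q none).card_roots'
      have h5 := hQ none
      have h6 := hδ' none
      omega
    have hloc : ∀ o, locN q (fun v => eval v F = 0) (pt p0 p1 o) (cp p0 p1 o) u (w o) + d' * q ≤
        (d' + 1) * q ^ 3 + k o * ((q + 1) * q) := by
      intro o
      have := h1 o
      rwa [hδ' o, mul_assoc] at this
    have hsum := Finset.sum_le_sum fun o (_ : o ∈ Finset.univ) => hloc o
    rw [Finset.sum_add_distrib, Finset.sum_add_distrib, Finset.sum_const, Finset.sum_const,
      Finset.card_univ, Fintype.card_option, S.hcard, smul_eq_mul, smul_eq_mul,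
      ← Finset.sum_mul] at hsum
    have h7 := Nat.mul_le_mul_right ((q + 1) * q) hksum
    have := hk p0 p1
    linarith only [hsum, h7, this]

end Cases

end Pool.Agent.Work.MP_10b6e9_ag
end

-- merged part: Pool.Agent.Work.MP_10b6e9_ag.Main
section
set_option autoImplicit false

namespace Pool.Agent.Work.MP_10b6e9_ag

open MvPolynomial

section Main

variable {K : Type*} [Field K] [Fintype K] {σ : K →+* K} {q : ℕ}

/-- A form vanishing on the hyperplane orthogonal to `e0` is divisible by its equation. -/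
lemma exists_factor {d : ℕ} (hd : d + 1 ≤ Fintype.card K) {F : MvPolynomial (Fin 5) K}
    (hF : F.IsHomogeneous (d + 1)) {e0 w0 : Fin 5 → K} (hw : herm σ w0 e0 = 1)
    (h : ∀ v, herm σ v e0 = 0 → eval v F = 0) :
    ∃ G : MvPolynomial (Fin 5) K, G.IsHomogeneous d ∧ F = (∑ i, C (σ (e0 i)) * X i) * G := by
  classical
  set L : MvPolynomial (Fin 5) K := ∑ i, C (σ (e0 i)) * X i with hL
  have hLh : L.IsHomogeneous 1 := IsHomogeneous.sum _ _ _ fun j _ => isHomogeneous_C_mul_X _ _
  have hLe : ∀ v, eval v L = herm σ v e0 := by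
    intro v
    simp [hL, herm, mul_comm]
  let φ : MvPolynomial (Fin 5) K →ₐ[K] MvPolynomial (Fin 5) K := aeval fun i => X i - C (w0 i) * L
  have hdvd : ∀ p : MvPolynomial (Fin 5) K, L ∣ p - φ p := by
    intro p
    induction p using MvPolynomial.induction_on with
    | C c => simp [φ]
    | add p p' hp hp' =>
      have : p + p' - φ (p + p') = (p - φ p) + (p' - φ p') := by rw [map_add]; ring
      rw [this]; exact dvd_add hp hp'
    | mul_X p i hp =>
      have : p * X i - φ (p * X i) = (p - φ p) * X i + L * (φ p * C (w0 i)) := by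
        rw [map_mul]; simp only [φ, aeval_X]; ring
      rw [this]; exact dvd_add (hp.mul_right _) (dvd_mul_right _ _)
  have hφe : ∀ (v : Fin 5 → K) (p : MvPolynomial (Fin 5) K),
      eval v (φ p) = eval (v - herm σ v e0 • w0) p := by
    intro v p
    induction p using MvPolynomial.induction_on with
    | C c => simp [φ]
    | add p p' hp hp' => simp only [map_add, hp, hp']
    | mul_X p i hp =>
      rw [map_mul, map_mul, map_mul, hp]
      simp only [φ, aeval_X, map_sub, map_mul, eval_X, eval_C, hLe, Pi.sub_apply, Pi.smul_apply,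
        smul_eq_mul]
      ring
  have hφh : (φ F).IsHomogeneous (d + 1) := by
    have := hF.aeval (fun i => X i - C (w0 i) * L) (n := 1)
      (fun i => (isHomogeneous_X K i).sub (hLh.C_mul _))
    rwa [one_mul] at this
  have hφ0 : φ F = 0 := by
    apply hom_eq_zero hφh _ hd
    intro v
    rw [hφe]
    apply h
    rw [herm_sub_left, herm_smul_left, hw]; ring
  obtain ⟨G0, hG0⟩ := hdvd F
  rw [hφ0, sub_zero] at hG0
  refine ⟨homogeneousComponent d G0, homogeneousComponent_isHomogeneous _ _, ?_⟩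
  have h1 : F = homogeneousComponent (d + 1) (L * G0) := by
    rw [← hG0, homogeneousComponent_eq_self hF]
  have h2 : ∀ k, homogeneousComponent (d + 1) (L * homogeneousComponent k G0) =
      if k = d then L * homogeneousComponent d G0 else 0 := by
    intro k
    have hmem : L * homogeneousComponent k G0 ∈ homogeneousSubmodule (Fin 5) K (1 + k) :=
      hLh.mul (homogeneousComponent_isHomogeneous _ _)
    rw [homogeneousComponent_of_mem hmem]
    by_cases hk : k = d
    · rw [if_pos (by omega), if_pos hk, hk]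
    · rw [if_neg (by omega), if_neg hk]
  rw [h1]
  conv_lhs => rw [← sum_homogeneousComponent G0, Finset.mul_sum, map_sum]
  simp only [h2, Finset.sum_ite_eq']
  split_ifs with hmem
  · rfl
  · rw [homogeneousComponent_eq_zero, mul_zero]
    rw [Finset.mem_range] at hmem
    omega

open Classical in
lemma card_tangent (S : Setup σ q) {e0 e1 u : Fin 5 → K} (h : Flag σ e0 e1 u) :
    (iso σ fun v => herm σ v e0 = 0).card ≤ (q ^ 2 - 1) * (q ^ 5 + q ^ 2 + 1) := by
  obtain ⟨w, hw⟩ := S.frames h.swap
  have hcov := cover S.hσ S.hσq w hw (fun v => herm σ v e0 = 0) (by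
    intro c v hc hv
    rw [herm_smul_left] at hv
    exact (mul_eq_zero.1 hv).resolve_left hc)
  rw [S.hcard] at hcov
  refine hcov.trans (Nat.mul_le_mul_left _ ?_)
  have h1 : (Finset.univ.filter fun o => herm σ (pt e1 e0 o) e0 = 0).card ≤ q ^ 2 + 1 := by
    refine (Finset.card_filter_le _ _).trans ?_
    rw [Finset.card_univ, Fintype.card_option, S.hcard]
  have h2 : locN q (fun v => herm σ v e0 = 0) (pt e1 e0 none) (cp e1 e0 none) u (w none) ≤
      q ^ 5 := by
    rw [locN]
    refine (Finset.sum_le_card_nsmul _ _ (q ^ 2) fun z _ => ?_).trans ?_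
    · refine (Finset.card_filter_le _ _).trans ?_
      rw [Finset.card_univ, S.hcard]
    · rw [smul_eq_mul]
      calc _ ≤ q ^ 3 * q ^ 2 := Nat.mul_le_mul_right _ (card_hpts S.hq S.hcard)
        _ = q ^ 5 := by ring
  have h3 : ∀ a : K, locN q (fun v => herm σ v e0 = 0) (pt e1 e0 (some a)) (cp e1 e0 (some a)) u
      (w (some a)) = 0 := by
    intro a
    rw [locN]
    apply Finset.sum_eq_zero
    intro z _
    rw [Finset.card_eq_zero, Finset.filter_eq_empty_iff]
    intro t _
    have h31 := (hw (some a)).h31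
    have h01 := (hw (some a)).flag.h01
    simp only [cp] at h31 h01 ⊢
    simp [herm_add_left, herm_smul_left, h31, h01, h.h00, h.hu0]
  rw [Fintype.sum_option]
  simp only [h3, Finset.sum_const_zero]
  omega

open Classical in
theorem main_bound (S : Setup σ q) (d : ℕ) : ∀ F : MvPolynomial (Fin 5) K, F ≠ 0 →
    F.IsHomogeneous d → d ≤ q →
    (iso σ fun v => eval v F = 0).card ≤ (q ^ 2 - 1) * (d * (q ^ 5 + q ^ 2) + q ^ 3 + 1) := by
  have hq := S.hq
  have hqq : q + 1 < q ^ 2 := by nlinarith only [hq]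
  induction d with
  | zero =>
    intro F hF0 hF _
    have : (iso σ fun v => eval v F = 0) = ∅ := by
      rw [Finset.eq_empty_iff_forall_notMem]
      intro v hv
      obtain ⟨c, hc⟩ : ∃ c, F = C c := ⟨_, totalDegree_eq_zero_iff_eq_C.1
        (Nat.le_zero.1 hF.totalDegree_le)⟩
      have h1 := (mem_iso.1 hv).2.1
      rw [hc, eval_C] at h1
      apply hF0
      rw [hc, h1, map_zero]
    rw [this]; simp
  | succ d ih =>
    intro F hF0 hF hd
    by_cases hT : ∀ e0 e1 e2 e3, Frame σ e0 e1 e2 e3 → ∃ v, herm σ v e0 = 0 ∧ eval v F ≠ 0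
    · by_cases h : ∃ p0 p1 u, Flag σ p0 p1 u ∧ VanL F p0 p1
      · exact case_gen S hd hF hT h
      · push Not at h
        refine (case_noGen S hd hF h).trans (Nat.mul_le_mul_left _ ?_)
        linarith only [hqq, hd, Nat.zero_le (q ^ 3), Nat.zero_le (d * q ^ 2)]
    · push Not at hT
      obtain ⟨e0, e1, e2, e3, hfr, hvan⟩ := hT
      obtain ⟨w0, -, hw0⟩ := exists_dual (σ := σ) hfr.flag.swap.ind
      obtain ⟨G, hG, hFG⟩ := exists_factor (by rw [S.hcard]; omega) hF hw0 hvan
      have hG0 : G ≠ 0 := by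
        rintro rfl
        exact hF0 (by rw [hFG, mul_zero])
      have hsub : (iso σ fun v => eval v F = 0) ⊆
          (iso σ fun v => eval v G = 0) ∪ (iso σ fun v => herm σ v e0 = 0) := by
        intro v hv
        obtain ⟨h1, h2, h3⟩ := mem_iso.1 hv
        rw [hFG, map_mul] at h2
        rcases mul_eq_zero.1 h2 with h4 | h4
        · refine Finset.mem_union_right _ (mem_iso.2 ⟨h1, ?_, h3⟩)
          rw [← h4]
          simp [herm, mul_comm]
        · exact Finset.mem_union_left _ (mem_iso.2 ⟨h1, h4, h3⟩)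
      have hI := card_tangent S hfr.flag
      have hcu := Finset.card_union_add_card_inter (iso σ fun v => eval v G = 0)
        (iso σ fun v => herm σ v e0 = 0)
      have hle := Finset.card_le_card hsub
      by_cases h : ∃ p0 p1 u, Flag σ p0 p1 u ∧ VanL G p0 p1
      · obtain ⟨p0, p1, u, hfl, hvG⟩ := h
        obtain ⟨o, ho⟩ := exists_pt_orth S.hσ p0 p1 e0
        have ho' : herm σ (pt p0 p1 o) e0 = 0 := by rw [herm_conj S.hσ, ho, map_zero]
        have hne := (hfl.pt o).ne_zero
        have hinter : q ^ 2 - 1 ≤ ((iso σ fun v => eval v G = 0) ∩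
            (iso σ fun v => herm σ v e0 = 0)).card := by
          rw [← S.hcard, ← Finset.card_univ, ← Finset.card_erase_of_mem (Finset.mem_univ (0 : K))]
          apply Finset.card_le_card_of_injOn (fun c => c • pt p0 p1 o)
          · intro c hc
            have hc0 : c ≠ 0 := Finset.ne_of_mem_erase hc
            have h1 : c • pt p0 p1 o ≠ 0 := smul_ne_zero hc0 hne
            have h2 : herm σ (c • pt p0 p1 o) (c • pt p0 p1 o) = 0 := by
              rw [herm_smul_left, herm_smul_right, (hfl.pt o).h00]; ring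
            simp only [Finset.coe_inter, Set.mem_inter_iff, Finset.mem_coe]
            refine ⟨mem_iso.2 ⟨h1, ?_, h2⟩, mem_iso.2 ⟨h1, ?_, h2⟩⟩
            · simpa using hvG.pt o c 0
            · rw [herm_smul_left, ho', mul_zero]
          · intro c _ c' _ hcc
            exact smul_left_injective K hne hcc
        have := ih G hG0 hG (by omega)
        generalize q ^ 2 - 1 = r at *
        linarith only [hcu, hle, hI, hinter, this]
      · push Not at h
        have := case_noGen S (by omega) hG h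
        have h1 : d * (q ^ 5 + 1) + (q ^ 5 + q ^ 2 + 1) ≤
            (d + 1) * (q ^ 5 + q ^ 2) + q ^ 3 + 1 := by
          linarith only [hqq, hd, Nat.zero_le (q ^ 3), Nat.mul_le_mul_left d (show 1 ≤ q ^ 2 by omega)]
        have h2 := Nat.mul_le_mul_left (q ^ 2 - 1) h1
        rw [mul_add] at h2
        omega

lemma exists_setup (hcard : Fintype.card K = q ^ 2) : ∃ σ : K →+* K, Setup σ q := by
  classical
  obtain ⟨p, hp⟩ := CharP.exists K
  obtain ⟨n, hpp, hn⟩ := FiniteField.card K p
  have : Fact p.Prime := ⟨hpp⟩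
  have hdvd : q ∣ p ^ (n : ℕ) := by rw [← hn, hcard]; exact Dvd.intro_left q (by ring)
  obtain ⟨k, -, hk⟩ := (Nat.dvd_prime_pow hpp).1 hdvd
  have hq : 2 ≤ q := by
    have := Fintype.one_lt_card (α := K)
    rw [hcard] at this
    by_contra hlt
    have : q = 0 ∨ q = 1 := by omega
    rcases this with rfl | rfl <;> simp at this
  have hk0 : k ≠ 0 := by rintro rfl; simp at hk; omega
  let σ : K →+* K := iterateFrobenius K p k
  have hσq : ∀ x, σ x = x ^ q := fun x => by rw [hk]; exact iterateFrobenius_def p k x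
  have hσ : ∀ x, σ (σ x) = x := by
    intro x
    rw [hσq, hσq, ← pow_mul, ← pow_two, ← hcard, FiniteField.pow_card]
  have hθ : ∃ θ : K, θ + σ θ = 1 := by
    obtain ⟨a, ha⟩ : ∃ a : K, a + σ a ≠ 0 := by
      by_contra hcon
      push Not at hcon
      let f : Polynomial K := Polynomial.X ^ q + Polynomial.X
      have hdeg : (Polynomial.X : Polynomial K).natDegree <
          (Polynomial.X ^ q : Polynomial K).natDegree := by
        rw [Polynomial.natDegree_X, Polynomial.natDegree_X_pow]; omega
      have hfd : f.natDegree = q := by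
        simp only [f]
        rw [Polynomial.natDegree_add_eq_left_of_natDegree_lt hdeg, Polynomial.natDegree_X_pow]
      have := Polynomial.eq_zero_of_natDegree_lt_card_of_eval_eq_zero f Function.injective_id
        (fun x => by
          have := hcon x
          rw [hσq] at this
          simp only [f, id, Polynomial.eval_add, Polynomial.eval_pow, Polynomial.eval_X]
          rw [add_comm]; exact this)
        (by rw [hfd, hcard]; nlinarith only [hq])
      rw [this, Polynomial.natDegree_zero] at hfd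
      omega
    refine ⟨a / (a + σ a), ?_⟩
    rw [map_div₀, map_add, hσ, add_comm (σ a) a, ← add_div, div_self ha]
  obtain ⟨θ, hθ'⟩ : ∃ θ : K, θ * σ θ = -1 := by
    obtain ⟨γ, hγ⟩ := IsCyclic.exists_generator (α := Kˣ)
    have hord : orderOf γ = (q + 1) * (q - 1) := by
      rw [orderOf_eq_card_of_forall_mem_zpowers hγ, Nat.card_eq_fintype_card, Fintype.card_units,
        hcard]
      obtain ⟨r, rfl⟩ : ∃ r, q = r + 1 := ⟨q - 1, by omega⟩
      simp only [Nat.add_sub_cancel]
      exact Nat.sub_eq_of_eq_add (by ring)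
    obtain ⟨j, hj⟩ : ∃ j : ℕ, γ ^ j = -1 := (mem_powers_iff_mem_zpowers.2 (hγ (-1)))
    have h1 : ((-1 : Kˣ)) ^ (q - 1) = 1 := by
      have h2 : (-1 : K) ^ q = -1 := by rw [← hσq, map_neg, map_one]
      obtain ⟨r, rfl⟩ : ∃ r, q = r + 1 := ⟨q - 1, by omega⟩
      ext
      simp only [Nat.add_sub_cancel, Units.val_pow_eq_pow_val, Units.val_neg, Units.val_one]
      rw [pow_succ] at h2
      linear_combination -h2
    rw [← hj, ← pow_mul, ← orderOf_dvd_iff_pow_eq_one, hord] at h1
    obtain ⟨i, rfl⟩ := Nat.dvd_of_mul_dvd_mul_right (by omega) h1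
    refine ⟨(γ ^ i : Kˣ), ?_⟩
    rw [hσq, ← pow_succ', ← Units.val_pow_eq_pow_val, ← pow_mul, mul_comm, hj]
    simp
  refine ⟨σ, hq, ?_, hcard, hσ, hσq, hθ, ![1, θ, 0, 0, 0], ![0, 0, 1, θ, 0], ![0, 0, 0, 0, 1], ?_⟩
  · rw [hk, Nat.cast_pow, CharP.cast_eq_zero, zero_pow hk0]
  · refine ⟨?_, ?_, ?_, ?_, ?_, ?_, ?_, ?_, ?_, fun s t hst => ?_⟩
    rotate_right
    · have h0 := congrFun hst 0
      have h2 := congrFun hst 2
      simp at h0 h2
      exact ⟨h0, h2⟩
    all_goals simp [herm, Fin.sum_univ_five, hθ']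

theorem edoukou (K : Type) [Field K] [Fintype K] (q d : ℕ) (hcard : Fintype.card K = q ^ 2)
    (hd : d ≤ q) (F : MvPolynomial (Fin 5) K) (hF0 : F ≠ 0) (hF : F.IsHomogeneous d) :
    Set.ncard {x : Fin 5 → K | x ≠ 0 ∧ MvPolynomial.eval x F = 0 ∧ ∑ i, x i ^ (q + 1) = 0}
      ≤ (q ^ 2 - 1) * (d * (q ^ 5 + q ^ 2) + q ^ 3 + 1) := by
  obtain ⟨σ, S⟩ := exists_setup hcard
  have := main_bound S d F hF0 hF hd
  rw [← Set.ncard_coe_finset] at this
  convert this using 2
  ext v
  simp only [Set.mem_ofPred_eq, Finset.mem_coe, mem_iso, herm, S.hσq, pow_succ']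

end Main

end Pool.Agent.Work.MP_10b6e9_ag
end
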