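import Mathlib

/-!
Definitions for the Hermitian threefold attached to a Hermitian matrix.
-/

set_option autoImplicit false

namespace Pool.Agent.Work.MP_10b6e9_ag

variable {K : Type*} [Field K]

/-- The form `x^T A y^(q)`. -/
def hform (q : ℕ) (A : Matrix (Fin 5) (Fin 5) K) (x y : Fin 5 → K) : K :=
  ∑ i, ∑ j, x i * A i j * y j ^ q

/-- The number of points of the projective space `P^4(K)` lying on `F = 0` and on the Hermitian
variety `x^T A x^(q) = 0`. -/
noncomputable def numPts (q : ℕ) (A : Matrix (Fin 5) (Fin 5) K) (F : MvPolynomial (Fin 5) K) : ℕ :=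
  Nat.card {P : Projectivization K (Fin 5 → K) //
    MvPolynomial.eval P.rep F = 0 ∧ hform q A P.rep P.rep = 0}

/-- The set of solutions of the linear equation with coefficient vector `l`. -/
def hyp (l : Fin 5 → K) : Set (Fin 5 → K) := {x | ∑ i, l i * x i = 0}

/-- `H` is the tangent hyperplane `{x : x^T A P^(q) = 0}` at some point `P` of the Hermitian
variety. -/
def IsTangent (q : ℕ) (A : Matrix (Fin 5) (Fin 5) K) (H : Set (Fin 5 → K)) : Prop :=
  ∃ P : Fin 5 → K, P ≠ 0 ∧ hform q A P P = 0 ∧ H = {x | hform q A x P = 0}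

/-- The restriction of the Hermitian form to the subspace `W` is nondegenerate. -/
def NondegOn (q : ℕ) (A : Matrix (Fin 5) (Fin 5) K) (W : Submodule K (Fin 5 → K)) : Prop :=
  ∀ x ∈ W, (∀ y ∈ W, hform q A x y = 0) → x = 0

end Pool.Agent.Work.MP_10b6e9_ag
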