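import Pool.Agent.Work.MP_10b6e9_ag.Main
import Pool.Agent.Work.MP_10b6e9_ag.HDefs

-- merged part: Pool.Agent.Work.MP_10b6e9_ag.EqSimple
section
/-!
The equality case along a generator which is simple in the section by its polar plane.
-/

set_option autoImplicit false

namespace Pool.Agent.Work.MP_10b6e9_ag

open MvPolynomial

section EqSimple

variable {K : Type*} [Field K] [Fintype K] {σ : K →+* K} {q : ℕ}

/-- The directional derivative as a polynomial. -/
noncomputable def dPoly (F : MvPolynomial (Fin 5) K) (u : Fin 5 → K) : MvPolynomial (Fin 5) K :=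
  ∑ i, C (u i) * pderiv i F

omit [Fintype K] in
lemma eval_dPoly (F : MvPolynomial (Fin 5) K) (u p : Fin 5 → K) :
    eval p (dPoly F u) = dirD F u p := by
  simp [dPoly, dirD]

omit [Fintype K] in
lemma dPoly_hom {F : MvPolynomial (Fin 5) K} {d : ℕ} (hF : F.IsHomogeneous d) (u : Fin 5 → K) :
    (dPoly F u).IsHomogeneous (d - 1) :=
  IsHomogeneous.sum _ _ _ fun _ _ => hF.pderiv.C_mul _

lemma eval_eq_zero_of_deg (S : Setup σ q) {n : ℕ} (hn : n ≤ q) {G : MvPolynomial (Fin 5) K}
    (hG : G.IsHomogeneous n) {e0 e1 : Fin 5 → K} {Q : Polynomial K} (hQ : Q.natDegree < n)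
    (hQe : ∀ t, Q.eval t = eval (t • e0 + e1) G) : eval e0 G = 0 := by
  have hq := S.hq
  have hqq : q + 1 < q ^ 2 := by nlinarith only [hq]
  obtain ⟨β, hβ, hβe⟩ := line_poly hG e0 e1
  have hrefl : Q = β.reflect n := by
    apply eq_reflect hQ.le hβ (by rw [S.hcard]; omega)
    intro t ht
    rw [hQe, hβe, ← hom_eval_smul hG]
    congr 2
    rw [smul_add, smul_smul, mul_inv_cancel₀ ht, one_smul]
  have hc : Q.coeff n = eval e0 G := by
    rw [hrefl, Polynomial.coeff_reflect, Polynomial.revAt_le le_rfl, Nat.sub_self,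
      Polynomial.coeff_zero_eq_eval_zero, hβe]
    simp
  rw [← hc]
  exact Polynomial.coeff_eq_zero_of_natDegree_lt hQ

open Classical in
/-- In the extremal case all local estimates along a simple generator are sharp. -/
lemma simple_eq (S : Setup σ q) {d' : ℕ} (hd : d' + 1 ≤ q) {F : MvPolynomial (Fin 5) K}
    (hF : F.IsHomogeneous (d' + 1))
    (hT : ∀ e0 e1 e2 e3, Frame σ e0 e1 e2 e3 → ∃ v, herm σ v e0 = 0 ∧ eval v F ≠ 0)
    {p0 p1 u : Fin 5 → K} (hfl : Flag σ p0 p1 u) (hvan : VanL F p0 p1) {t0 : K}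
    (ht0 : dirD F u (p0 + t0 • p1) ≠ 0)
    (hN : (q ^ 2 - 1) * ((d' + 1) * (q ^ 5 + q ^ 2) + q ^ 3 + 1) ≤
      (iso σ fun v => eval v F = 0).card)
    {w : Option K → Fin 5 → K} (hw : ∀ o, Frame σ (pt p0 p1 o) (cp p0 p1 o) u (w o)) :
    (∀ o, (d' + 1) * q ^ 3 ≤
      locN q (fun v => eval v F = 0) (pt p0 p1 o) (cp p0 p1 o) u (w o) + d' * q) ∧
      (1 ≤ d' → ∃ o, dirD F u (pt p0 p1 o) = 0) := by
  have hq := S.hq
  have hqq : q + 1 < q ^ 2 := by nlinarith only [hq]
  have hk : (Finset.univ.filter fun o => eval (pt p0 p1 o) F = 0).card ≤ q ^ 2 + 1 := by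
    refine (Finset.card_filter_le _ _).trans ?_
    rw [Finset.card_univ, Fintype.card_option, S.hcard]
  have hcov := cover S.hσ S.hσq w hw (fun v => eval v F = 0) (hom_scale hF)
  rw [S.hcard] at hcov
  replace hcov := Nat.le_of_mul_le_mul_left (hN.trans hcov) (by omega)
  choose δ k hδ hQ h1 h2 using fun o => local_F S hd hF (hw o) (hT _ _ _ _ (hw o)) (hvan.pt o)
  choose Q hQ hQe using hQ
  have hδ' : ∀ o, δ o + k o = d' := fun o => by have := hδ o; omega
  have hα0 : Q none ≠ 0 := by
    intro h0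
    apply ht0
    have := hQe none t0
    rw [h0, Polynomial.eval_zero] at this
    rw [add_comm]
    exact this.symm
  have hmult : ∀ a : K, k (some a) ≤ (Q none).rootMultiplicity a := by
    intro a
    rw [Polynomial.le_rootMultiplicity_iff hα0, Polynomial.X_sub_C_pow_dvd_iff]
    have hrefl : (Q none).comp (Polynomial.X + Polynomial.C a) = (Q (some a)).reflect d' := by
      apply eq_reflect
      · refine Polynomial.natDegree_comp_le.trans ?_
        rw [Polynomial.natDegree_X_add_C, mul_one]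
        have := hQ none
        have := hδ' none
        omega
      · have := hQ (some a)
        have := hδ' (some a)
        omega
      · rw [S.hcard]; omega
      · intro y hy
        rw [Polynomial.eval_comp, hQe, hQe]
        have := dirD_smul hF u (y⁻¹ • pt p0 p1 (some a) + cp p0 p1 (some a)) y
        rw [Nat.add_sub_cancel] at this
        rw [← this]
        congr 1
        simp only [pt, cp, Polynomial.eval_add, Polynomial.eval_X, Polynomial.eval_C, smul_add,
          smul_smul, mul_inv_cancel₀ hy, mul_inv_cancel_left₀ hy]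
        module
    rw [hrefl, Polynomial.X_pow_dvd_iff]
    intro i hi
    have h3 := hδ' (some a)
    have h4 := hQ (some a)
    rw [Polynomial.coeff_reflect, Polynomial.revAt_le (by omega)]
    apply Polynomial.coeff_eq_zero_of_natDegree_lt
    omega
  have hksum : ∑ o, k o ≤ d' := by
    rw [Fintype.sum_option]
    have h3 : ∑ a : K, k (some a) ≤ ∑ a : K, (Q none).roots.count a :=
      Finset.sum_le_sum fun a _ => by rw [Polynomial.count_roots]; exact hmult a
    rw [Multiset.sum_count_eq_card (fun _ _ => Finset.mem_univ _)] at h3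
    have h4 := (Q none).card_roots'
    have h5 := hQ none
    have h6 := hδ' none
    omega
  obtain ⟨N, hNd⟩ : ∃ N : Option K → ℕ, ∀ o,
      N o = locN q (fun v => eval v F = 0) (pt p0 p1 o) (cp p0 p1 o) u (w o) := ⟨_, fun _ => rfl⟩
  simp only [← hNd] at hcov h1 ⊢
  have hloc : ∀ o, N o + d' * q ≤ (d' + 1) * q ^ 3 + k o * ((q + 1) * q) := by
    intro o
    have := h1 o
    rwa [hδ' o, mul_assoc] at this
  have hcard : (Finset.univ : Finset (Option K)).card = q ^ 2 + 1 := by
    rw [Finset.card_univ, Fintype.card_option, S.hcard]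
  have e1 : ∑ o, (N o + d' * q) = ∑ o, N o + (q ^ 2 + 1) * (d' * q) := by
    rw [Finset.sum_add_distrib, Finset.sum_const, hcard, smul_eq_mul]
  have e2 : ∑ o, ((d' + 1) * q ^ 3 + k o * ((q + 1) * q)) =
      (q ^ 2 + 1) * ((d' + 1) * q ^ 3) + (∑ o, k o) * ((q + 1) * q) := by
    rw [Finset.sum_add_distrib, Finset.sum_const, hcard, smul_eq_mul, ← Finset.sum_mul]
  have h7 := Nat.mul_le_mul_right ((q + 1) * q) hksum
  have hle := Finset.sum_le_sum fun o (_ : o ∈ Finset.univ) => hloc o
  have hge : ∑ o, ((d' + 1) * q ^ 3 + k o * ((q + 1) * q)) ≤ ∑ o, (N o + d' * q) := by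
    rw [e1, e2]
    linarith only [hk, hcov, h7]
  refine ⟨fun o => ?_, fun h1d => ?_⟩
  · have := (Finset.sum_eq_sum_iff_of_le fun o (_ : o ∈ Finset.univ) => hloc o).1
      (le_antisymm hle hge) o (Finset.mem_univ _)
    omega
  · by_contra hcon
    push Not at hcon
    have hk0 : ∀ o, k o = 0 := by
      intro o
      by_contra hk0
      apply hcon o
      rw [← eval_dPoly]
      have hh := dPoly_hom hF u
      rw [Nat.add_sub_cancel] at hh
      refine eval_eq_zero_of_deg S (by omega) hh (Q := Q o) (e1 := cp p0 p1 o) ?_ ?_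
      · have := hQ o
        have := hδ' o
        omega
      · intro t
        rw [hQe, eval_dPoly]
    rw [e1, e2] at hle
    simp only [hk0, Finset.sum_const_zero, zero_mul, add_zero] at hle
    obtain ⟨r, rfl⟩ : ∃ r, d' = r + 1 := ⟨d' - 1, by omega⟩
    linarith only [hq, hqq, hk, hcov, hle, Nat.zero_le (r * q), Nat.zero_le (r * q ^ 2)]

end EqSimple

end Pool.Agent.Work.MP_10b6e9_ag
end

-- merged part: Pool.Agent.Work.MP_10b6e9_ag.EqHyper
section
/-!
In the extremal case a simple generator lies in a hyperplane contained in the hypersurface.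
-/

set_option autoImplicit false

namespace Pool.Agent.Work.MP_10b6e9_ag

open MvPolynomial

section EqHyper

variable {K : Type*} [Field K] [Fintype K] {σ : K →+* K} {q : ℕ}

omit [Fintype K] in
lemma dirD_add (F : MvPolynomial (Fin 5) K) (u u' p : Fin 5 → K) :
    dirD F (u + u') p = dirD F u p + dirD F u' p := by
  simp [dirD, add_mul, Finset.sum_add_distrib]

omit [Fintype K] in
lemma dirD_smul_left (F : MvPolynomial (Fin 5) K) (c : K) (u p : Fin 5 → K) :
    dirD F (c • u) p = c * dirD F u p := by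
  simp [dirD, Finset.mul_sum, mul_assoc]

/-- A form vanishing on a plane has vanishing derivatives along the plane. -/
lemma dirD_of_plane {d : ℕ} (hd : d ≤ Fintype.card K) {F : MvPolynomial (Fin 5) K}
    (hF : F.IsHomogeneous d) {a b c : Fin 5 → K}
    (h : ∀ t y z : K, eval (t • a + y • b + z • c) F = 0) (t y : K) :
    dirD F c (t • a + y • b) = 0 := by
  have hs : ∀ v : Fin 4 → K, ∑ j, v j • ![a, b, c, 0] j = v 0 • a + v 1 • b + v 2 • c := by
    intro v
    simp [Fin.sum_univ_four]
  have h0 : restr F ![a, b, c, 0] = 0 :=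
    hom_eq_zero (restr_hom hF _) (fun v => by rw [eval_restr, hs, h]) hd
  have := eval_pderiv_restr F ![a, b, c, 0] ![t, y, 0, 0] 2
  rw [h0, map_zero, map_zero, hs] at this
  simpa using this.symm

lemma VanL.dirD {d : ℕ} (hd : d ≤ Fintype.card K) {F : MvPolynomial (Fin 5) K}
    (hF : F.IsHomogeneous d) {a b : Fin 5 → K} (h : VanL F a b) (s r t y : K) :
    dirD F (s • a + r • b) (t • a + y • b) = 0 := by
  refine dirD_of_plane hd hF (fun t y z => ?_) t y
  rw [← h (t + z * s) (y + z * r)]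
  congr 2
  module

open Classical in
/-- At a smooth point where the local estimate is sharp, the tangent plane is contained in the
hypersurface. -/
lemma plane_van (S : Setup σ q) {d' : ℕ} (hd : d' + 1 ≤ q) {F : MvPolynomial (Fin 5) K}
    (hF : F.IsHomogeneous (d' + 1)) {e0 e1 e2 e3 : Fin 5 → K} (hl : VanL F e0 e1)
    (hD : dirD F e2 e0 ≠ 0)
    (hN : (d' + 1) * q ^ 3 ≤ locN q (fun v => eval v F = 0) e0 e1 e2 e3 + d' * q) :
    ∃ a : K, ∀ t y z : K, eval (t • e0 + y • e1 + z • (a • e2 + e3)) F = 0 := by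
  have hq := S.hq
  have hqq : q + 1 < q ^ 2 := by nlinarith only [hq]
  have hdK : d' + 1 ≤ Fintype.card K := by rw [S.hcard]; omega
  have he0 : eval e0 F = 0 := by simpa using hl 1 0
  have he1 : eval e1 F = 0 := by simpa using hl 0 1
  set Z := (hpts K q).filter (fun z => VanL F (z.2 • e1 + z.1 • e2 + e3) e0) with hZ
  have hcount : locN q (fun v => eval v F = 0) e0 e1 e2 e3 + Z.card * d' ≤
      q ^ 3 * d' + Z.card * q ^ 2 := by
    have h1 : locN q (fun v => eval v F = 0) e0 e1 e2 e3 + Z.card * d' = ∑ z ∈ hpts K q,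
          ((Finset.univ.filter fun t : K =>
            eval (t • e0 + z.2 • e1 + z.1 • e2 + e3) F = 0).card +
            if VanL F (z.2 • e1 + z.1 • e2 + e3) e0 then d' else 0) := by
      rw [Finset.sum_add_distrib, ← Finset.sum_filter, Finset.sum_const, smul_eq_mul, locN]
    have h2 : (hpts K q).card * d' + Z.card * q ^ 2 = ∑ z ∈ hpts K q,
          (d' + if VanL F (z.2 • e1 + z.1 • e2 + e3) e0 then q ^ 2 else 0) := by
      rw [Finset.sum_add_distrib, ← Finset.sum_filter, Finset.sum_const, Finset.sum_const,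
        smul_eq_mul, smul_eq_mul]
    have h3 := Nat.mul_le_mul_right d' (card_hpts hq S.hcard)
    rw [h1]
    refine le_trans ?_ (Nat.add_le_add_right h3 _)
    rw [h2]
    apply Finset.sum_le_sum
    intro z _
    split_ifs with h
    · have := Finset.card_filter_le Finset.univ
        (fun t : K => eval (t • e0 + z.2 • e1 + z.1 • e2 + e3) F = 0)
      rw [Finset.card_univ, S.hcard] at this
      omega
    · have := card_line_le S hd hF h
      rw [card_pt_filter (fun v => eval v F = 0), if_pos he0] at this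
      have e : (Finset.univ.filter fun t : K =>
          eval (t • e0 + z.2 • e1 + z.1 • e2 + e3) F = 0) =
          Finset.univ.filter fun t : K => eval (z.2 • e1 + z.1 • e2 + e3 + t • e0) F = 0 := by
        ext t
        have e : z.2 • e1 + z.1 • e2 + e3 + t • e0 = t • e0 + z.2 • e1 + z.1 • e2 + e3 := by
          module
        simp only [Finset.mem_filter, e]
      rw [e]
      omega
  have hZq : q ≤ Z.card := by
    by_contra hlt
    obtain ⟨e, he⟩ : ∃ e, q ^ 2 = d' + e + 1 := ⟨q ^ 2 - d' - 1, by omega⟩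
    have h1 : Z.card + 1 ≤ q := by omega
    generalize Z.card = n at *
    generalize locN q (fun v => eval v F = 0) e0 e1 e2 e3 = N at *
    have h2 : (n + 1) * (e + 1) ≤ q * (e + 1) := Nat.mul_le_mul_right _ h1
    have h3 : q ^ 3 = q * (d' + e + 1) := by rw [← he]; ring
    rw [he] at hcount
    linarith only [hd, hqq, he, hN, hcount, h2, h3]
  have hD1 : dirD F e1 e0 = 0 := by simpa using hl.dirD hdK hF 0 1 1 0
  refine ⟨-dirD F e3 e0 / dirD F e2 e0, ?_⟩
  have ha : ∀ z ∈ Z, z.1 = -dirD F e3 e0 / dirD F e2 e0 := by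
    intro z hz
    have h1 := (Finset.mem_filter.1 hz).2.dirD hdK hF 1 0 0 1
    simp only [one_smul, zero_smul, add_zero, zero_add, dirD_add, dirD_smul_left, hD1] at h1
    field_simp
    linear_combination h1
  generalize -dirD F e3 e0 / dirD F e2 e0 = a at ha
  have key : ∀ t : K, VanL F (t • e0 + (a • e2 + e3)) e1 := by
    intro t
    by_contra hcon
    have h1 := card_line_le S hd hF hcon
    rw [card_pt_filter (fun v => eval v F = 0), if_pos he1] at h1
    have h2 : Z.card ≤ (Finset.univ.filter fun y : K =>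
        eval (t • e0 + (a • e2 + e3) + y • e1) F = 0).card := by
      apply Finset.card_le_card_of_injOn (fun z => z.2)
      · intro z hz
        have h3 := (Finset.mem_filter.1 hz).2 1 t
        simp only [Finset.coe_filter, Finset.mem_univ, true_and, Set.mem_ofPred_eq]
        rw [← h3, ha z hz]
        congr 2
        module
      · intro z hz z' hz' h
        exact Prod.ext ((ha z hz).trans (ha z' hz').symm) h
    omega
  intro t y z
  by_cases hz : z = 0
  · simpa [hz] using hl t y
  · rw [← key (t / z) z y]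
    congr 2
    rw [smul_add z (_ • e0), smul_smul, mul_div_cancel₀ _ hz]
    module

open Classical in
lemma hyperplane_of_simple (S : Setup σ q) {d' : ℕ} (hd : d' + 1 ≤ q)
    {F : MvPolynomial (Fin 5) K} (hF : F.IsHomogeneous (d' + 1))
    (hT : ∀ e0 e1 e2 e3, Frame σ e0 e1 e2 e3 → ∃ v, herm σ v e0 = 0 ∧ eval v F ≠ 0)
    {p0 p1 u : Fin 5 → K} (hfl : Flag σ p0 p1 u) (hvan : VanL F p0 p1) {t0 : K}
    (ht0 : dirD F u (p0 + t0 • p1) ≠ 0)
    (hN : (q ^ 2 - 1) * ((d' + 1) * (q ^ 5 + q ^ 2) + q ^ 3 + 1) ≤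
      (iso σ fun v => eval v F = 0).card) :
    ∃ e0 w0, herm σ w0 e0 = 1 ∧ herm σ p0 e0 = 0 ∧ herm σ p1 e0 = 0 ∧
      ∀ v, herm σ v e0 = 0 → eval v F = 0 := by
  have hq := S.hq
  have hqq : q + 1 < q ^ 2 := by nlinarith only [hq]
  have hdK : d' + 1 ≤ Fintype.card K := by rw [S.hcard]; omega
  obtain ⟨w, hw⟩ := S.frames hfl
  have htight := (simple_eq S hd hF hT hfl hvan ht0 hN hw).1
  set P := p0 + t0 • p1 with hP
  set e0 : Fin 5 → K := fun i => σ (eval P (pderiv i F)) with he0
  have hL : ∀ v, herm σ v e0 = dirD F v P := fun v => by simp [herm, dirD, he0, S.hσ]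
  have hP' : P = (1 : K) • p0 + t0 • p1 := by rw [one_smul]
  have L0 : herm σ p0 e0 = 0 := by
    rw [hL, hP']; simpa using hvan.dirD hdK hF 1 0 1 t0
  have L1 : herm σ p1 e0 = 0 := by
    rw [hL, hP']; simpa using hvan.dirD hdK hF 0 1 1 t0
  have Lu : herm σ u e0 ≠ 0 := by rwa [hL]
  refine ⟨e0, (herm σ u e0)⁻¹ • u, by rw [herm_smul_left, inv_mul_cancel₀ Lu], L0, L1, ?_⟩
  -- the good points
  set Gd := Finset.univ.filter fun a : K => dirD F u (p0 + a • p1) ≠ 0 with hGd
  have hGdc : q ^ 2 ≤ Gd.card + d' := by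
    have hh := dPoly_hom hF u
    rw [Nat.add_sub_cancel] at hh
    obtain ⟨α, hα, hαe⟩ := line_poly hh p0 p1
    have hα0 : α ≠ 0 := by
      intro h0
      apply ht0
      rw [← eval_dPoly, hP, ← hαe, h0, Polynomial.eval_zero]
    have h1 := card_filter_eval_le α hα0
    simp only [hαe, eval_dPoly] at h1
    have h2 := Finset.card_filter_add_card_filter_not (s := Finset.univ)
      (fun a : K => dirD F u (p0 + a • p1) = 0)
    rw [Finset.card_univ, S.hcard] at h2
    simp only [hGd, ne_eq]
    omega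
  have hq2 : 2 * q ≤ q ^ 2 := by nlinarith only [hq]
  have hgood : ∀ a ∈ Gd, ∃ r, herm σ r e0 = 0 ∧ herm σ r (p0 + a • p1) = 0 ∧ herm σ r p1 = 1 ∧
      ∀ v, herm σ v e0 = 0 → herm σ v (p0 + a • p1) = 0 → eval v F = 0 := by
    intro a ha
    have hD : dirD F u (p0 + a • p1) ≠ 0 := (Finset.mem_filter.1 ha).2
    have fr : Frame σ (p0 + a • p1) p1 u (w (some a)) := hw (some a)
    obtain ⟨b, hb⟩ := plane_van S hd hF (hvan.pt (some a)) hD (htight (some a))
    simp only [pt, cp] at hb
    have hr : herm σ (b • u + w (some a)) e0 = 0 := by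
      rw [hL, ← dirD_of_plane hdK hF hb 1 (t0 - a), hP]
      congr 1
      module
    refine ⟨b • u + w (some a), hr, ?_, ?_, fun v hv hv' => ?_⟩
    · rw [herm_add_left, herm_smul_left, fr.h30, fr.flag.hu0]; ring
    · rw [herm_add_left, herm_smul_left, fr.h31, fr.flag.hu1]; ring
    · obtain ⟨t, y, x, z, rfl⟩ := fr.span v hv'
      simp only [herm_add_left, herm_smul_left, L0, L1] at hv hr
      have hx : x = z * b := by
        apply mul_right_cancel₀ Lu
        linear_combination hv - z * hr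
      rw [← hb t y z, hx]
      congr 2
      module
  obtain ⟨a1, ha1, a2, ha2, h12⟩ := Finset.one_lt_card.1 (show 1 < Gd.card by omega)
  obtain ⟨r1, hr1, hr1', hr1'', -⟩ := hgood a1 ha1
  obtain ⟨r2, hr2, hr2', hr2'', -⟩ := hgood a2 ha2
  rw [herm_add_right, herm_smul_right] at hr1' hr2'
  have hc : σ a2 - σ a1 ≠ 0 := fun h => h12 (σ.injective (sub_eq_zero.1 h)).symm
  set e := (σ a2 - σ a1)⁻¹ • (r1 - r2) with he
  have ee : herm σ e e0 = 0 := by rw [he, herm_smul_left, herm_sub_left, hr1, hr2]; ring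
  have e1 : herm σ e p1 = 0 := by rw [he, herm_smul_left, herm_sub_left, hr1'', hr2'']; ring
  have e0' : herm σ e p0 = 1 := by
    rw [he, herm_smul_left, herm_sub_left]
    rw [hr1''] at hr1'
    rw [hr2''] at hr2'
    field_simp
    linear_combination hr1' - hr2'
  have hzero : ∀ (v r : Fin 5 → K) (T : Finset K), d' + 1 < T.card + 1 → d' + 1 ≠ T.card →
      (∀ s ∈ T, eval (v + s • r) F = 0) → eval v F = 0 := by
    intro v r T h1 h2 h3
    obtain ⟨α, hα, hαe⟩ := line_poly hF v r
    have : α = 0 := Polynomial.eq_zero_of_natDegree_lt_card_of_eval_eq_zero' α T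
      (fun s hs => by rw [hαe]; exact h3 s hs) (by omega)
    simpa [this] using (hαe 0).symm
  have step : ∀ v, herm σ v e0 = 0 → herm σ v p1 ≠ 0 → eval v F = 0 := by
    intro v hv hv1
    have hinj : Function.Injective fun a : K => -herm σ v p0 - σ a * herm σ v p1 := by
      intro a a' h
      simp only at h
      apply σ.injective
      apply mul_right_cancel₀ hv1
      linear_combination -h
    refine hzero v e (Gd.image fun a : K => -herm σ v p0 - σ a * herm σ v p1) ?_ ?_ ?_
    · rw [Finset.card_image_of_injective _ hinj]; omega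
    · rw [Finset.card_image_of_injective _ hinj]; omega
    · intro s hs
      obtain ⟨a, ha, rfl⟩ := Finset.mem_image.1 hs
      obtain ⟨-, -, -, -, h⟩ := hgood a ha
      apply h
      · rw [herm_add_left, herm_smul_left, hv, ee]; ring
      · simp only [herm_add_left, herm_smul_left, herm_add_right, herm_smul_right, e1, e0']
        ring
  intro v hv
  by_cases hv1 : herm σ v p1 = 0
  · refine hzero v r1 (Finset.univ.erase 0) ?_ ?_ fun s hs => step _ ?_ ?_
    · rw [Finset.card_erase_of_mem (Finset.mem_univ _), Finset.card_univ, S.hcard]; omega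
    · rw [Finset.card_erase_of_mem (Finset.mem_univ _), Finset.card_univ, S.hcard]; omega
    · rw [herm_add_left, herm_smul_left, hv, hr1]; ring
    · rw [herm_add_left, herm_smul_left, hv1, hr1'']
      simpa using Finset.ne_of_mem_erase hs
  · exact step v hv hv1

end EqHyper

end Pool.Agent.Work.MP_10b6e9_ag
end

-- merged part: Pool.Agent.Work.MP_10b6e9_ag.Final
section
-- merged part: Pool.Agent.Work.MP_10b6e9_ag.EqSplit
section
/-!
In the extremal case the form splits into linear factors.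
-/

set_option autoImplicit false

namespace Pool.Agent.Work.MP_10b6e9_ag

open MvPolynomial

section EqSplit

variable {K : Type*} [Field K] [Fintype K] {σ : K →+* K} {q : ℕ}

/-- The linear form with coefficient vector `l`. -/
noncomputable def lin (l : Fin 5 → K) : MvPolynomial (Fin 5) K := ∑ i, C (l i) * X i

omit [Fintype K] in
lemma lin_hom (l : Fin 5 → K) : (lin l).IsHomogeneous 1 :=
  IsHomogeneous.sum _ _ _ fun _ _ => isHomogeneous_C_mul_X _ _

omit [Fintype K] in
lemma eval_lin (l v : Fin 5 → K) : eval v (lin l) = ∑ i, l i * v i := by simp [lin]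

omit [Fintype K] in
lemma eval_lin_herm (e v : Fin 5 → K) : eval v (lin fun i => σ (e i)) = herm σ v e := by
  simp [lin, herm, mul_comm]

omit [Fintype K] in
lemma dirD_lin_mul (l : Fin 5 → K) (G : MvPolynomial (Fin 5) K) (u p : Fin 5 → K)
    (hp : eval p (lin l) = 0) : dirD (lin l * G) u p = eval u (lin l) * eval p G := by
  classical
  have h1 : ∀ i, pderiv i (lin l) = C (l i) := by
    intro i
    rw [lin, map_sum, Finset.sum_eq_single i]
    · simp
    · intro b _ hb
      rw [pderiv_C_mul, pderiv_X_of_ne hb, mul_zero]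
    · simp
  simp only [dirD, pderiv_mul, map_add, map_mul, h1, hp, eval_C, zero_mul, add_zero]
  rw [eval_lin, Finset.sum_mul]
  exact Finset.sum_congr rfl fun i _ => by ring

open Classical in
lemma card_hpts_fiber (hq : 2 ≤ q) (a : K) : ((hpts K q).filter fun z => z.1 = a).card ≤ q := by
  let p : Polynomial K := Polynomial.X ^ q + (Polynomial.X + Polynomial.C (a ^ (q + 1)))
  have hdeg : (Polynomial.X + Polynomial.C (a ^ (q + 1)) : Polynomial K).natDegree <
      (Polynomial.X ^ q : Polynomial K).natDegree := by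
    rw [Polynomial.natDegree_X_add_C, Polynomial.natDegree_X_pow]; omega
  have hpd : p.natDegree = q := by
    simp only [p]
    rw [Polynomial.natDegree_add_eq_left_of_natDegree_lt hdeg, Polynomial.natDegree_X_pow]
  have hp : p ≠ 0 := by
    intro h; rw [h, Polynomial.natDegree_zero] at hpd; omega
  refine le_trans ?_ ((card_filter_eval_le p hp).trans hpd.le)
  apply Finset.card_le_card_of_injOn (fun z => z.2)
  · intro z hz
    simp only [Finset.coe_filter, Set.mem_ofPred_eq, mem_hpts] at hz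
    simp only [Finset.coe_filter, Finset.mem_univ, true_and, Set.mem_ofPred_eq, p,
      Polynomial.eval_add, Polynomial.eval_pow, Polynomial.eval_X, Polynomial.eval_C]
    rw [← hz.2]
    linear_combination hz.1
  · intro z hz z' hz' h
    simp only [Finset.coe_filter, Set.mem_ofPred_eq] at hz hz'
    exact Prod.ext (hz.2.trans hz'.2.symm) h

open Classical in
/-- The zeros of the cofactor meet every generator of the hyperplane. -/
lemma off_bound (S : Setup σ q) {d' : ℕ} (hd : d' + 1 ≤ q) (h1d : 1 ≤ d')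
    {F G : MvPolynomial (Fin 5) K} (hF : F.IsHomogeneous (d' + 1)) (hG : G.IsHomogeneous d')
    {e0 : Fin 5 → K} (hFG : F = lin (fun i => σ (e0 i)) * G)
    (hT : ∀ e0 e1 e2 e3, Frame σ e0 e1 e2 e3 → ∃ v, herm σ v e0 = 0 ∧ eval v F ≠ 0)
    (hN : (q ^ 2 - 1) * ((d' + 1) * (q ^ 5 + q ^ 2) + q ^ 3 + 1) ≤
      (iso σ fun v => eval v F = 0).card)
    (hex : ∃ p0 p1 u, Flag σ p0 p1 u ∧ herm σ p0 e0 = 0 ∧ herm σ p1 e0 = 0) :
    (iso σ fun v => herm σ v e0 = 0 ∧ eval v G ≠ 0).card ≤ (q ^ 2 - 1) * (q ^ 5 + q ^ 2) := by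
  have hq := S.hq
  obtain ⟨P, hP⟩ : ∃ P : (Fin 5 → K) → Prop, P = fun v => herm σ v e0 = 0 ∧ eval v G ≠ 0 :=
    ⟨_, rfl⟩
  rw [← hP]
  have hFe : ∀ v, eval v F = herm σ v e0 * eval v G := fun v => by
    rw [hFG, map_mul, eval_lin_herm]
  let kk : (Fin 5 → K) → (Fin 5 → K) → ℕ := fun p0 p1 =>
    (Finset.univ.filter fun o => P (pt p0 p1 o)).card
  obtain ⟨⟨p0, p1, u⟩, hx, hmax⟩ := Finset.exists_max_image
    (Finset.univ.filter fun x : (Fin 5 → K) × (Fin 5 → K) × (Fin 5 → K) =>
      Flag σ x.1 x.2.1 x.2.2 ∧ herm σ x.1 e0 = 0 ∧ herm σ x.2.1 e0 = 0)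
    (fun x => kk x.1 x.2.1) (by
      obtain ⟨p0, p1, u, hf⟩ := hex
      exact ⟨(p0, p1, u), by simpa using hf⟩)
  obtain ⟨hfl, L0, L1⟩ : Flag σ p0 p1 u ∧ herm σ p0 e0 = 0 ∧ herm σ p1 e0 = 0 := by simpa using hx
  have hmax' : ∀ a b c, Flag σ a b c → herm σ a e0 = 0 → herm σ b e0 = 0 → kk a b ≤ kk p0 p1 :=
    fun a b c h1 h2 h3 => hmax (a, b, c) (by simpa using ⟨h1, h2, h3⟩)
  obtain ⟨w, hw⟩ := S.frames hfl
  have hcov := cover S.hσ S.hσq w hw P (by
    intro c v hc hv
    rw [hP] at hv ⊢
    simp only [herm_smul_left, hom_eval_smul hG] at hv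
    exact ⟨(mul_eq_zero.1 hv.1).resolve_left hc, right_ne_zero_of_mul hv.2⟩)
  rw [S.hcard] at hcov
  refine hcov.trans (Nat.mul_le_mul_left _ ?_)
  have Lpt : ∀ o, herm σ (pt p0 p1 o) e0 = 0 := by
    intro o
    cases o <;> simp [pt, herm_add_left, herm_smul_left, L0, L1]
  have Lcp : ∀ o, herm σ (cp p0 p1 o) e0 = 0 := by
    intro o
    cases o <;> simp [cp, L0, L1]
  have hcard : (Finset.univ : Finset (Option K)).card = q ^ 2 + 1 := by
    rw [Finset.card_univ, Fintype.card_option, S.hcard]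
  by_cases Lu : herm σ u e0 = 0
  · have h0 : ∀ o, locN q P (pt p0 p1 o) (cp p0 p1 o) u (w o) = 0 := by
      intro o
      have Lw : herm σ (w o) e0 ≠ 0 := by
        intro h
        obtain ⟨v, hv, hvF⟩ := hT _ _ _ _ (hw o)
        obtain ⟨t, y, x, z, rfl⟩ := (hw o).span v hv
        apply hvF
        rw [hFe]
        simp [herm_add_left, herm_smul_left, Lpt, Lcp, Lu, h]
      rw [locN]
      refine Finset.sum_eq_zero fun z _ => ?_
      rw [Finset.card_eq_zero, Finset.filter_eq_empty_iff]
      intro t _ ht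
      rw [hP] at ht
      apply Lw
      simpa [herm_add_left, herm_smul_left, Lpt, Lcp, Lu] using ht.1
    simp only [h0, Finset.sum_const_zero, add_zero]
    refine (Finset.card_filter_le _ _).trans ?_
    rw [hcard]
    have : 1 ≤ q ^ 5 := Nat.one_le_pow _ _ (by omega)
    omega
  · have hvan : VanL F p0 p1 := fun t y => by
      rw [hFe]; simp [herm_add_left, herm_smul_left, L0, L1]
    have hD : ∀ o, dirD F u (pt p0 p1 o) = herm σ u e0 * eval (pt p0 p1 o) G := fun o => by
      rw [hFG, dirD_lin_mul _ _ _ _ (by rw [eval_lin_herm, Lpt]), eval_lin_herm]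
    have hblock : ∃ o, eval (pt p0 p1 o) G = 0 := by
      suffices h : ∃ o, dirD F u (pt p0 p1 o) = 0 by
        obtain ⟨o, ho⟩ := h
        rw [hD] at ho
        exact ⟨o, (mul_eq_zero.1 ho).resolve_left Lu⟩
      by_cases h : dirD F u (p0 + (0 : K) • p1) = 0
      · exact ⟨some 0, h⟩
      · exact (simple_eq S hd hF hT hfl hvan h hN hw).2 h1d
    have hk : kk p0 p1 ≤ q ^ 2 := by
      obtain ⟨o, ho⟩ := hblock
      have : kk p0 p1 < (Finset.univ : Finset (Option K)).card := by
        refine Finset.card_lt_card (Finset.filter_ssubset.2 ⟨o, Finset.mem_univ _, ?_⟩)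
        rw [hP]
        exact fun h => h.2 ho
      omega
    have hloc : ∀ o, locN q P (pt p0 p1 o) (cp p0 p1 o) u (w o) +
        q * (if P (pt p0 p1 o) then 1 else 0) ≤ q * kk p0 p1 := by
      intro o
      have hind : (if P (pt p0 p1 o) then 1 else 0) ≤ kk p0 p1 := by
        split_ifs with h
        · exact Finset.card_pos.2 ⟨o, by simpa using h⟩
        · exact Nat.zero_le _
      obtain ⟨j, hj⟩ := Nat.exists_eq_add_of_le hind
      rw [hj, mul_add, add_comm]
      refine Nat.add_le_add_left ?_ _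
      rw [locN, ← Finset.sum_filter_add_sum_filter_not (hpts K q)
        (fun z => z.1 = -herm σ (w o) e0 / herm σ u e0)]
      rw [Finset.sum_eq_zero (s := (hpts K q).filter fun z => ¬ _), add_zero]
      · refine (Finset.sum_le_card_nsmul _ _ j fun z hz => ?_).trans ?_
        · obtain ⟨hz1, hz2⟩ := Finset.mem_filter.1 hz
          have := hmax' _ _ _ (S.flag_of_point (hw o) hz1) (by
            simp only [herm_add_left, herm_smul_left, Lcp, hz2]
            field_simp
            ring) (Lpt o)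
          rw [hj] at this
          simp only [kk] at this
          rw [card_pt_filter P] at this
          refine le_trans (le_of_eq ?_) (Nat.le_of_add_le_add_left this)
          congr 1
          ext t
          have e : z.2 • cp p0 p1 o + z.1 • u + w o + t • pt p0 p1 o =
            t • pt p0 p1 o + z.2 • cp p0 p1 o + z.1 • u + w o := by module
          simp only [Finset.mem_filter, e]
        · rw [smul_eq_mul]
          exact Nat.mul_le_mul_right _ (card_hpts_fiber hq _)
      · intro z hz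
        rw [Finset.card_eq_zero, Finset.filter_eq_empty_iff]
        intro t _ ht
        rw [hP] at ht
        apply (Finset.mem_filter.1 hz).2
        have := ht.1
        simp only [herm_add_left, herm_smul_left, Lpt, Lcp] at this
        field_simp
        linear_combination this
    have hsum := Finset.sum_le_sum fun o (_ : o ∈ Finset.univ) => hloc o
    rw [Finset.sum_add_distrib, ← Finset.mul_sum, ← Finset.card_filter, Finset.sum_const,
      hcard, smul_eq_mul] at hsum
    change kk p0 p1 + _ ≤ _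
    change _ + q * kk p0 p1 ≤ _ at hsum
    generalize (∑ o, locN q P (pt p0 p1 o) (cp p0 p1 o) u (w o)) = N at hsum ⊢
    generalize kk p0 p1 = k at hsum hk ⊢
    have h1 : N ≤ q ^ 3 * k := by linarith only [hsum]
    have h2 : q ^ 3 * k ≤ q ^ 3 * q ^ 2 := Nat.mul_le_mul_left _ hk
    linarith only [hsum, hk, h2]

/-- `F` is a constant times a product of `d` linear forms. -/
def Splits (F : MvPolynomial (Fin 5) K) (d : ℕ) : Prop :=
  ∃ (c : K) (l : Fin d → Fin 5 → K), F = C c * ∏ i, lin (l i)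

omit [Fintype K] in
lemma Splits.zero {F : MvPolynomial (Fin 5) K} (hF : F.IsHomogeneous 0) : Splits F 0 := by
  obtain ⟨c, hc⟩ : ∃ c, F = C c := ⟨_, totalDegree_eq_zero_iff_eq_C.1
    (Nat.le_zero.1 hF.totalDegree_le)⟩
  exact ⟨c, Fin.elim0, by simp [hc]⟩

omit [Fintype K] in
lemma Splits.succ {G : MvPolynomial (Fin 5) K} {d : ℕ} (h : Splits G d) (l : Fin 5 → K) :
    Splits (lin l * G) (d + 1) := by
  obtain ⟨c, m, rfl⟩ := h
  exact ⟨c, Fin.cons l m, by simp only [Fin.prod_univ_succ, Fin.cons_zero, Fin.cons_succ]; ring⟩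

open Classical in
theorem splits_of_extremal (S : Setup σ q) (d : ℕ) : ∀ F : MvPolynomial (Fin 5) K, F ≠ 0 →
    F.IsHomogeneous d → d ≤ q →
    (q ^ 2 - 1) * (d * (q ^ 5 + q ^ 2) + q ^ 3 + 1) ≤ (iso σ fun v => eval v F = 0).card →
    Splits F d := by
  have hq := S.hq
  have hqq : q + 1 < q ^ 2 := by nlinarith only [hq]
  have hr : 0 < q ^ 2 - 1 := by omega
  induction d with
  | zero => exact fun F _ hF _ _ => Splits.zero hF
  | succ d ih =>
    intro F hF0 hF hd hN
    rcases Nat.eq_zero_or_pos d with rfl | h1d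
    · -- a linear form
      refine ⟨1, fun _ i => eval (Pi.single i 1) F, ?_⟩
      rw [map_one, one_mul, Fin.prod_univ_succ, Fin.prod_univ_zero, mul_one, ← sub_eq_zero]
      refine hom_eq_zero (hF.sub (lin_hom _)) (fun v => ?_) (by rw [S.hcard]; omega)
      have h1 := hF.sum_X_mul_pderiv
      have h2 : ∀ i, ∃ c, pderiv i F = C c := fun i => ⟨_, totalDegree_eq_zero_iff_eq_C.1
        (Nat.le_zero.1 (hF.pderiv (i := i)).totalDegree_le)⟩
      choose c hc using h2
      have h3 : ∀ v : Fin 5 → K, eval v F = ∑ i, c i * v i := by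
        intro v
        have := congrArg (eval v) h1
        simp only [hc, map_sum, map_mul, eval_X, eval_C, zero_add, one_smul] at this
        rw [← this]
        exact Finset.sum_congr rfl fun i _ => mul_comm _ _
      rw [map_sub, eval_lin, h3 v, sub_eq_zero]
      refine Finset.sum_congr rfl fun i _ => ?_
      change _ = eval (Pi.single i 1) F * v i
      rw [h3, Finset.sum_eq_single i] <;> simp +contextual [Pi.single_apply]
    -- it suffices to split off a linear factor with few further points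
    suffices h : ∃ (l : Fin 5 → K) (G : MvPolynomial (Fin 5) K), G.IsHomogeneous d ∧
        F = lin l * G ∧ (iso σ fun v => eval v F = 0).card ≤
          (iso σ fun v => eval v G = 0).card + (q ^ 2 - 1) * (q ^ 5 + q ^ 2) by
      obtain ⟨l, G, hG, hFG, hle⟩ := h
      have hG0 : G ≠ 0 := by
        rintro rfl
        exact hF0 (by rw [hFG, mul_zero])
      rw [hFG]
      refine (ih G hG0 hG (by omega) ?_).succ l
      generalize q ^ 2 - 1 = r at *
      linarith only [hN, hle]
    by_cases hT : ∀ e0 e1 e2 e3, Frame σ e0 e1 e2 e3 → ∃ v, herm σ v e0 = 0 ∧ eval v F ≠ 0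
    · by_cases h : ∃ p0 p1 u, Flag σ p0 p1 u ∧ VanL F p0 p1
      · by_cases htan : ∀ p0 p1 u, Flag σ p0 p1 u → VanL F p0 p1 →
            ∀ t : K, dirD F u (p0 + t • p1) = 0
        · exfalso
          obtain ⟨p0, p1, u, hfl, hvan⟩ := h
          obtain ⟨w, hw⟩ := S.frames hfl
          have hcov := cover S.hσ S.hσq w hw (fun v => eval v F = 0) (hom_scale hF)
          rw [S.hcard] at hcov
          replace hcov := Nat.le_of_mul_le_mul_left (hN.trans hcov) hr
          choose δ k hδ hQ h1 h2 using fun o =>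
            local_F S hd hF (hw o) (hT _ _ _ _ (hw o)) (hvan.pt o)
          have hloc : ∀ o, locN q (fun v => eval v F = 0) (pt p0 p1 o) (cp p0 p1 o) u (w o) ≤
              (d + 1) * q ^ 3 - d * q := by
            intro o
            have := h2 o htan
            rw [show δ o + k o = d by have := hδ o; omega] at this
            omega
          have hsum := Finset.sum_le_sum fun o (_ : o ∈ Finset.univ) => hloc o
          rw [Finset.sum_const, Finset.card_univ, Fintype.card_option, S.hcard, smul_eq_mul]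
            at hsum
          have hk : (Finset.univ.filter fun o => eval (pt p0 p1 o) F = 0).card ≤ q ^ 2 + 1 := by
            refine (Finset.card_filter_le _ _).trans ?_
            rw [Finset.card_univ, Fintype.card_option, S.hcard]
          obtain ⟨m, hm⟩ : ∃ m, (d + 1) * q ^ 3 = m + d * q :=
            ⟨(d + 1) * q ^ 3 - d * q, by
              have : d * q ≤ (d + 1) * q ^ 3 :=
                Nat.mul_le_mul (by omega) (Nat.le_self_pow (by omega) _)
              omega⟩
          rw [hm, Nat.add_sub_cancel] at hsum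
          have e : (q ^ 2 + 1) * m + (q ^ 2 + 1) * (d * q) = (q ^ 2 + 1) * ((d + 1) * q ^ 3) := by
            rw [hm]; ring
          obtain ⟨r, rfl⟩ : ∃ r, d = r + 1 := ⟨d - 1, by omega⟩
          linarith only [hq, hqq, hk, hsum, hcov, e, Nat.zero_le (r * q), Nat.zero_le (r * q ^ 2)]
        · push Not at htan
          obtain ⟨p0, p1, u, hfl, hvan, t0, ht0⟩ := htan
          obtain ⟨e0, w0, hw0, L0, L1, hv⟩ := hyperplane_of_simple S hd hF hT hfl hvan ht0 hN
          obtain ⟨G, hG, hFG⟩ := exists_factor (by rw [S.hcard]; omega) hF hw0 hv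
          refine ⟨fun i => σ (e0 i), G, hG, hFG, ?_⟩
          refine le_trans ?_ (Nat.add_le_add_left
            (off_bound S hd h1d hF hG hFG hT hN ⟨p0, p1, u, hfl, L0, L1⟩) _)
          refine le_trans (Finset.card_le_card ?_) (Finset.card_union_le _ _)
          intro v hv
          obtain ⟨h1, h2, h3⟩ := mem_iso.1 hv
          by_cases hvG : eval v G = 0
          · exact Finset.mem_union_left _ (mem_iso.2 ⟨h1, hvG, h3⟩)
          · refine Finset.mem_union_right _ (mem_iso.2 ⟨h1, ⟨?_, hvG⟩, h3⟩)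
            rw [hFG, map_mul] at h2
            rw [← eval_lin_herm]
            exact (mul_eq_zero.1 h2).resolve_right hvG
      · exfalso
        push Not at h
        have := Nat.le_of_mul_le_mul_left (hN.trans (case_noGen S hd hF h)) hr
        linarith only [hqq, hd, this, Nat.zero_le (q ^ 3), Nat.zero_le (d * q ^ 2)]
    · push Not at hT
      obtain ⟨e0, e1, e2, e3, hfr, hvan⟩ := hT
      obtain ⟨w0, -, hw0⟩ := exists_dual (σ := σ) hfr.flag.swap.ind
      obtain ⟨G, hG, hFG⟩ := exists_factor (by rw [S.hcard]; omega) hF hw0 hvan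
      refine ⟨fun i => σ (e0 i), G, hG, hFG, ?_⟩
      have hsub : (iso σ fun v => eval v F = 0) ⊆
          (iso σ fun v => eval v G = 0) ∪ (iso σ fun v => herm σ v e0 = 0) := by
        intro v hv
        obtain ⟨h1, h2, h3⟩ := mem_iso.1 hv
        rw [hFG, map_mul] at h2
        rcases mul_eq_zero.1 h2 with h4 | h4
        · refine Finset.mem_union_right _ (mem_iso.2 ⟨h1, ?_, h3⟩)
          rw [← h4]
          simp [herm, mul_comm]
        · exact Finset.mem_union_left _ (mem_iso.2 ⟨h1, h4, h3⟩)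
      have hI := card_tangent S hfr.flag
      have hcu := Finset.card_union_add_card_inter (iso σ fun v => eval v G = 0)
        (iso σ fun v => herm σ v e0 = 0)
      have hle := Finset.card_le_card hsub
      by_cases h : ∃ p0 p1 u, Flag σ p0 p1 u ∧ VanL G p0 p1
      · obtain ⟨p0, p1, u, hfl, hvG⟩ := h
        obtain ⟨o, ho⟩ := exists_pt_orth S.hσ p0 p1 e0
        have ho' : herm σ (pt p0 p1 o) e0 = 0 := by rw [herm_conj S.hσ, ho, map_zero]
        have hne := (hfl.pt o).ne_zero
        have hinter : q ^ 2 - 1 ≤ ((iso σ fun v => eval v G = 0) ∩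
            (iso σ fun v => herm σ v e0 = 0)).card := by
          rw [← S.hcard, ← Finset.card_univ, ← Finset.card_erase_of_mem (Finset.mem_univ (0 : K))]
          apply Finset.card_le_card_of_injOn (fun c => c • pt p0 p1 o)
          · intro c hc
            have hc0 : c ≠ 0 := Finset.ne_of_mem_erase hc
            have h1 : c • pt p0 p1 o ≠ 0 := smul_ne_zero hc0 hne
            have h2 : herm σ (c • pt p0 p1 o) (c • pt p0 p1 o) = 0 := by
              rw [herm_smul_left, herm_smul_right, (hfl.pt o).h00]; ring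
            simp only [Finset.coe_inter, Set.mem_inter_iff, Finset.mem_coe]
            refine ⟨mem_iso.2 ⟨h1, ?_, h2⟩, mem_iso.2 ⟨h1, ?_, h2⟩⟩
            · simpa using hvG.pt o c 0
            · rw [herm_smul_left, ho', mul_zero]
          · intro c _ c' _ hcc
            exact smul_left_injective K hne hcc
        generalize q ^ 2 - 1 = r at *
        linarith only [hcu, hle, hI, hinter]
      · exfalso
        push Not at h
        have := case_noGen S (by omega) hG h
        have h1 : d * (q ^ 5 + 1) + (q ^ 5 + q ^ 2 + 1) <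
            (d + 1) * (q ^ 5 + q ^ 2) + q ^ 3 + 1 := by
          have : 1 ≤ q ^ 3 := Nat.one_le_pow _ _ (by omega)
          linarith only [this, hq, hqq, Nat.mul_le_mul_left d (show 1 ≤ q ^ 2 by omega)]
        have h2 := Nat.mul_lt_mul_of_pos_left h1 hr
        rw [mul_add] at h2
        omega

end EqSplit

end Pool.Agent.Work.MP_10b6e9_ag
end

-- merged part: Pool.Agent.Work.MP_10b6e9_ag.Count
section
/-!
Exact numbers of isotropic vectors in subspaces of a Hermitian space.
-/

set_option autoImplicit false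

namespace Pool.Agent.Work.MP_10b6e9_ag

open Module

section Count

variable {K : Type*} [Field K] [Fintype K] {σ : K →+* K} {q : ℕ}

open Classical in
lemma card_pow_eq_le {n : ℕ} (hn : 0 < n) (a : K) :
    (Finset.univ.filter fun c : K => c ^ n = a).card ≤ n := by
  refine le_trans ?_ ((Multiset.toFinset_card_le _).trans (Polynomial.card_nthRoots n a))
  apply Finset.card_le_card
  intro c hc
  simpa [Polynomial.mem_nthRoots hn] using hc

open Classical in
lemma card_norm_fiber (S : Setup σ q) {a : K} (ha : a ≠ 0) (ha' : σ a = a) :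
    (Finset.univ.filter fun c : K => c * σ c = a).card = q + 1 := by
  have hq := S.hq
  set T := Finset.univ.filter fun a : K => a ≠ 0 ∧ σ a = a with hT
  have hTc : T.card ≤ q - 1 := by
    refine le_trans (Finset.card_le_card ?_) (card_pow_eq_le (by omega) (1 : K))
    intro a ha
    simp only [hT, Finset.mem_filter, Finset.mem_univ, true_and] at ha ⊢
    apply mul_right_cancel₀ ha.1
    rw [← pow_succ, Nat.sub_add_cancel (by omega), ← S.hσq, ha.2, one_mul]
  have h1 := Finset.card_eq_sum_card_fiberwise (f := fun c : K => c * σ c)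
    (s := Finset.univ.erase 0) (t := T) (by
      intro c hc
      have hc0 : c ≠ 0 := Finset.ne_of_mem_erase hc
      simp only [hT, Finset.coe_filter, Finset.mem_univ, true_and, Set.mem_ofPred_eq]
      exact ⟨mul_ne_zero hc0 ((map_ne_zero σ).2 hc0), by rw [map_mul, S.hσ, mul_comm]⟩)
  rw [Finset.card_erase_of_mem (Finset.mem_univ _), Finset.card_univ, S.hcard] at h1
  have h2 : ∀ a ∈ T, ((Finset.univ.erase (0 : K)).filter fun c => c * σ c = a).card ≤ q + 1 := by
    intro a _
    refine le_trans (Finset.card_le_card ?_) (card_pow_eq_le (by omega) a)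
    intro c hc
    simp only [Finset.mem_filter, Finset.mem_univ, true_and] at hc ⊢
    rw [pow_succ', ← S.hσq]
    exact hc.2
  have h3 : ∑ _a ∈ T, (q + 1) ≤
      ∑ a ∈ T, ((Finset.univ.erase (0 : K)).filter fun c => c * σ c = a).card := by
    rw [← h1, Finset.sum_const, smul_eq_mul]
    refine (Nat.mul_le_mul_right _ hTc).trans (le_of_eq ?_)
    obtain ⟨r, rfl⟩ : ∃ r, q = r + 1 := ⟨q - 1, by omega⟩
    simp only [Nat.add_sub_cancel]
    exact (Nat.sub_eq_of_eq_add (by ring)).symm
  have h4 := (Finset.sum_eq_sum_iff_of_le h2).1 (le_antisymm (Finset.sum_le_sum h2) h3) a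
    (by simp [hT, ha, ha'])
  rw [← h4]
  congr 1
  ext c
  simp only [Finset.mem_filter, Finset.mem_univ, true_and, Finset.mem_erase, and_true]
  refine ⟨fun h => ⟨?_, h⟩, fun h => h.2⟩
  rintro rfl
  exact ha (by simpa using h.symm)

variable {V : Type*} [AddCommGroup V] [Module K V] [Fintype V]

open Classical in
/-- The number of vectors of a subspace. -/
noncomputable def cW (W : Submodule K V) : ℕ := (Finset.univ.filter fun x => x ∈ W).card

open Classical in
/-- The isotropic vectors of a subspace, including zero. -/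
noncomputable def isoW (B : V →ₗ[K] V →ₛₗ[σ] K) (W : Submodule K V) : Finset V :=
  Finset.univ.filter fun x => x ∈ W ∧ B x x = 0

/-- The radical of the restriction of `B` to `W`. -/
def radW (B : V →ₗ[K] V →ₛₗ[σ] K) (W : Submodule K V) : Submodule K V where
  carrier := {x | x ∈ W ∧ ∀ y ∈ W, B x y = 0}
  add_mem' := fun ha hb => ⟨W.add_mem ha.1 hb.1, fun y hy => by
    rw [map_add, LinearMap.add_apply, ha.2 y hy, hb.2 y hy, add_zero]⟩
  zero_mem' := ⟨W.zero_mem, fun y _ => by simp⟩
  smul_mem' := fun c x hx => ⟨W.smul_mem c hx.1, fun y hy => by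
    rw [map_smul, LinearMap.smul_apply, hx.2 y hy, smul_zero]⟩

/-- The vectors of `W` orthogonal to `w`. -/
def cut (B : V →ₗ[K] V →ₛₗ[σ] K) (W : Submodule K V) (w : V) : Submodule K V :=
  W ⊓ LinearMap.ker (B.flip w)

variable {B : V →ₗ[K] V →ₛₗ[σ] K}

omit [Fintype K] [Fintype V] in
lemma mem_radW {W : Submodule K V} {x : V} : x ∈ radW B W ↔ x ∈ W ∧ ∀ y ∈ W, B x y = 0 := Iff.rfl

omit [Fintype K] [Fintype V] in
lemma mem_cut {W : Submodule K V} {w x : V} : x ∈ cut B W w ↔ x ∈ W ∧ B x w = 0 := by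
  simp [cut]

omit [Fintype K] in
lemma mem_isoW {W : Submodule K V} {x : V} : x ∈ isoW B W ↔ x ∈ W ∧ B x x = 0 := by
  simp [isoW]

lemma cW_eq (hcard : Fintype.card K = q ^ 2) (W : Submodule K V) :
    cW W = (q ^ 2) ^ finrank K W := by
  classical
  rw [← hcard, ← Module.card_eq_pow_finrank, cW, Fintype.card_subtype]

omit [Fintype K] in
lemma cW_pos (W : Submodule K V) : 0 < cW W :=
  Finset.card_pos.2 ⟨0, by simp⟩

omit [Fintype K] in
lemma eq_of_le_of_cW {W W' : Submodule K V} (h : W ≤ W') (h' : cW W' ≤ cW W) : W = W' := by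
  classical
  have := Finset.eq_of_subset_of_card_le (s := Finset.univ.filter fun x => x ∈ W)
    (t := Finset.univ.filter fun x => x ∈ W') (fun x hx => by
      simp only [Finset.mem_filter, Finset.mem_univ, true_and] at hx ⊢
      exact h hx) h'
  ext x
  simpa using Finset.ext_iff.1 this x

omit [Fintype V] in
lemma exists_aniso (S : Setup σ q) (hB : ∀ x y, B y x = σ (B x y)) {W : Submodule K V}
    (h : radW B W ≠ W) : ∃ w ∈ W, B w w ≠ 0 := by
  by_contra hcon
  push Not at hcon
  apply h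
  refine le_antisymm (fun x hx => hx.1) fun x hx => ⟨hx, fun y hy => ?_⟩
  by_contra hb
  obtain ⟨θ, hθ⟩ := S.hθ
  have hc := W.smul_mem (θ / B x y) hx
  have h1 := hcon _ (W.add_mem hc hy)
  have h2 := hcon _ hc
  have h3 : B ((θ / B x y) • x) y = θ := by
    rw [map_smul, LinearMap.smul_apply, smul_eq_mul, div_mul_cancel₀ _ hb]
  rw [map_add, map_add, LinearMap.add_apply, LinearMap.add_apply, h2, hcon y hy,
    hB ((θ / B x y) • x) y, h3] at h1
  exact one_ne_zero (by linear_combination h1 - hθ : (1 : K) = 0)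

omit [Fintype K] [Fintype V] in
lemma sub_mem_cut {W : Submodule K V} {w x : V} (hw : w ∈ W) (h : B w w ≠ 0) (hx : x ∈ W) :
    x - (B x w / B w w) • w ∈ cut B W w := by
  refine mem_cut.2 ⟨W.sub_mem hx (W.smul_mem _ hw), ?_⟩
  rw [map_sub, map_smul, LinearMap.sub_apply, LinearMap.smul_apply, smul_eq_mul,
    div_mul_cancel₀ _ h, sub_self]

omit [Fintype K] [Fintype V] in
lemma radW_cut (hB : ∀ x y, B y x = σ (B x y)) {W : Submodule K V} {w : V} (hw : w ∈ W)
    (h : B w w ≠ 0) : radW B (cut B W w) = radW B W := by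
  ext x
  simp only [mem_radW]
  constructor
  · rintro ⟨h1, h2⟩
    refine ⟨(mem_cut.1 h1).1, fun y hy => ?_⟩
    have := h2 _ (sub_mem_cut hw h hy)
    rwa [map_sub, LinearMap.map_smulₛₗ, (mem_cut.1 h1).2, smul_zero, sub_zero] at this
  · rintro ⟨h1, h2⟩
    exact ⟨mem_cut.2 ⟨h1, h2 w hw⟩, fun y hy => h2 y (mem_cut.1 hy).1⟩

open Classical in
lemma card_cut_prod {W : Submodule K V} {w : V} (hw : w ∈ W) (h : B w w ≠ 0) (P : V → Prop) :
    (Finset.univ.filter fun x => x ∈ W ∧ P x).card =
      ∑ x ∈ Finset.univ.filter (fun x => x ∈ cut B W w),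
        (Finset.univ.filter fun c : K => P (x + c • w)).card := by
  rw [← Finset.card_sigma]
  symm
  refine Finset.card_bij (fun z _ => z.1 + z.2 • w) ?_ ?_ ?_
  · intro z hz
    simp only [Finset.mem_sigma, Finset.mem_filter, Finset.mem_univ, true_and] at hz ⊢
    exact ⟨W.add_mem (mem_cut.1 hz.1).1 (W.smul_mem _ hw), hz.2⟩
  · rintro ⟨x, c⟩ hz ⟨x', c'⟩ hz' e
    simp only [Finset.mem_sigma, Finset.mem_filter, Finset.mem_univ, true_and] at hz hz' e
    have hc : c = c' := by
      have := congrArg (fun v => B v w) e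
      simp only [map_add, map_smul, LinearMap.add_apply, LinearMap.smul_apply,
        (mem_cut.1 hz.1).2, (mem_cut.1 hz'.1).2, zero_add, smul_eq_mul] at this
      exact mul_right_cancel₀ h this
    subst hc
    rw [add_right_cancel e]
  · intro x hx
    simp only [Finset.mem_filter, Finset.mem_univ, true_and] at hx
    refine ⟨⟨x - (B x w / B w w) • w, B x w / B w w⟩, ?_, by simp⟩
    simp only [Finset.mem_sigma, Finset.mem_filter, Finset.mem_univ, true_and, sub_add_cancel]
    exact ⟨sub_mem_cut hw h hx.1, hx.2⟩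

lemma cW_cut (S : Setup σ q) {W : Submodule K V} {w : V} (hw : w ∈ W) (h : B w w ≠ 0) :
    cW W = cW (cut B W w) * q ^ 2 := by
  classical
  have := card_cut_prod hw h (fun _ => True)
  simp only [and_true, Finset.filter_true, Finset.card_univ, S.hcard, Finset.sum_const,
    smul_eq_mul] at this
  exact this

lemma isoW_cut (S : Setup σ q) (hB : ∀ x y, B y x = σ (B x y)) {W : Submodule K V} {w : V}
    (hw : w ∈ W) (h : B w w ≠ 0) :
    (isoW B W).card + q * (isoW B (cut B W w)).card = (q + 1) * cW (cut B W w) := by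
  classical
  have h1 := card_cut_prod hw h (fun x => B x x = 0)
  have h2 : (isoW B (cut B W w)).card = ∑ x ∈ Finset.univ.filter (fun x => x ∈ cut B W w),
      if B x x = 0 then 1 else 0 := by
    rw [← Finset.card_filter, Finset.filter_filter, isoW]
  have h3 : (isoW B W).card = _ := (by rw [isoW] : _ = _).trans h1
  rw [h3, h2, Finset.mul_sum, ← Finset.sum_add_distrib, cW, mul_comm, ← smul_eq_mul,
    ← Finset.sum_const]
  refine Finset.sum_congr rfl fun x hx => ?_
  have hx' := (mem_cut.1 (Finset.mem_filter.1 hx).2).2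
  have hx'' : B w x = 0 := by rw [hB, hx', map_zero]
  have e : ∀ c : K, B (x + c • w) (x + c • w) = B x x + c * σ c * B w w := by
    intro c
    simp only [map_add, map_smul, LinearMap.map_smulₛₗ, LinearMap.add_apply, LinearMap.smul_apply,
      hx', hx'', smul_eq_mul]
    ring
  simp only [e]
  split_ifs with h0
  · rw [mul_one, add_comm, add_right_inj, Finset.card_eq_one]
    refine ⟨0, ?_⟩
    ext c
    simp [h0, h]
  · rw [mul_zero, add_zero, ← card_norm_fiber S (a := -B x x / B w w)
      (div_ne_zero (neg_ne_zero.2 h0) h) (by rw [map_div₀, map_neg, ← hB, ← hB])]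
    congr 1
    ext c
    simp only [Finset.mem_filter, Finset.mem_univ, true_and]
    rw [eq_div_iff h]
    constructor <;> intro h' <;> linear_combination h'

/-- The number of isotropic vectors of a nondegenerate Hermitian space of dimension `n`. -/
def fI (q : ℕ) : ℕ → ℤ
  | 0 => 1
  | n + 1 => (q + 1) * ((q : ℤ) ^ 2) ^ n - q * fI q n

theorem card_isoW (S : Setup σ q) (hB : ∀ x y, B y x = σ (B x y)) (n : ℕ) :
    ∀ W : Submodule K V, cW W = cW (radW B W) * (q ^ 2) ^ n →
      ((isoW B W).card : ℤ) = cW (radW B W) * fI q n := by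
  classical
  have hq := S.hq
  induction n with
  | zero =>
    intro W hW
    rw [pow_zero, mul_one] at hW
    have h := eq_of_le_of_cW (W := radW B W) (W' := W) (fun x hx => hx.1) hW.le
    rw [fI, mul_one, h, cW, isoW]
    congr 2
    ext x
    simp only [Finset.mem_filter, Finset.mem_univ, true_and, and_iff_left_iff_imp]
    intro hx
    have : x ∈ radW B W := by rwa [h]
    exact this.2 x hx
  | succ n ih =>
    intro W hW
    have hne : radW B W ≠ W := by
      intro h
      rw [h] at hW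
      have h1 := cW_pos W
      have h2 : 1 < (q ^ 2) ^ (n + 1) := one_lt_pow₀ (by nlinarith only [hq]) (by omega)
      nlinarith only [hW, h1, h2]
    obtain ⟨w, hw, h⟩ := exists_aniso S hB hne
    have h1 := cW_cut S hw h
    have h2 := isoW_cut S hB hw h
    have h3 := radW_cut hB hw h
    have h4 : cW (cut B W w) = cW (radW B (cut B W w)) * (q ^ 2) ^ n := by
      rw [h3]
      apply Nat.eq_of_mul_eq_mul_right (show 0 < q ^ 2 by positivity)
      rw [← h1, hW]; ring
    have h5 := ih _ h4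
    rw [h3] at h4 h5
    rw [h4] at h2
    have h6 := congrArg (Nat.cast : ℕ → ℤ) h2
    push_cast at h6
    rw [fI]
    linear_combination h6 - q * h5

omit [Fintype K] in
lemma cW_bot : cW (⊥ : Submodule K V) = 1 := by
  classical
  rw [cW, Finset.card_eq_one]
  exact ⟨0, by ext x; simp⟩

lemma card_isoW_nondeg (S : Setup σ q) (hB : ∀ x y, B y x = σ (B x y)) {W : Submodule K V}
    (h : radW B W = ⊥) {n : ℕ} (hn : finrank K W = n) : ((isoW B W).card : ℤ) = fI q n := by
  have := card_isoW S hB n W (by rw [h, cW_bot, cW_eq S.hcard, hn, one_mul])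
  rwa [h, cW_bot, Nat.cast_one, one_mul] at this

/-- A degenerate hyperplane of a nondegenerate space is the polar of a vector of its radical. -/
lemma eq_cut (hB : ∀ x y, B y x = σ (B x y)) {U W : Submodule K V} (hU : radW B U = ⊥)
    (hle : W ≤ U) (hn : finrank K U = finrank K W + 1) {r : V} (hr : r ∈ radW B W) (hr0 : r ≠ 0) :
    W = cut B U r := by
  have : Module.Finite K V := Module.Finite.of_finite
  have h1 : W ≤ cut B U r := fun x hx => mem_cut.2 ⟨hle hx, by rw [hB, hr.2 x hx, map_zero]⟩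
  have h2 : cut B U r < U := by
    refine lt_of_le_of_ne inf_le_left fun h => hr0 ?_
    have : r ∈ radW B U := ⟨hle hr.1, fun y hy => by
      rw [← h] at hy
      rw [hB, (mem_cut.1 hy).2, map_zero]⟩
    rwa [hU] at this
  have h3 := Submodule.finrank_lt_finrank_of_lt h2
  exact Submodule.eq_of_le_of_finrank_le h1 (by omega)

lemma card_isoW_deg (S : Setup σ q) (hB : ∀ x y, B y x = σ (B x y)) {U W : Submodule K V}
    (hU : radW B U = ⊥) (hle : W ≤ U) {n : ℕ} (hn : finrank K W = n + 1)
    (hn' : finrank K U = n + 2) (h : radW B W ≠ ⊥) :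
    ((isoW B W).card : ℤ) = (q : ℤ) ^ 2 * fI q n := by
  obtain ⟨r, hr, hr0⟩ := Submodule.exists_mem_ne_zero_of_ne_bot h
  have hW := eq_cut hB hU hle (by omega) hr hr0
  obtain ⟨y, hy, hy1⟩ : ∃ y ∈ U, B y r = 1 := by
    obtain ⟨y, hy, hy0⟩ : ∃ y ∈ U, B y r ≠ 0 := by
      by_contra hcon
      push Not at hcon
      have : r ∈ radW B U := ⟨hle hr.1, fun y hy => by rw [hB, hcon y hy, map_zero]⟩
      rw [hU] at this
      exact hr0 this
    exact ⟨(B y r)⁻¹ • y, U.smul_mem _ hy, by
      rw [map_smul, LinearMap.smul_apply, smul_eq_mul, inv_mul_cancel₀ hy0]⟩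
  have hspan : radW B W = K ∙ r := by
    refine le_antisymm (fun r' hr' => ?_) ((Submodule.span_singleton_le_iff_mem _ _).2 hr)
    have : r' - σ (B y r') • r ∈ radW B U := by
      refine ⟨hle (W.sub_mem hr'.1 (W.smul_mem _ hr.1)), fun x hx => ?_⟩
      have h1 : x - B x r • y ∈ W := by
        rw [hW]
        refine mem_cut.2 ⟨U.sub_mem hx (U.smul_mem _ hy), ?_⟩
        rw [map_sub, map_smul, LinearMap.sub_apply, LinearMap.smul_apply, hy1, smul_eq_mul]
        ring
      have h2 := hr'.2 _ h1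
      rw [map_sub, LinearMap.map_smulₛₗ, ← hB, smul_eq_mul] at h2
      rw [map_sub, map_smul, LinearMap.sub_apply, LinearMap.smul_apply, ← hB, smul_eq_mul]
      linear_combination h2
    rw [hU, Submodule.mem_bot, sub_eq_zero] at this
    rw [this]
    exact Submodule.smul_mem _ _ (Submodule.mem_span_singleton_self r)
  have hc : cW (radW B W) = q ^ 2 := by
    rw [hspan, cW_eq S.hcard, finrank_span_singleton hr0, pow_one]
  have := card_isoW S hB n W (by rw [hc, cW_eq S.hcard, hn]; ring)
  rw [this, hc]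
  push_cast
  ring

lemma fI_one (q : ℕ) : fI q 1 = 1 := by simp [fI]

lemma fI_two (q : ℕ) : fI q 2 = (q : ℤ) ^ 3 + q ^ 2 - q := by simp only [fI]; ring

lemma fI_three (q : ℕ) : fI q 3 = (q : ℤ) ^ 5 - q ^ 3 + q ^ 2 := by simp only [fI]; ring

lemma fI_four (q : ℕ) : fI q 4 = (q : ℤ) ^ 7 + q ^ 4 - q ^ 3 := by simp only [fI]; ring

/-- Every plane has at least two isotropic points. -/
lemma plane_lower (S : Setup σ q) (hB : ∀ x y, B y x = σ (B x y)) {W : Submodule K V}
    (hn : finrank K W = 3) : (q : ℤ) ^ 2 < (isoW B W).card := by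
  have : Module.Finite K V := Module.Finite.of_finite
  have hq : (2 : ℤ) ≤ q := by exact_mod_cast S.hq
  have hle : finrank K (radW B W) ≤ 3 := hn ▸ Submodule.finrank_mono fun x hx => hx.1
  obtain ⟨n, hn'⟩ := Nat.exists_eq_add_of_le hle
  have := card_isoW S hB n W (by rw [cW_eq S.hcard, cW_eq S.hcard, hn, ← pow_add, ← hn'])
  rw [this, cW_eq S.hcard]
  generalize finrank K (radW B W) = r at *
  have q2 : (4 : ℤ) ≤ q ^ 2 := by linarith only [hq, mul_nonneg_of_nonpos_of_nonpos (Mathlib.Tactic.Linarith.sub_nonpos_of_le (Mathlib.Tactic.Linarith.natCast_nonneg ℤ q)) (Mathlib.Tactic.Linarith.sub_nonpos_of_le hq)]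
  have q3 : (q : ℤ) ^ 3 < q ^ 5 := pow_lt_pow_right₀ (by omega) (by omega)
  have q4 : (q : ℤ) ≤ q ^ 3 := le_self_pow₀ (by omega) (by omega)
  push_cast
  interval_cases r
  · obtain rfl : n = 3 := by omega
    rw [fI_three]; linarith only [q3]
  · obtain rfl : n = 2 := by omega
    rw [fI_two]; linarith only [q2, q3, mul_nonneg_of_nonpos_of_nonpos (Mathlib.Tactic.Linarith.sub_nonpos_of_le (sq_nonneg ↑q)) (Mathlib.Tactic.Linarith.sub_nonpos_of_le q2)]
  · obtain rfl : n = 1 := by omega
    rw [fI_one]; linarith only [q2, mul_nonneg_of_nonpos_of_nonpos (Mathlib.Tactic.Linarith.sub_nonpos_of_le (sq_nonneg ↑q)) (Mathlib.Tactic.Linarith.sub_nonpos_of_le q2)]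
  · obtain rfl : n = 0 := by omega
    rw [fI, mul_one]
    exact lt_self_pow₀ (by omega) (by omega)

/-- Orthonormal bases. -/
lemma exists_orthonormal (S : Setup σ q) (hB : ∀ x y, B y x = σ (B x y)) (n : ℕ) :
    ∀ W : Submodule K V, radW B W = ⊥ → cW W = (q ^ 2) ^ n →
      ∃ b : Fin n → V, (∀ i, b i ∈ W) ∧ ∀ i j, B (b i) (b j) = if i = j then 1 else 0 := by
  classical
  have hq := S.hq
  induction n with
  | zero => exact fun W _ _ => ⟨Fin.elim0, fun i => i.elim0, fun i => i.elim0⟩
  | succ n ih =>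
    intro W h0 hW
    have hne : radW B W ≠ W := by
      intro h
      rw [← h, h0, cW_bot] at hW
      have h2 : 1 < (q ^ 2) ^ (n + 1) := one_lt_pow₀ (by nlinarith only [hq]) (by omega)
      omega
    obtain ⟨w, hw, h⟩ := exists_aniso S hB hne
    obtain ⟨c, hc⟩ := Finset.card_pos.1 (show 0 < _ by
      rw [card_norm_fiber S (inv_ne_zero h) (by rw [map_inv₀, ← hB])]; omega)
    have hc' : c * σ c = (B w w)⁻¹ := (Finset.mem_filter.1 hc).2
    obtain ⟨b, hb, hbb⟩ := ih (cut B W w) (by rw [radW_cut hB hw h, h0]) (by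
      apply Nat.eq_of_mul_eq_mul_right (show 0 < q ^ 2 by positivity)
      rw [← cW_cut S hw h, hW]; ring)
    have e1 : ∀ j, B (b j) w = 0 := fun j => (mem_cut.1 (hb j)).2
    have e2 : ∀ j, B w (b j) = 0 := fun j => by rw [hB, e1, map_zero]
    refine ⟨Fin.cons (c • w) b, fun i => ?_, fun i j => ?_⟩
    · refine Fin.cases ?_ (fun i => ?_) i
      · exact W.smul_mem _ hw
      · exact (mem_cut.1 (hb i)).1
    · refine Fin.cases ?_ (fun i => ?_) i <;> refine Fin.cases ?_ (fun j => ?_) j
      · simp only [Fin.cons_zero, map_smul, LinearMap.map_smulₛₗ, LinearMap.smul_apply,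
          smul_eq_mul, if_true]
        rw [← mul_assoc, mul_comm (σ c), hc', inv_mul_cancel₀ h]
      · simp [e2, (Fin.succ_ne_zero j).symm]
      · simp [e1]
      · simp [hbb]

end Count

end Pool.Agent.Work.MP_10b6e9_ag
end

-- merged part: Pool.Agent.Work.MP_10b6e9_ag.General
section
/-!
The bound and its equality case for an arbitrary nondegenerate Hermitian form.
-/

set_option autoImplicit false

namespace Pool.Agent.Work.MP_10b6e9_ag

open Module MvPolynomial

section General

variable {K : Type*} [Field K] [Fintype K] {σ : K →+* K} {q : ℕ}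
  {B : (Fin 5 → K) →ₗ[K] (Fin 5 → K) →ₛₗ[σ] K}

open Classical in
/-- The nonzero isotropic zeros of `F`. -/
noncomputable def zB (B : (Fin 5 → K) →ₗ[K] (Fin 5 → K) →ₛₗ[σ] K) (F : MvPolynomial (Fin 5) K) :
    Finset (Fin 5 → K) :=
  Finset.univ.filter fun v => v ≠ 0 ∧ eval v F = 0 ∧ B v v = 0

lemma mem_zB {F : MvPolynomial (Fin 5) K} {v : Fin 5 → K} :
    v ∈ zB B F ↔ v ≠ 0 ∧ eval v F = 0 ∧ B v v = 0 := by simp [zB]

omit [Fintype K] in
lemma eval_aeval_lin (m : Fin 5 → Fin 5 → K) (F : MvPolynomial (Fin 5) K) (x : Fin 5 → K) :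
    eval x (aeval (fun j => lin (m j)) F) = eval (fun j => ∑ i, m j i * x i) F := by
  induction F using MvPolynomial.induction_on with
  | C c => simp
  | add p p' hp hp' => simp only [map_add, hp, hp']
  | mul_X p i hp => simp only [map_mul, hp, aeval_X, eval_X, eval_lin]

omit [Fintype K] in
lemma prod_lin_hom {ι : Type*} (s : Finset ι) (l : ι → Fin 5 → K) :
    (∏ i ∈ s, lin (l i)).IsHomogeneous s.card := by
  have := IsHomogeneous.prod s (fun i => lin (l i)) (fun _ => 1) fun i _ => lin_hom _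
  simpa using this

/-- Transfer to the standard form. -/
lemma transfer (S : Setup σ q) (hB : ∀ x y, B y x = σ (B x y)) (h0 : radW B ⊤ = ⊥) {d : ℕ}
    (hd : d ≤ q) {F : MvPolynomial (Fin 5) K} (hF0 : F ≠ 0) (hF : F.IsHomogeneous d) :
    ∃ F' : MvPolynomial (Fin 5) K, F' ≠ 0 ∧ F'.IsHomogeneous d ∧
      (zB B F).card = (iso σ fun v => eval v F' = 0).card ∧ (Splits F' d → Splits F d) := by
  classical
  have hq := S.hq
  have hdK : d ≤ Fintype.card K := by rw [S.hcard]; nlinarith only [hq, hd]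
  obtain ⟨b, -, hb⟩ := exists_orthonormal S hB 5 ⊤ h0 (by rw [cW_eq S.hcard]; simp)
  let φ : (Fin 5 → K) →ₗ[K] (Fin 5 → K) := Fintype.linearCombination K b
  have hφ : ∀ x, φ x = ∑ i, x i • b i := fun x => Fintype.linearCombination_apply _ _ _
  have hiso : ∀ x y, B (φ x) (φ y) = herm σ x y := by
    intro x y
    simp only [hφ, map_sum, map_smul, LinearMap.map_smulₛₗ, LinearMap.sum_apply,
      LinearMap.smul_apply, hb, smul_eq_mul, herm, mul_ite, mul_one, mul_zero,
      Finset.sum_ite_eq', Finset.mem_univ, if_true]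
    exact Finset.sum_congr rfl fun i _ => mul_comm _ _
  have hinj : Function.Injective φ := by
    rw [injective_iff_map_eq_zero]
    intro x hx
    ext j
    have := hiso x (Pi.single j 1)
    rw [hx, map_zero, LinearMap.zero_apply, herm, Finset.sum_eq_single j] at this
    · simpa using this.symm
    · intro i _ hi; simp [hi]
    · simp
  have hbij : Function.Bijective φ := ⟨hinj, Finite.injective_iff_surjective.1 hinj⟩
  let ψ := (LinearEquiv.ofBijective φ hbij).symm
  have hψ : ∀ x, ψ (φ x) = x := fun x => (LinearEquiv.ofBijective φ hbij).symm_apply_apply x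
  have hev : ∀ x, eval x (aeval (fun j => lin fun i => b i j) F) = eval (φ x) F := by
    intro x
    rw [eval_aeval_lin, hφ]
    congr 2
    ext j
    simp [Finset.sum_apply, mul_comm]
  refine ⟨aeval (fun j => lin fun i => b i j) F, fun h => hF0 ?_, ?_, ?_, ?_⟩
  · refine hom_eq_zero hF (fun v => ?_) hdK
    obtain ⟨x, rfl⟩ := hbij.2 v
    rw [← hev, h, map_zero]
  · simpa using hF.aeval (fun j => lin fun i => b i j) (n := 1) fun j => lin_hom _
  · symm
    refine Finset.card_bij (fun x _ => φ x) ?_ (fun x _ y _ h => hinj h) ?_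
    · intro x hx
      obtain ⟨h1, h2, h3⟩ := mem_iso.1 hx
      exact mem_zB.2 ⟨fun h => h1 (hinj (by rw [h, map_zero])), by rwa [← hev], by rwa [hiso]⟩
    · intro v hv
      obtain ⟨x, rfl⟩ := hbij.2 v
      obtain ⟨h1, h2, h3⟩ := mem_zB.1 hv
      exact ⟨x, mem_iso.2 ⟨fun h => h1 (by rw [h, map_zero]), by rwa [hev], by rwa [← hiso]⟩, rfl⟩
  · rintro ⟨c, l, hl⟩
    refine ⟨c, fun i j => eval (ψ (Pi.single j 1)) (lin (l i)), ?_⟩
    rw [← sub_eq_zero]
    refine hom_eq_zero (hF.sub ?_) (fun v => ?_) hdK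
    · have := prod_lin_hom Finset.univ fun i j => eval (ψ (Pi.single j 1)) (lin (l i))
      rw [Finset.card_univ, Fintype.card_fin] at this
      exact this.C_mul c
    · obtain ⟨x, rfl⟩ := hbij.2 v
      have e : ∀ m : Fin 5 → K,
          eval (φ x) (lin fun j => eval (ψ (Pi.single j 1)) (lin m)) = eval x (lin m) := by
        intro m
        have e : x = ∑ j, φ x j • ψ (Pi.single j 1) := by
          conv_lhs => rw [← hψ x, ← Finset.univ_sum_single (φ x), map_sum]
          refine Finset.sum_congr rfl fun j _ => ?_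
          rw [← map_smul, ← Pi.single_smul', smul_eq_mul, mul_one]
        generalize φ x = y at e
        rw [e]
        simp only [eval_lin, Finset.sum_apply, Pi.smul_apply, smul_eq_mul, Finset.mul_sum,
          Finset.sum_mul]
        rw [Finset.sum_comm]
        exact Finset.sum_congr rfl fun j _ => Finset.sum_congr rfl fun k _ => by ring
      rw [map_sub, ← hev x, hl, sub_eq_zero]
      simp only [map_mul, map_prod, eval_C, e]

theorem bound_gen (S : Setup σ q) (hB : ∀ x y, B y x = σ (B x y)) (h0 : radW B ⊤ = ⊥) {d : ℕ}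
    (hd : d ≤ q) {F : MvPolynomial (Fin 5) K} (hF0 : F ≠ 0) (hF : F.IsHomogeneous d) :
    (zB B F).card ≤ (q ^ 2 - 1) * (d * (q ^ 5 + q ^ 2) + q ^ 3 + 1) := by
  obtain ⟨F', h1, h2, h3, -⟩ := transfer S hB h0 hd hF0 hF
  rw [h3]
  exact main_bound S d F' h1 h2 hd

theorem splits_gen (S : Setup σ q) (hB : ∀ x y, B y x = σ (B x y)) (h0 : radW B ⊤ = ⊥) {d : ℕ}
    (hd : d ≤ q) {F : MvPolynomial (Fin 5) K} (hF0 : F ≠ 0) (hF : F.IsHomogeneous d)
    (hN : (zB B F).card = (q ^ 2 - 1) * (d * (q ^ 5 + q ^ 2) + q ^ 3 + 1)) : Splits F d := by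
  obtain ⟨F', h1, h2, h3, h4⟩ := transfer S hB h0 hd hF0 hF
  exact h4 (splits_of_extremal S d F' h1 h2 hd (by rw [← h3, hN]))

/-- The hyperplane with equation `l`. -/
def hypS (l : Fin 5 → K) : Submodule K (Fin 5 → K) :=
  LinearMap.ker (Fintype.linearCombination K l)

omit [Fintype K] in
lemma mem_hypS {l x : Fin 5 → K} : x ∈ hypS l ↔ ∑ i, l i * x i = 0 := by
  simp [hypS, Fintype.linearCombination_apply, mul_comm]

omit [Fintype K] in
lemma finrank_hypS {l : Fin 5 → K} (hl : l ≠ 0) : finrank K (hypS l) = 4 := by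
  have h := LinearMap.finrank_range_add_finrank_ker (Fintype.linearCombination K l)
  have hr : LinearMap.range (Fintype.linearCombination K l) = ⊤ := by
    obtain ⟨i, hi⟩ := Function.ne_iff.1 hl
    rw [LinearMap.range_eq_top]
    intro c
    refine ⟨Pi.single i (c / l i), ?_⟩
    rw [Fintype.linearCombination_apply, Finset.sum_eq_single i]
    · simp only [Pi.single_eq_same, smul_eq_mul]
      exact div_mul_cancel₀ _ hi
    · intro j _ hj; simp [hj]
    · simp
  rw [hr, finrank_top, finrank_self, finrank_fin_fun] at h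
  rw [hypS]
  omega

omit [Fintype K] in
lemma finrank_inf_hyp {W W' : Submodule K (Fin 5 → K)} (h : finrank K W = 4)
    (h' : finrank K W' = 4) (hne : W ≠ W') : finrank K (W ⊓ W' : Submodule K _) = 3 := by
  have h1 := Submodule.finrank_sup_add_finrank_inf_eq W W'
  have h2 : finrank K (W ⊔ W' : Submodule K _) ≤ 5 := by
    simpa using Submodule.finrank_le (W ⊔ W')
  have h3 : W ⊓ W' < W := by
    refine lt_of_le_of_ne inf_le_left fun e => hne ?_
    exact Submodule.eq_of_le_of_finrank_eq (inf_eq_left.1 e) (by omega)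
  have h4 := Submodule.finrank_lt_finrank_of_lt h3
  omega

lemma bound_cast (hq : 2 ≤ q) (d : ℕ) :
    (((q ^ 2 - 1) * (d * (q ^ 5 + q ^ 2) + q ^ 3 + 1) : ℕ) : ℤ) =
      d * (fI q 4 - fI q 3) + fI q 3 - 1 := by
  have : 1 ≤ q ^ 2 := Nat.one_le_pow _ _ (by omega)
  rw [fI_three, fI_four]
  push_cast [this]
  ring

/-- The configuration of the extremal case. -/
structure Conf (B : (Fin 5 → K) →ₗ[K] (Fin 5 → K) →ₛₗ[σ] K) {d : ℕ} (l : Fin d → Fin 5 → K)
    (W : Submodule K (Fin 5 → K)) : Prop where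
  ne : ∀ i, l i ≠ 0
  inj : Function.Injective fun i => hypS (l i)
  nt : ∀ i, radW B (hypS (l i)) = ⊥
  dim : finrank K W = 3
  nd : radW B W = ⊥
  le : ∀ i, W ≤ hypS (l i)

theorem card_of_conf (S : Setup σ q) (hB : ∀ x y, B y x = σ (B x y)) {d : ℕ} (hd : 1 ≤ d)
    {l : Fin d → Fin 5 → K} {W : Submodule K (Fin 5 → K)} (h : Conf B l W)
    {F : MvPolynomial (Fin 5) K} (hF : ∀ x, eval x F = 0 ↔ ∃ i, x ∈ hypS (l i)) :
    (zB B F).card = (q ^ 2 - 1) * (d * (q ^ 5 + q ^ 2) + q ^ 3 + 1) := by
  classical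
  have h3 := card_isoW_nondeg S hB h.nd h.dim
  have h4 := fun i => card_isoW_nondeg S hB (h.nt i) (finrank_hypS (h.ne i))
  have hsub : ∀ i, isoW B W ⊆ isoW B (hypS (l i)) := fun i x hx =>
    mem_isoW.2 ⟨h.le i (mem_isoW.1 hx).1, (mem_isoW.1 hx).2⟩
  have e : insert 0 (zB B F) =
      isoW B W ∪ Finset.univ.biUnion fun i => isoW B (hypS (l i)) \ isoW B W := by
    ext x
    simp only [Finset.mem_insert, mem_zB, hF, Finset.mem_union, Finset.mem_biUnion,
      Finset.mem_univ, true_and, Finset.mem_sdiff, mem_isoW]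
    constructor
    · rintro (rfl | ⟨-, ⟨i, hi⟩, h2⟩)
      · exact Or.inl ⟨W.zero_mem, by simp⟩
      · by_cases hx : x ∈ W
        · exact Or.inl ⟨hx, h2⟩
        · exact Or.inr ⟨i, ⟨hi, h2⟩, fun h => hx h.1⟩
    · rintro (⟨h1, h2⟩ | ⟨i, ⟨h1, h2⟩, -⟩) <;> by_cases hx : x = 0
      · exact Or.inl hx
      · exact Or.inr ⟨hx, ⟨⟨0, hd⟩, h.le _ h1⟩, h2⟩
      · exact Or.inl hx
      · exact Or.inr ⟨hx, ⟨i, h1⟩, h2⟩
  have e2 := congrArg Finset.card e
  rw [Finset.card_insert_of_notMem (by simp [mem_zB]), Finset.card_union_of_disjoint,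
    Finset.card_biUnion] at e2
  · have e3 := congrArg (Nat.cast : ℕ → ℤ) e2
    push_cast at e3
    simp only [Finset.cast_card_sdiff (hsub _), h3, h4, Finset.sum_const, Finset.card_univ,
      Fintype.card_fin, nsmul_eq_mul] at e3
    apply Nat.cast_injective (R := ℤ)
    rw [bound_cast S.hq]
    linarith only [e3]
  · intro i _ j _ hij
    rw [Function.onFun, Finset.disjoint_left]
    intro x hi hj
    simp only [Finset.mem_sdiff, mem_isoW] at hi hj
    have : W = hypS (l i) ⊓ hypS (l j) := Submodule.eq_of_le_of_finrank_eq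
      (le_inf (h.le i) (h.le j)) (by
        rw [h.dim, finrank_inf_hyp (finrank_hypS (h.ne i)) (finrank_hypS (h.ne j))
          fun e => hij (h.inj e)])
    exact hi.2 ⟨by rw [this]; exact ⟨hi.1.1, hj.1.1⟩, hi.1.2⟩
  · rw [Finset.disjoint_left]
    intro x hx hx'
    obtain ⟨i, -, hi⟩ := Finset.mem_biUnion.1 hx'
    exact (Finset.mem_sdiff.1 hi).2 hx

theorem conf_of_card (S : Setup σ q) (hB : ∀ x y, B y x = σ (B x y)) (h0 : radW B ⊤ = ⊥) {d : ℕ}
    (hd1 : 1 ≤ d) (hd : d ≤ q) {c : K} {l : Fin d → Fin 5 → K}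
    (hF0 : C c * ∏ i, lin (l i) ≠ 0)
    (hN : (zB B (C c * ∏ i, lin (l i))).card = (q ^ 2 - 1) * (d * (q ^ 5 + q ^ 2) + q ^ 3 + 1)) :
    ∃ W, Conf B l W := by
  classical
  have hq : (2 : ℤ) ≤ q := by exact_mod_cast S.hq
  have hc : c ≠ 0 := by rintro rfl; simp at hF0
  have hlin : ∀ i, lin (l i) ≠ 0 := fun i =>
    Finset.prod_ne_zero_iff.1 (right_ne_zero_of_mul hF0) i (Finset.mem_univ _)
  have hl : ∀ i, l i ≠ 0 := fun i h => hlin i (by simp [h, lin])
  have hdim := fun i => finrank_hypS (hl i)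
  have hz : ∀ (s : Finset (Fin d)) x, eval x (∏ i ∈ s, lin (l i)) = 0 ↔ ∃ i ∈ s, x ∈ hypS (l i) := by
    intro s x
    simp only [map_prod, Finset.prod_eq_zero_iff, eval_lin, mem_hypS]
  have hzF : ∀ x, eval x (C c * ∏ i, lin (l i)) = 0 ↔ ∃ i, x ∈ hypS (l i) := by
    intro x
    rw [map_mul, eval_C, mul_eq_zero, hz]
    simp [hc]
  have hNZ := congrArg (Nat.cast : ℕ → ℤ) hN
  rw [bound_cast S.hq] at hNZ
  have hdeg : ∀ i, radW B (hypS (l i)) ≠ ⊥ →
      ((isoW B (hypS (l i))).card : ℤ) = (q : ℤ) ^ 2 * fI q 3 := fun i h =>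
    card_isoW_deg S hB h0 le_top (hdim i) (by simp) h
  have q3 : 0 < (q : ℤ) ^ 3 := by positivity
  have q2 : (4 : ℤ) ≤ q ^ 2 := by linarith only [hq, mul_nonneg_of_nonpos_of_nonpos (Mathlib.Tactic.Linarith.sub_nonpos_of_le (Mathlib.Tactic.Linarith.natCast_nonneg ℤ q)) (Mathlib.Tactic.Linarith.sub_nonpos_of_le hq)]
  obtain ⟨e, rfl⟩ : ∃ e, d = e + 1 := ⟨d - 1, by omega⟩
  rcases Nat.eq_zero_or_pos e with rfl | he
  · -- one hyperplane
    have : Subsingleton (Fin (0 + 1)) := inferInstanceAs (Subsingleton (Fin 1))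
    have hnt : radW B (hypS (l 0)) = ⊥ := by
      by_contra h
      have h1 : insert 0 (zB B (C c * ∏ i, lin (l i))) ⊆ isoW B (hypS (l 0)) := by
        intro x hx
        rcases Finset.mem_insert.1 hx with rfl | hx
        · exact mem_isoW.2 ⟨Submodule.zero_mem _, by simp⟩
        · obtain ⟨-, h2, h3⟩ := mem_zB.1 hx
          obtain ⟨i, hi⟩ := (hzF x).1 h2
          obtain rfl : i = 0 := Subsingleton.elim _ _
          exact mem_isoW.2 ⟨hi, h3⟩
      have h2 := Finset.card_le_card h1
      rw [Finset.card_insert_of_notMem (by simp [mem_zB])] at h2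
      have h3 : ((zB B (C c * ∏ i, lin (l i))).card : ℤ) + 1 ≤ (isoW B (hypS (l 0))).card := by
        exact_mod_cast h2
      rw [hNZ, hdeg 0 h, fI_three, fI_four] at h3
      push_cast at h3
      linarith only [q2, h3, hq, q3, mul_nonneg_of_nonpos_of_nonpos (Mathlib.Tactic.Linarith.sub_nonpos_of_le (sq_nonneg ↑q)) (Mathlib.Tactic.Linarith.sub_nonpos_of_le hq), mul_nonneg_of_nonpos_of_nonpos (Mathlib.Tactic.Linarith.sub_nonpos_of_le (Int.add_one_le_iff.mpr q3)) (Mathlib.Tactic.Linarith.sub_nonpos_of_le q2)]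
    obtain ⟨w, hw, hww⟩ := exists_aniso S hB (W := hypS (l 0)) (by
      intro h
      have := hdim 0
      rw [← h, hnt, finrank_bot] at this
      omega)
    refine ⟨cut B (hypS (l 0)) w, hl, fun i j _ => Subsingleton.elim _ _, fun i => ?_, ?_, ?_,
      fun i => ?_⟩
    · obtain rfl : i = 0 := Subsingleton.elim _ _
      exact hnt
    · have h1 := cW_cut S hw hww
      rw [cW_eq S.hcard, cW_eq S.hcard, hdim, ← pow_succ] at h1
      have := Nat.pow_right_injective (show 2 ≤ q ^ 2 by exact_mod_cast (by omega : (2 : ℤ) ≤ q ^ 2))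
        h1
      omega
    · rw [radW_cut hB hw hww, hnt]
    · obtain rfl : i = 0 := Subsingleton.elim _ _
      exact inf_le_left
  -- the points of one hyperplane on the union of the others
  have key : ∀ (i : Fin (e + 1)) (T : Finset (Fin 5 → K)),
      (∀ x ∈ T, x ∈ isoW B (hypS (l i)) ∧ ∃ j, j ≠ i ∧ x ∈ hypS (l j)) →
      fI q 4 - fI q 3 + T.card ≤ (isoW B (hypS (l i))).card := by
    intro i T hT
    set G := ∏ j ∈ Finset.univ.erase i, lin (l j) with hG
    have hGh : G.IsHomogeneous e := by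
      have := prod_lin_hom (Finset.univ.erase i) l
      rwa [Finset.card_erase_of_mem (Finset.mem_univ _), Finset.card_univ, Fintype.card_fin,
        Nat.add_sub_cancel] at this
    have hG0 : G ≠ 0 := Finset.prod_ne_zero_iff.2 fun j _ => hlin j
    have h1 := bound_gen S hB h0 (by omega) hG0 hGh
    have h2 : insert 0 (zB B (C c * ∏ i, lin (l i))) ⊆
        insert 0 (zB B G) ∪ isoW B (hypS (l i)) := by
      intro x hx
      rcases Finset.mem_insert.1 hx with rfl | hx
      · simp
      · obtain ⟨h1, h2, h3⟩ := mem_zB.1 hx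
        obtain ⟨j, hj⟩ := (hzF x).1 h2
        by_cases hji : j = i
        · exact Finset.mem_union_right _ (mem_isoW.2 ⟨hji ▸ hj, h3⟩)
        · exact Finset.mem_union_left _ (Finset.mem_insert_of_mem
            (mem_zB.2 ⟨h1, (hz _ x).2 ⟨j, by simp [hji], hj⟩, h3⟩))
    have h3 : T ⊆ insert 0 (zB B G) ∩ isoW B (hypS (l i)) := by
      intro x hx
      obtain ⟨h4, j, hji, hj⟩ := hT x hx
      refine Finset.mem_inter.2 ⟨?_, h4⟩
      by_cases hx0 : x = 0
      · simp [hx0]
      · exact Finset.mem_insert_of_mem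
          (mem_zB.2 ⟨hx0, (hz _ x).2 ⟨j, by simp [hji], hj⟩, (mem_isoW.1 h4).2⟩)
    have h4 := Finset.card_union_add_card_inter (insert 0 (zB B G)) (isoW B (hypS (l i)))
    have h5 := Finset.card_le_card h2
    have h6 := Finset.card_le_card h3
    rw [Finset.card_insert_of_notMem (by simp [mem_zB])] at h4 h5
    have h7 : (zB B (C c * ∏ i, lin (l i))).card + T.card ≤
        (q ^ 2 - 1) * (e * (q ^ 5 + q ^ 2) + q ^ 3 + 1) + (isoW B (hypS (l i))).card := by omega
    have h8 := (Nat.cast_le (α := ℤ)).2 h7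
    rw [Nat.cast_add, Nat.cast_add, hNZ, bound_cast S.hq] at h8
    push_cast at h8
    linarith only [h8]
  have hpos : 0 < fI q 4 - fI q 3 := by
    rw [fI_three, fI_four]
    have : (q : ℤ) ^ 5 ≤ q ^ 7 := pow_le_pow_right₀ (by omega) (by omega)
    have : (q : ℤ) ^ 2 < q ^ 4 := pow_lt_pow_right₀ (by omega) (by omega)
    linarith
  have hinj : Function.Injective fun i => hypS (l i) := by
    intro i j hij
    by_contra hne
    have := key i (isoW B (hypS (l i))) fun x hx =>
      ⟨hx, j, Ne.symm hne, by rw [← show hypS (l i) = hypS (l j) from hij]; exact (mem_isoW.1 hx).1⟩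
    linarith only [hpos, this]
  have hdim3 : ∀ {i j}, j ≠ i → finrank K (hypS (l i) ⊓ hypS (l j) : Submodule K _) = 3 :=
    fun h => finrank_inf_hyp (hdim _) (hdim _) fun e => h (hinj e).symm
  have hmem : ∀ {i j}, j ≠ i → ∀ x ∈ isoW B (hypS (l i) ⊓ hypS (l j)),
      x ∈ isoW B (hypS (l i)) ∧ ∃ j, j ≠ i ∧ x ∈ hypS (l j) := fun {i j} h x hx =>
    ⟨mem_isoW.2 ⟨(mem_isoW.1 hx).1.1, (mem_isoW.1 hx).2⟩, j, h, (mem_isoW.1 hx).1.2⟩
  have : Nontrivial (Fin (e + 1)) := Fin.nontrivial_iff_two_le.2 (by omega)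
  have hnt : ∀ i, radW B (hypS (l i)) = ⊥ := by
    intro i
    by_contra h
    obtain ⟨j, hj⟩ := exists_ne i
    have h1 := key i _ (hmem hj)
    have h2 := plane_lower S hB (hdim3 hj)
    rw [hdeg i h, fI_three, fI_four] at h1
    linarith only [h1, h2]
  have key' : ∀ (i : Fin (e + 1)) (T : Finset (Fin 5 → K)),
      (∀ x ∈ T, x ∈ isoW B (hypS (l i)) ∧ ∃ j, j ≠ i ∧ x ∈ hypS (l j)) →
      (T.card : ℤ) ≤ fI q 3 := fun i T hT => by
    have := key i T hT
    rw [card_isoW_nondeg S hB (hnt i) (hdim i)] at this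
    linarith only [this]
  have hnd : ∀ {i j}, j ≠ i → radW B (hypS (l i) ⊓ hypS (l j)) = ⊥ := by
    intro i j hj
    by_contra h
    have h1 := key' i _ (hmem hj)
    rw [card_isoW_deg S hB (hnt i) inf_le_left (hdim3 hj) (hdim i) h, fI_two, fI_three] at h1
    have : (q : ℤ) ^ 2 < q ^ 4 := pow_lt_pow_right₀ (by omega) (by omega)
    linarith only [h1, this]
  obtain ⟨j, hj⟩ := exists_ne (0 : Fin (e + 1))
  refine ⟨hypS (l 0) ⊓ hypS (l j), hl, hinj, hnt, hdim3 hj, hnd hj, fun k => ?_⟩
  by_cases hk : k = 0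
  · rw [hk]; exact inf_le_left
  by_contra hcon
  have h1 := key' 0 (isoW B (hypS (l 0) ⊓ hypS (l j)) ∪ isoW B (hypS (l 0) ⊓ hypS (l k)))
    fun x hx => (Finset.mem_union.1 hx).elim (hmem hj x) (hmem hk x)
  have h2 := card_isoW_nondeg S hB (hnd hj) (hdim3 hj)
  have h3 := card_isoW_nondeg S hB (hnd hk) (hdim3 hk)
  have h4 : isoW B (hypS (l 0) ⊓ hypS (l k)) =
      isoW B (hypS (l 0) ⊓ hypS (l j)) ∪ isoW B (hypS (l 0) ⊓ hypS (l k)) :=
    Finset.eq_of_subset_of_card_le Finset.subset_union_right (by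
      rw [← h3] at h1; exact_mod_cast h1)
  have h5 : (isoW B (hypS (l 0) ⊓ hypS (l j))).card ≤
      cW ((hypS (l 0) ⊓ hypS (l j)) ⊓ hypS (l k)) := by
    apply Finset.card_le_card
    intro x hx
    have : x ∈ isoW B (hypS (l 0) ⊓ hypS (l k)) := by
      rw [h4]; exact Finset.mem_union_left _ hx
    simp only [Finset.mem_filter, Finset.mem_univ, true_and]
    exact ⟨(mem_isoW.1 hx).1, (mem_isoW.1 this).1.2⟩
  have h6 : finrank K ((hypS (l 0) ⊓ hypS (l j)) ⊓ hypS (l k) : Submodule K _) < 3 := by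
    rw [← hdim3 hj]
    exact Submodule.finrank_lt_finrank_of_lt
      (lt_of_le_of_ne inf_le_left fun e => hcon (inf_eq_left.1 e))
  rw [cW_eq S.hcard] at h5
  have h7 := h5.trans (Nat.pow_le_pow_right (by have := S.hq; positivity) (Nat.le_of_lt_succ h6))
  have h8 := (Nat.cast_le (α := ℤ)).2 h7
  rw [h2, fI_three] at h8
  push_cast at h8
  have h9 : (q : ℤ) ^ 3 * (2 * q) ≤ q ^ 3 * (q * q) := by gcongr
  have h10 : (q : ℤ) ^ 3 * 1 ≤ q ^ 3 * q := by gcongr; omega
  linarith only [q2, h8, h9, h10]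

end General

end Pool.Agent.Work.MP_10b6e9_ag
end

-- merged part: Pool.Agent.Work.MP_10b6e9_ag.Final
section
/-!
The bound and the equality case in terms of projective points and Hermitian matrices.
-/

set_option autoImplicit false

namespace Pool.Agent.Work.MP_10b6e9_ag

open Module MvPolynomial

section Final

variable {K : Type*} [Field K] [Fintype K] {σ : K →+* K} {q : ℕ}

open Classical in
lemma card_cone (P : (Fin 5 → K) → Prop) (hP : ∀ (c : K) v, c ≠ 0 → P v → P (c • v)) :
    (Finset.univ.filter fun v => v ≠ 0 ∧ P v).card =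
      (Fintype.card K - 1) * Nat.card {p : Projectivization K (Fin 5 → K) // P p.rep} := by
  rw [← Fintype.card_units, ← Nat.card_eq_fintype_card, ← Nat.card_prod, ← Fintype.card_subtype,
    ← Nat.card_eq_fintype_card]
  symm
  refine Nat.card_eq_of_bijective (fun z => ⟨(z.1 : K) • z.2.1.rep,
    smul_ne_zero z.1.ne_zero z.2.1.rep_nonzero, hP _ _ z.1.ne_zero z.2.2⟩) ⟨?_, ?_⟩
  · rintro ⟨a, p, hp⟩ ⟨a', p', hp'⟩ h
    have h1 : (a : K) • p.rep = (a' : K) • p'.rep := congrArg Subtype.val h
    have h2 : p = p' := by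
      rw [← p.mk_rep, ← p'.mk_rep, Projectivization.mk_eq_mk_iff']
      refine ⟨(a : K)⁻¹ * a', ?_⟩
      rw [mul_smul, ← h1, smul_smul, inv_mul_cancel₀ a.ne_zero, one_smul]
    subst h2
    have h3 : a = a' := Units.ext (smul_left_injective K p.rep_nonzero h1)
    rw [h3]
  · rintro ⟨v, hv0, hv⟩
    obtain ⟨a, ha⟩ := Projectivization.exists_smul_eq_mk_rep K v hv0
    refine ⟨⟨a⁻¹, Projectivization.mk K v hv0, ?_⟩, Subtype.ext ?_⟩
    · rw [← ha]
      exact hP _ _ a.ne_zero hv
    · simp only [← ha]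
      rw [Units.smul_def, smul_smul]
      simp

/-- The sesquilinear form of a matrix. -/
noncomputable def sesq (σ : K →+* K) (A : Matrix (Fin 5) (Fin 5) K) :
    (Fin 5 → K) →ₗ[K] (Fin 5 → K) →ₛₗ[σ] K :=
  Matrix.toLinearMapₛₗ₂' K (RingHom.id K) σ A

lemma sesq_apply (S : Setup σ q) (A : Matrix (Fin 5) (Fin 5) K) (x y : Fin 5 → K) :
    sesq σ A x y = hform q A x y := by
  rw [sesq, Matrix.toLinearMapₛₗ₂'_apply, hform]
  refine Finset.sum_congr rfl fun i _ => Finset.sum_congr rfl fun j _ => ?_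
  simp only [RingHom.id_apply, smul_eq_mul, S.hσq]
  ring

lemma sesq_conj (S : Setup σ q) {A : Matrix (Fin 5) (Fin 5) K}
    (hA : A.transpose = A.map (· ^ q)) (x y : Fin 5 → K) : sesq σ A y x = σ (sesq σ A x y) := by
  have h : ∀ i j, σ (A i j) = A j i := fun i j => by
    rw [S.hσq]; exact (congrFun (congrFun hA i) j).symm
  simp only [sesq_apply S, hform, ← S.hσq, map_sum, map_mul, S.hσ, h]
  rw [Finset.sum_comm]
  exact Finset.sum_congr rfl fun i _ => Finset.sum_congr rfl fun j _ => by ring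

lemma sesq_rad (S : Setup σ q) {A : Matrix (Fin 5) (Fin 5) K} (hr : A.rank = 5) :
    radW (sesq σ A) ⊤ = ⊥ := by
  rw [eq_bot_iff]
  intro x hx
  have hs : LinearMap.range A.mulVecLin = ⊤ :=
    Submodule.eq_top_of_finrank_eq (by rw [finrank_fin_fun]; exact hr)
  ext i
  obtain ⟨y, hy⟩ := LinearMap.range_eq_top.1 hs (Pi.single i 1)
  have h := hx.2 (fun j => σ (y j)) trivial
  rw [sesq_apply S, hform] at h
  simp only [← S.hσq, S.hσ, mul_assoc, ← Finset.mul_sum] at h
  have e : ∀ k, ∑ j, A k j * y j = (Pi.single i 1 : Fin 5 → K) k := fun k => congrFun hy k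
  simp only [e] at h
  rw [Finset.sum_eq_single i] at h
  · simpa using h
  · intro k _ hk; simp [hk]
  · simp

lemma card_zB (S : Setup σ q) (A : Matrix (Fin 5) (Fin 5) K) {d : ℕ}
    {F : MvPolynomial (Fin 5) K} (hF : F.IsHomogeneous d) :
    (zB (sesq σ A) F).card = (q ^ 2 - 1) * numPts q A F := by
  have := card_cone (fun v => eval v F = 0 ∧ hform q A v v = 0) (by
    intro c v _ hv
    rw [hom_eval_smul hF, hv.1, mul_zero, ← sesq_apply S, LinearMap.map_smulₛₗ, map_smul,
      LinearMap.smul_apply, sesq_apply S, hv.2]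
    simp)
  rw [S.hcard] at this
  rw [numPts, ← this]
  congr 1
  ext v
  simp only [mem_zB, sesq_apply S, Finset.mem_filter, Finset.mem_univ, true_and]

lemma tangent_iff (S : Setup σ q) {A : Matrix (Fin 5) (Fin 5) K}
    (hA : A.transpose = A.map (· ^ q)) (hr : A.rank = 5) {l : Fin 5 → K} (hl : l ≠ 0) :
    ¬ IsTangent q A (hyp l) ↔ radW (sesq σ A) (hypS l) = ⊥ := by
  have hB := sesq_conj S hA
  constructor
  · intro h
    by_contra hne
    obtain ⟨r, hr1, hr0⟩ := Submodule.exists_mem_ne_zero_of_ne_bot hne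
    have := eq_cut hB (sesq_rad S hr) le_top (by simp [finrank_hypS hl]) hr1 hr0
    refine h ⟨r, hr0, by rw [← sesq_apply S]; exact hr1.2 r hr1.1, ?_⟩
    ext x
    rw [hyp, Set.mem_ofPred_eq, ← mem_hypS, this, mem_cut, sesq_apply S]
    simp
  · rintro h ⟨P, hP0, hP, hH⟩
    have hm : ∀ x, x ∈ hypS l ↔ sesq σ A x P = 0 := fun x => by
      rw [mem_hypS, sesq_apply S]
      exact Set.ext_iff.1 hH x
    have : P ∈ radW (sesq σ A) (hypS l) :=
      ⟨(hm P).2 (by rw [sesq_apply S, hP]), fun y hy => by rw [hB, (hm y).1 hy, map_zero]⟩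
    rw [h] at this
    exact hP0 this

lemma nondeg_iff (S : Setup σ q) (A : Matrix (Fin 5) (Fin 5) K) (W : Submodule K (Fin 5 → K)) :
    NondegOn q A W ↔ radW (sesq σ A) W = ⊥ := by
  simp only [NondegOn, eq_bot_iff, ← sesq_apply S]
  exact ⟨fun h x hx => h x hx.1 hx.2, fun h x hx hx' => h ⟨hx, hx'⟩⟩

omit [Fintype K] in
lemma coe_hypS (l : Fin 5 → K) : (hypS l : Set (Fin 5 → K)) = hyp l := by
  ext x
  exact mem_hypS

theorem bound_final (hK : Fintype.card K = q ^ 2) {d : ℕ} (hd : d ≤ q)
    {A : Matrix (Fin 5) (Fin 5) K} (hA : A.transpose = A.map (· ^ q)) (hr : A.rank = 5)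
    {F : MvPolynomial (Fin 5) K} (hF0 : F ≠ 0) (hF : F.IsHomogeneous d) :
    numPts q A F ≤ d * (q ^ 5 + q ^ 2) + q ^ 3 + 1 := by
  obtain ⟨σ, S⟩ := exists_setup hK
  have h := bound_gen S (sesq_conj S hA) (sesq_rad S hr) hd hF0 hF
  rw [card_zB S A hF] at h
  have hq := S.hq
  exact Nat.le_of_mul_le_mul_left h (by have : 1 < q ^ 2 := by nlinarith only [hq]
                                        omega)

theorem equality_final (hK : Fintype.card K = q ^ 2) {d : ℕ} (hd1 : 1 ≤ d) (hd : d ≤ q)
    {A : Matrix (Fin 5) (Fin 5) K} (hA : A.transpose = A.map (· ^ q)) (hr : A.rank = 5)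
    {F : MvPolynomial (Fin 5) K} (hF0 : F ≠ 0) (hF : F.IsHomogeneous d) :
    numPts q A F = d * (q ^ 5 + q ^ 2) + q ^ 3 + 1 ↔
      ∃ (l : Fin d → Fin 5 → K) (W : Submodule K (Fin 5 → K)),
        (∀ i, l i ≠ 0) ∧ (Function.Injective fun i => hyp (l i)) ∧
        (∀ i, ¬ IsTangent q A (hyp (l i))) ∧
        finrank K W = 3 ∧ NondegOn q A W ∧ (∀ i, (W : Set (Fin 5 → K)) ⊆ hyp (l i)) ∧
        ∀ x : Fin 5 → AlgebraicClosure K, aeval x F = 0 ↔
          ∃ i, ∑ j, algebraMap K (AlgebraicClosure K) (l i j) * x j = 0 := by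
  obtain ⟨σ, S⟩ := exists_setup hK
  have hB := sesq_conj S hA
  have h0 := sesq_rad S hr
  have hq := S.hq
  have hr0 : 0 < q ^ 2 - 1 := by
    have : 1 < q ^ 2 := by nlinarith only [hd1, hq, hd]
    omega
  constructor
  · intro h
    have hN : (zB (sesq σ A) F).card = (q ^ 2 - 1) * (d * (q ^ 5 + q ^ 2) + q ^ 3 + 1) := by
      rw [card_zB S A hF, h]
    obtain ⟨c, l, rfl⟩ := splits_gen S hB h0 hd hF0 hF hN
    obtain ⟨W, hW⟩ := conf_of_card S hB h0 hd1 hd hF0 hN
    have hc : c ≠ 0 := by rintro rfl; simp at hF0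
    refine ⟨l, W, hW.ne, fun i j hij => hW.inj (SetLike.coe_injective ?_),
      fun i => (tangent_iff S hA hr (hW.ne i)).2 (hW.nt i), hW.dim, (nondeg_iff S A W).2 hW.nd,
      fun i => by rw [← coe_hypS]; exact hW.le i, fun x => ?_⟩
    · simp only [coe_hypS]; exact hij
    · simp [lin, Finset.prod_eq_zero_iff, hc]
  · rintro ⟨l, W, h1, h2, h3, h4, h5, h6, h7⟩
    have hW : Conf (sesq σ A) l W :=
      ⟨h1, fun i j hij => h2 (by simp only [← coe_hypS]; exact congrArg _ hij),
        fun i => (tangent_iff S hA hr (h1 i)).1 (h3 i), h4, (nondeg_iff S A W).1 h5,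
        fun i x hx => mem_hypS.2 (h6 i hx)⟩
    have := card_of_conf S hB hd1 hW (F := F) fun x => by
      have h8 := h7 (algebraMap K (AlgebraicClosure K) ∘ x)
      rw [MvPolynomial.aeval_algebraMap_apply, map_eq_zero] at h8
      simp only [Function.comp, ← map_mul, ← map_sum, map_eq_zero] at h8
      simp only [mem_hypS]
      exact h8
    rw [card_zB S A hF] at this
    exact Nat.eq_of_mul_eq_mul_left hr0 this

end Final

end Pool.Agent.Work.MP_10b6e9_ag
end
end
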